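import Mathlib
import Pool.Agent.Y772.HC.Mer
import Pool.Agent.TH876.Sums

/-!
# Sums over the primes of a number field
-/

set_option autoImplicit false

namespace Pool.Agent.N753.LS

open NumberField IsDedekindDomain Finset Filter Topology Pool.Agent.H691R3 Pool.Agent.TH876.Loc
open scoped ArithmeticFunction.vonMangoldt

variable {K : Type} [Field K] [NumberField K]

theorem fin_Nv (z : ℝ) : {v : Pr K | Nv v ≤ z}.Finite := by
  have h1 : {I : Ideal (𝓞 K) | Ideal.absNorm I ≤ ⌊z⌋₊}.Finite := Ideal.finite_setOfPred_absNorm_le _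
  refine (h1.preimage (f := fun v : Pr K => v.asIdeal)
    (fun v _ w _ h => HeightOneSpectrum.ext h)).subset ?_
  intro v hv
  have h2 : (Ideal.absNorm v.asIdeal : ℝ) ≤ z := hv
  exact Nat.le_floor h2

/-- the primes of norm at most `z` -/
noncomputable def PP (K : Type) [Field K] [NumberField K] (z : ℝ) : Finset (Pr K) :=
  (fin_Nv (K := K) z).toFinset

theorem mem_PP {z : ℝ} {v : Pr K} : v ∈ PP K z ↔ Nv v ≤ z := by
  rw [PP, Set.Finite.mem_toFinset]
  rfl

open Pool.Agent.Y773 Pool.Agent.Y767 Pool.Agent.Y772.SL Pool.Agent.Y772.NZ Pool.Agent.Y772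
  Pool.Agent.Y772.HC in
theorem term_prime {p : ℕ} (hp : p.Prime) {z : ℝ} (hpz : (p : ℝ) ≤ z) [DecidableEq (Pr K)] :
    Λ p * ‖cK K p‖ ^ 2 / p ≤ ∑ v ∈ (PP K z).filter (fun v => Ideal.absNorm v.asIdeal = p),
      Real.log (Nv v) / Nv v := by
  classical
  have hfin : {𝔞 : Ideal (𝓞 K) | Ideal.absNorm 𝔞 = p}.Finite := Ideal.finite_setOfPred_absNorm_eq p
  have h1 : ‖cK K p‖ ^ 2 = hfin.toFinset.card := by
    have h2 : ∀ 𝔞 ∈ hfin.toFinset, 𝔞 ≠ 0 := by
      intro 𝔞 h𝔞
      rw [Set.Finite.mem_toFinset] at h𝔞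
      exact ne_bot_of_norm hp h𝔞
    rw [cK_prime hp, DK.cc_prime (one K) hp, finsum_mem_eq_finite_toFinset_sum _ hfin,
      Finset.sum_congr rfl fun 𝔞 h => one_ne K (h2 𝔞 h), Finset.sum_const, nsmul_eq_mul, mul_one,
      Complex.natCast_re]
  have h3 : (hfin.toFinset.card : ℝ) ≤
      ((PP K z).filter (fun v => Ideal.absNorm v.asIdeal = p)).card := by
    have h4 : hfin.toFinset ⊆
        ((PP K z).filter (fun v => Ideal.absNorm v.asIdeal = p)).image (fun v => v.asIdeal) := by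
      intro 𝔞 h𝔞
      rw [Set.Finite.mem_toFinset] at h𝔞
      have h5 : Ideal.absNorm 𝔞 = p := h𝔞
      have h6 : 𝔞.IsPrime := Ideal.isPrime_of_irreducible_absNorm (by rw [h5]; exact hp)
      have h7 : 𝔞 ≠ ⊥ := ne_bot_of_norm hp h5
      rw [Finset.mem_image]
      refine ⟨⟨𝔞, h6, h7⟩, ?_, rfl⟩
      rw [Finset.mem_filter, mem_PP]
      refine ⟨?_, h5⟩
      show ((Ideal.absNorm 𝔞 : ℕ) : ℝ) ≤ z
      rw [h5]
      exact hpz
    exact_mod_cast (Finset.card_le_card h4).trans Finset.card_image_le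
  have h4 : ∑ v ∈ (PP K z).filter (fun v => Ideal.absNorm v.asIdeal = p),
      Real.log (Nv v) / Nv v =
      ((PP K z).filter (fun v => Ideal.absNorm v.asIdeal = p)).card * (Real.log p / p) := by
    rw [← nsmul_eq_mul, ← Finset.sum_const]
    refine Finset.sum_congr rfl fun v hv => ?_
    have : Nv v = p := by
      show ((Ideal.absNorm v.asIdeal : ℕ) : ℝ) = p
      rw [(Finset.mem_filter.1 hv).2]
    rw [this]
  rw [h4, h1, ArithmeticFunction.vonMangoldt_apply_prime hp]
  have h5 : 0 ≤ Real.log p / p := by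
    have : 0 ≤ Real.log p := Real.log_nonneg (by exact_mod_cast hp.one_lt.le)
    positivity
  calc Real.log p * (hfin.toFinset.card : ℝ) / p = hfin.toFinset.card * (Real.log p / p) := by ring
    _ ≤ _ := mul_le_mul_of_nonneg_right h3 h5

theorem nonprime_sum : ∃ C : ℝ, 0 ≤ C ∧ ∀ F : Finset ℕ, (∀ n ∈ F, ¬ n.Prime) →
    ∑ n ∈ F, Λ n / n ≤ C := by
  have h := ArithmeticFunction.vonMangoldt.summable_residueClass_non_primes_div (q := 1)
    (a := (0 : ZMod 1))
  refine ⟨∑' n : ℕ, (if n.Prime then 0 else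
      ArithmeticFunction.vonMangoldt.residueClass (0 : ZMod 1) n) / n, tsum_nonneg ?_, fun F hF => ?_⟩
  · intro n
    split_ifs
    · simp
    · exact div_nonneg (ArithmeticFunction.vonMangoldt.residueClass_nonneg _ _) (Nat.cast_nonneg _)
  · refine le_trans (le_of_eq ?_) (h.sum_le_tsum F ?_)
    · refine Finset.sum_congr rfl fun n hn => ?_
      rw [if_neg (hF n hn)]
      congr 1
      unfold ArithmeticFunction.vonMangoldt.residueClass
      rw [Set.indicator_of_mem]
      exact Subsingleton.elim _ _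
    · intro n _
      split_ifs
      · simp
      · exact div_nonneg (ArithmeticFunction.vonMangoldt.residueClass_nonneg _ _)
          (Nat.cast_nonneg _)

open Pool.Agent.Y767 Pool.Agent.Y772.HC in
/-- **Mertens' theorem, the lower bound** -/
theorem mertens_lower (K : Type) [Field K] [NumberField K] {η : ℝ} (hη : 0 < η) :
    ∃ C : ℝ, 0 ≤ C ∧ ∀ z : ℝ, 1 ≤ z →
      (1 - η) * Real.log z - C ≤ ∑ v ∈ PP K z, Real.log (Nv v) / Nv v := by
  classical
  obtain ⟨C1, hC1, hn⟩ := nonprime_sum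
  have hT := t_mer K
  unfold W388.SelE at hT
  have h1 : ∀ᶠ x : ℝ in atTop, 1 - η <
      (∑ n ∈ Finset.Icc 1 ⌊x⌋₊, Λ n * ‖cK K n‖ ^ 2 / n) / Real.log x :=
    hT.eventually_const_lt (by linarith)
  obtain ⟨z0, hz0⟩ := eventually_atTop.1 (h1.and (eventually_ge_atTop 2))
  obtain ⟨z1, hz1⟩ : ∃ z1, z1 = max z0 2 := ⟨_, rfl⟩
  have hz1' : 2 ≤ z1 := by rw [hz1]; exact le_max_right _ _
  have hl1 : 0 ≤ Real.log z1 := Real.log_nonneg (by linarith)
  obtain ⟨d, hd⟩ : ∃ d : ℝ, d = (Module.finrank ℚ K : ℝ) := ⟨_, rfl⟩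
  refine ⟨Real.log z1 + d ^ 2 * C1, by positivity, fun z hz => ?_⟩
  have hlz : 0 ≤ Real.log z := Real.log_nonneg hz
  have hsum0 : 0 ≤ ∑ v ∈ PP K z, Real.log (Nv v) / Nv v := by
    refine Finset.sum_nonneg fun v _ => ?_
    have h2 := log_Nv_pos v
    have h3 := Nv_pos v
    positivity
  rcases le_total z1 z with h2 | h2
  · have hz2 : 2 ≤ z := hz1'.trans h2
    have h3 := (hz0 z ((le_max_left z0 2).trans (by rw [← hz1]; exact h2))).1
    rw [lt_div_iff₀ (Real.log_pos (by linarith))] at h3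
    have h4 : ∑ n ∈ Finset.Icc 1 ⌊z⌋₊, Λ n * ‖cK K n‖ ^ 2 / n ≤
        ∑ v ∈ PP K z, Real.log (Nv v) / Nv v + d ^ 2 * C1 := by
      rw [← Finset.sum_filter_add_sum_filter_not (Finset.Icc 1 ⌊z⌋₊) Nat.Prime]
      refine add_le_add ?_ ?_
      · calc ∑ n ∈ (Finset.Icc 1 ⌊z⌋₊).filter Nat.Prime, Λ n * ‖cK K n‖ ^ 2 / n
            ≤ ∑ p ∈ (Finset.Icc 1 ⌊z⌋₊).filter Nat.Prime,
              ∑ v ∈ (PP K z).filter (fun v => Ideal.absNorm v.asIdeal = p),
                Real.log (Nv v) / Nv v := by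
              refine Finset.sum_le_sum fun p hp => ?_
              rw [Finset.mem_filter, Finset.mem_Icc] at hp
              refine term_prime hp.2 ?_
              exact (Nat.le_floor_iff (by linarith)).1 hp.1.2
          _ = ∑ v ∈ ((Finset.Icc 1 ⌊z⌋₊).filter Nat.Prime).biUnion
              (fun p => (PP K z).filter (fun v => Ideal.absNorm v.asIdeal = p)),
                Real.log (Nv v) / Nv v := by
              rw [Finset.sum_biUnion]
              intro p _ q _ hpq
              show Disjoint _ _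
              rw [Finset.disjoint_left]
              intro v hv hv'
              exact hpq ((Finset.mem_filter.1 hv).2.symm.trans (Finset.mem_filter.1 hv').2)
          _ ≤ _ := by
              refine Finset.sum_le_sum_of_subset_of_nonneg ?_ fun v _ _ => ?_
              · intro v hv
                obtain ⟨p, -, hv⟩ := Finset.mem_biUnion.1 hv
                exact (Finset.mem_filter.1 hv).1
              · have h2 := log_Nv_pos v
                have h3 := Nv_pos v
                positivity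
      · calc ∑ n ∈ (Finset.Icc 1 ⌊z⌋₊).filter (fun n => ¬ n.Prime), Λ n * ‖cK K n‖ ^ 2 / n
            ≤ ∑ n ∈ (Finset.Icc 1 ⌊z⌋₊).filter (fun n => ¬ n.Prime), d ^ 2 * (Λ n / n) := by
              refine Finset.sum_le_sum fun n _ => ?_
              have h5 : ‖cK K n‖ ^ 2 ≤ d ^ 2 := by
                rw [hd]
                exact pow_le_pow_left₀ (norm_nonneg _) (cK_le n) 2
              have h6 : 0 ≤ Λ n / n :=
                div_nonneg ArithmeticFunction.vonMangoldt_nonneg (Nat.cast_nonneg _)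
              calc Λ n * ‖cK K n‖ ^ 2 / n = ‖cK K n‖ ^ 2 * (Λ n / n) := by ring
                _ ≤ _ := mul_le_mul_of_nonneg_right h5 h6
          _ = d ^ 2 * ∑ n ∈ (Finset.Icc 1 ⌊z⌋₊).filter (fun n => ¬ n.Prime), Λ n / n := by
              rw [Finset.mul_sum]
          _ ≤ d ^ 2 * C1 := by
              refine mul_le_mul_of_nonneg_left (hn _ fun n hn => (Finset.mem_filter.1 hn).2) ?_
              positivity
    linarith
  · have h3 := Real.log_le_log (by linarith) h2
    have h4 : (1 - η) * Real.log z ≤ Real.log z := by nlinarith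
    have h5 : 0 ≤ d ^ 2 * C1 := by positivity
    linarith

/-- Chebyshev's bound -/
theorem theta_le (K : Type) [Field K] [NumberField K] : ∃ C : ℝ, 0 ≤ C ∧ ∀ z : ℝ, 0 ≤ z →
    ∑ v ∈ PP K z, Real.log (Nv v) ≤ C * z := by
  refine ⟨5 * Module.finrank ℚ K, by positivity, fun z hz => ?_⟩
  rcases le_or_gt z 1 with h | h
  · have : PP K z = ∅ := by
      rw [Finset.eq_empty_iff_forall_notMem]
      intro v hv
      have h1 := mem_PP.1 hv
      have h2 := two_le_Nv v
      linarith
    rw [this, Finset.sum_empty]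
    positivity
  · have h1 := card_primes_le (K := K) h (PP K z) fun v hv => mem_PP.1 hv
    have hl : 0 < Real.log z := Real.log_pos h
    calc ∑ v ∈ PP K z, Real.log (Nv v) ≤ ∑ v ∈ PP K z, Real.log z := by
          refine Finset.sum_le_sum fun v hv => ?_
          exact Real.log_le_log (Nv_pos v) (mem_PP.1 hv)
      _ = (PP K z).card * Real.log z := by rw [Finset.sum_const, nsmul_eq_mul]
      _ ≤ (5 * (Module.finrank ℚ K) * (z / Real.log z)) * Real.log z :=
          mul_le_mul_of_nonneg_right h1 hl.le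
      _ = _ := by field_simp

/-- sums of negative powers of the norms -/
theorem sum_rpow_le (K : Type) [Field K] [NumberField K] {s : ℝ} (hs : 1 < s) :
    ∃ C : ℝ, 0 ≤ C ∧ ∀ F : Finset (Pr K), ∑ v ∈ F, Nv v ^ (-s) ≤ C := by
  classical
  have hsm : Summable (fun n : ℕ => (n : ℝ) ^ (-s)) := Real.summable_nat_rpow.2 (by linarith)
  refine ⟨Module.finrank ℚ K * ∑' n : ℕ, (n : ℝ) ^ (-s), mul_nonneg (Nat.cast_nonneg _)
    (tsum_nonneg fun n => Real.rpow_nonneg (Nat.cast_nonneg _) _), fun F => ?_⟩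
  calc ∑ v ∈ F, Nv v ^ (-s) ≤ ∑ v ∈ F, (pv v : ℝ) ^ (-s) := by
        refine Finset.sum_le_sum fun v _ => ?_
        refine Real.rpow_le_rpow_of_nonpos ?_ (pv_le_Nv v) (by linarith)
        exact_mod_cast (pv_prime v).pos
    _ = ∑ p ∈ F.image pv, ((F.filter fun v => pv v = p).card : ℝ) * (p : ℝ) ^ (-s) := by
        rw [Finset.sum_comp (fun p : ℕ => (p : ℝ) ^ (-s)) pv]
        simp only [nsmul_eq_mul]
    _ ≤ ∑ p ∈ F.image pv, (Module.finrank ℚ K : ℝ) * (p : ℝ) ^ (-s) := by
        refine Finset.sum_le_sum fun p _ => ?_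
        refine mul_le_mul_of_nonneg_right ?_ (Real.rpow_nonneg (Nat.cast_nonneg _) _)
        exact_mod_cast card_above p _ fun v hv => (Finset.mem_filter.1 hv).2
    _ = Module.finrank ℚ K * ∑ p ∈ F.image pv, (p : ℝ) ^ (-s) := by rw [Finset.mul_sum]
    _ ≤ _ := by
        refine mul_le_mul_of_nonneg_left ?_ (Nat.cast_nonneg _)
        exact hsm.sum_le_tsum _ fun n _ => Real.rpow_nonneg (Nat.cast_nonneg _) _

/-- the sum of `log N(v) / N(v)^(3/2)` -/
theorem sum_log_le (K : Type) [Field K] [NumberField K] :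
    ∃ C : ℝ, 0 ≤ C ∧ ∀ F : Finset (Pr K), ∑ v ∈ F, Real.log (Nv v) / Nv v ^ (3 / 2 : ℝ) ≤ C := by
  obtain ⟨C, hC, h⟩ := sum_rpow_le K (s := 5 / 4) (by norm_num)
  refine ⟨4 * C, by positivity, fun F => ?_⟩
  calc ∑ v ∈ F, Real.log (Nv v) / Nv v ^ (3 / 2 : ℝ) ≤ ∑ v ∈ F, 4 * Nv v ^ (-(5 / 4 : ℝ)) := by
        refine Finset.sum_le_sum fun v _ => ?_
        have h0 := Nv_pos v
        have h1 : Real.log (Nv v) ≤ Nv v ^ (1 / 4 : ℝ) / (1 / 4) :=
          Real.log_le_rpow_div h0.le (by norm_num)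
        rw [div_le_iff₀ (Real.rpow_pos_of_pos h0 _), mul_assoc, ← Real.rpow_add h0]
        norm_num at h1 ⊢
        linarith
    _ = 4 * ∑ v ∈ F, Nv v ^ (-(5 / 4 : ℝ)) := by rw [Finset.mul_sum]
    _ ≤ 4 * C := by linarith [h F]

/-- the primes of a set contribute little to Mertens' sum -/
theorem sum_set_le (K : Type) [Field K] [NumberField K] {η : ℝ} (hη : 0 < η) :
    ∃ C : ℝ, 0 ≤ C ∧ ∀ G : Finset (Pr K),
      ∑ v ∈ G, Real.log (Nv v) / Nv v ≤ η * ∑ v ∈ G, Real.log (Nv v) + C := by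
  classical
  refine ⟨∑ v ∈ PP K (1 / η), Real.log (Nv v) / Nv v, ?_, fun G => ?_⟩
  · refine Finset.sum_nonneg fun v _ => ?_
    have h2 := log_Nv_pos v
    have h3 := Nv_pos v
    positivity
  rw [← Finset.sum_filter_add_sum_filter_not G (fun v => 1 / η < Nv v)]
  refine add_le_add ?_ ?_
  · rw [Finset.mul_sum]
    calc ∑ v ∈ G.filter (fun v => 1 / η < Nv v), Real.log (Nv v) / Nv v
        ≤ ∑ v ∈ G.filter (fun v => 1 / η < Nv v), η * Real.log (Nv v) := by
          refine Finset.sum_le_sum fun v hv => ?_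
          have h1 := (Finset.mem_filter.1 hv).2
          have h2 := log_Nv_pos v
          rw [div_lt_iff₀ hη] at h1
          rw [div_le_iff₀ (Nv_pos v)]
          nlinarith
      _ ≤ _ := by
          refine Finset.sum_le_sum_of_subset_of_nonneg (Finset.filter_subset _ _) fun v _ _ => ?_
          have h2 := log_Nv_pos v
          positivity
  · refine Finset.sum_le_sum_of_subset_of_nonneg ?_ fun v _ _ => ?_
    · intro v hv
      exact mem_PP.2 (not_lt.1 (Finset.mem_filter.1 hv).2)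
    · have h2 := log_Nv_pos v
      have h3 := Nv_pos v
      positivity

end Pool.Agent.N753.LS
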