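import Mathlib
import Pool.Agent.H691R3.Places

/-!
# Reduction modulo a prime of a number field, and coincidences

For a prime `v` of the number field `K` the point `x` of the projective line over `K` has a
reduction `cls v x` in `ℙ¹(𝓞 K / v)`. Two points with the same reduction have positive local height.
-/

set_option autoImplicit false

namespace Pool.Agent.N753.LS

open NumberField IsDedekindDomain Pool.Agent.H691R3

variable {K : Type} [Field K] [NumberField K]

/-- the residue field -/
abbrev kk (v : HeightOneSpectrum (𝓞 K)) : Type := 𝓞 K ⧸ v.asIdeal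

theorem fv_val (v : HeightOneSpectrum (𝓞 K)) (x : K) :
    fv v x = ((WithZeroMulInt.toNNReal (NumberField.HeightOneSpectrum.absNorm_ne_zero v)
      (v.valuation K x) : NNReal) : ℝ) :=
  NumberField.FinitePlace.norm_embedding' (v := v) (x := x)

theorem fv_lt_one (v : HeightOneSpectrum (𝓞 K)) (x : K) : fv v x < 1 ↔ v.valuation K x < 1 := by
  rw [fv_val, NNReal.coe_lt_one]
  exact WithZeroMulInt.toNNReal_lt_one_iff
    (NumberField.HeightOneSpectrum.one_lt_absNorm_nnreal v)

theorem fv_le_one (v : HeightOneSpectrum (𝓞 K)) (x : K) : fv v x ≤ 1 ↔ v.valuation K x ≤ 1 := by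
  rw [fv_val, NNReal.coe_le_one]
  exact WithZeroMulInt.toNNReal_le_one_iff
    (NumberField.HeightOneSpectrum.one_lt_absNorm_nnreal v)

theorem mlt {a b : WithZero (Multiplicative ℤ)} (ha : a < 1) (hb : b ≤ 1) : a * b < 1 :=
  (mul_le_of_le_one_right' hb).trans_lt ha

theorem mlt' {a b : WithZero (Multiplicative ℤ)} (ha : a ≤ 1) (hb : b < 1) : a * b < 1 :=
  (mul_le_of_le_one_left' ha).trans_lt hb

theorem exists_int (v : HeightOneSpectrum (𝓞 K)) {x : K} (hx : v.valuation K x ≤ 1) :
    ∃ a : 𝓞 K, v.valuation K (x - algebraMap (𝓞 K) K a) < 1 := by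
  obtain ⟨a, ha⟩ := v.exists_valuation_sub_lt_of_integer (K := K) hx (γ := 1)
  refine ⟨a, ?_⟩
  rw [← Valuation.map_neg, neg_sub]
  simpa using ha

open Classical in
/-- the reduction of an element which is integral at `v` -/
noncomputable def rd (v : HeightOneSpectrum (𝓞 K)) (x : K) : kk v :=
  if h : v.valuation K x ≤ 1 then Ideal.Quotient.mk _ (exists_int v h).choose else 0

theorem mk_eq_iff (v : HeightOneSpectrum (𝓞 K)) (a b : 𝓞 K) :
    (Ideal.Quotient.mk v.asIdeal a : kk v) = Ideal.Quotient.mk v.asIdeal b ↔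
      v.valuation K (algebraMap (𝓞 K) K a - algebraMap (𝓞 K) K b) < 1 := by
  rw [Ideal.Quotient.eq, ← map_sub, HeightOneSpectrum.valuation_lt_one_iff_mem]

theorem rd_eq (v : HeightOneSpectrum (𝓞 K)) {x : K} (a : 𝓞 K)
    (h : v.valuation K (x - algebraMap (𝓞 K) K a) < 1) :
    rd v x = Ideal.Quotient.mk _ a := by
  have hx : v.valuation K x ≤ 1 := by
    have : x = (x - algebraMap (𝓞 K) K a) + algebraMap (𝓞 K) K a := by ring
    rw [this]
    exact (Valuation.map_add _ _ _).trans (max_le h.le (v.valuation_le_one a))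
  unfold rd
  rw [dif_pos hx, mk_eq_iff]
  have h1 := (exists_int v hx).choose_spec
  have : algebraMap (𝓞 K) K (exists_int v hx).choose - algebraMap (𝓞 K) K a =
      (x - algebraMap (𝓞 K) K a) - (x - algebraMap (𝓞 K) K (exists_int v hx).choose) := by ring
  rw [this]
  exact (Valuation.map_sub _ _ _).trans_lt (max_lt h h1)

theorem exists_rd (v : HeightOneSpectrum (𝓞 K)) {x : K} (hx : v.valuation K x ≤ 1) :
    ∃ a : 𝓞 K, v.valuation K (x - algebraMap (𝓞 K) K a) < 1 ∧ rd v x = Ideal.Quotient.mk _ a := by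
  obtain ⟨a, ha⟩ := exists_int v hx
  exact ⟨a, ha, rd_eq v a ha⟩

theorem rd_mul (v : HeightOneSpectrum (𝓞 K)) {x y : K} (hx : v.valuation K x ≤ 1)
    (hy : v.valuation K y ≤ 1) : rd v (x * y) = rd v x * rd v y := by
  obtain ⟨a, ha, ha'⟩ := exists_rd v hx
  obtain ⟨b, hb, hb'⟩ := exists_rd v hy
  rw [ha', hb', ← map_mul]
  refine rd_eq v _ ?_
  have : x * y - algebraMap (𝓞 K) K (a * b) = (x - algebraMap (𝓞 K) K a) * y +
      algebraMap (𝓞 K) K a * (y - algebraMap (𝓞 K) K b) := by
    rw [map_mul]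
    ring
  rw [this]
  refine (Valuation.map_add _ _ _).trans_lt (max_lt ?_ ?_)
  · rw [map_mul]
    exact mlt ha hy
  · rw [map_mul]
    exact mlt' (v.valuation_le_one a) hb

theorem rd_eq_zero_iff (v : HeightOneSpectrum (𝓞 K)) {x : K} (hx : v.valuation K x ≤ 1) :
    rd v x = 0 ↔ v.valuation K x < 1 := by
  constructor
  · intro h
    obtain ⟨a, ha, ha'⟩ := exists_rd v hx
    rw [h, eq_comm, Ideal.Quotient.eq_zero_iff_mem, ← HeightOneSpectrum.valuation_lt_one_iff_mem
      (K := K)] at ha'
    have : x = (x - algebraMap (𝓞 K) K a) + algebraMap (𝓞 K) K a := by ring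
    rw [this]
    exact (Valuation.map_add _ _ _).trans_lt (max_lt ha ha')
  · intro h
    have := rd_eq v (x := x) 0 (by simpa using h)
    rw [this, map_zero]

theorem rd_eq_rd_iff (v : HeightOneSpectrum (𝓞 K)) {x y : K} (hx : v.valuation K x ≤ 1)
    (hy : v.valuation K y ≤ 1) : rd v x = rd v y ↔ v.valuation K (x - y) < 1 := by
  obtain ⟨a, ha, ha'⟩ := exists_rd v hx
  obtain ⟨b, hb, hb'⟩ := exists_rd v hy
  rw [ha', hb', mk_eq_iff]
  constructor
  · intro h
    have : x - y = (x - algebraMap (𝓞 K) K a) + (algebraMap (𝓞 K) K a - algebraMap (𝓞 K) K b) -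
      (y - algebraMap (𝓞 K) K b) := by ring
    rw [this]
    exact (Valuation.map_sub _ _ _).trans_lt (max_lt
      ((Valuation.map_add _ _ _).trans_lt (max_lt ha h)) hb)
  · intro h
    have : algebraMap (𝓞 K) K a - algebraMap (𝓞 K) K b =
      (x - y) - (x - algebraMap (𝓞 K) K a) + (y - algebraMap (𝓞 K) K b) := by ring
    rw [this]
    exact (Valuation.map_add _ _ _).trans_lt (max_lt
      ((Valuation.map_sub _ _ _).trans_lt (max_lt h ha)) hb)

open Polynomial in
/-- the reduction of the value of a polynomial with integral coefficients -/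
theorem rd_eval (v : HeightOneSpectrum (𝓞 K)) {x : K} (hx : v.valuation K x ≤ 1)
    (f : (𝓞 K)[X]) : v.valuation K (aeval x f) ≤ 1 ∧
      rd v (aeval x f) = (f.map (Ideal.Quotient.mk v.asIdeal)).eval (rd v x) := by
  obtain ⟨a, ha, ha'⟩ := exists_rd v hx
  have h1 : v.valuation K (aeval x f - algebraMap (𝓞 K) K (f.eval a)) < 1 := by
    have h2 : algebraMap (𝓞 K) K (f.eval a) = (f.map (algebraMap (𝓞 K) K)).eval
        (algebraMap (𝓞 K) K a) := by
      rw [eval_map_algebraMap, aeval_algebraMap_apply, coe_aeval_eq_eval]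
    have h3 : aeval x f = (f.map (algebraMap (𝓞 K) K)).eval x := by rw [eval_map_algebraMap]
    -- `f(x) - f(a) = (x - a) g(x, a)`, with `g` integral
    rw [h2, h3, eval_eq_sum_range, eval_eq_sum_range, ← Finset.sum_sub_distrib]
    refine Valuation.map_sum_lt _ one_ne_zero fun i _ => ?_
    rw [← mul_sub, map_mul, coeff_map]
    refine mlt' (v.valuation_le_one _) ?_
    rw [← Commute.mul_geom_sum₂ (Commute.all _ _), map_mul]
    refine mlt ha ?_
    refine Valuation.map_sum_le _ fun j _ => ?_
    rw [map_mul, map_pow, map_pow]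
    exact mul_le_one' (pow_le_one' hx _) (pow_le_one' (v.valuation_le_one a) _)
  constructor
  · have : aeval x f = (aeval x f - algebraMap (𝓞 K) K (f.eval a)) +
      algebraMap (𝓞 K) K (f.eval a) := by ring
    rw [this]
    exact (Valuation.map_add _ _ _).trans (max_le h1.le (v.valuation_le_one _))
  · rw [rd_eq v _ h1, ha', eval_map, eval₂_at_apply]

/-- the class of `x` modulo `v`, a point of the projective line over the residue field -/
noncomputable def cls (v : HeightOneSpectrum (𝓞 K)) (x : K) : Option (kk v) :=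
  open Classical in if v.valuation K x ≤ 1 then some (rd v x) else none

theorem cls_of_le (v : HeightOneSpectrum (𝓞 K)) {x : K} (hx : v.valuation K x ≤ 1) :
    cls v x = some (rd v x) := if_pos hx

theorem cls_of_not (v : HeightOneSpectrum (𝓞 K)) {x : K} (hx : ¬ v.valuation K x ≤ 1) :
    cls v x = none := if_neg hx

/-- points with the same reduction are close -/
theorem lam_pos_of_cls (v : HeightOneSpectrum (𝓞 K)) {x y : K} (hxy : x ≠ y)
    (h : cls v x = cls v y) : 0 < lamA (fv v) (aff x) (aff y) := by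
  have hw := aff_wedge hxy
  have hpos : 0 < fv v (x - y) := (fv v).pos (sub_ne_zero.2 hxy)
  have e : (aff x).1 * (aff y).2 - (aff x).2 * (aff y).1 = x - y := by
    simp only [aff, mul_one, one_mul]
  unfold lamA
  refine Real.log_pos ?_
  rw [e, one_lt_div hpos]
  show fv v (x - y) < max (fv v x) (fv v 1) * max (fv v y) (fv v 1)
  rw [map_one]
  by_cases hx : v.valuation K x ≤ 1
  · by_cases hy : v.valuation K y ≤ 1
    · rw [cls_of_le v hx, cls_of_le v hy, Option.some_inj, rd_eq_rd_iff v hx hy,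
        ← fv_lt_one] at h
      refine h.trans_le ?_
      nlinarith [le_max_right (fv v x) 1, le_max_right (fv v y) 1]
    · rw [cls_of_le v hx, cls_of_not v hy] at h
      exact absurd h (by simp)
  · by_cases hy : v.valuation K y ≤ 1
    · rw [cls_of_not v hx, cls_of_le v hy] at h
      exact absurd h (by simp)
    · rw [← fv_le_one, not_le] at hx hy
      have h1 : fv v (x - y) ≤ max (fv v x) (fv v y) := by
        rw [sub_eq_add_neg]
        refine (fv_na v x (-y)).trans ?_
        rw [AbsoluteValue.map_neg]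
      refine h1.trans_lt ?_
      rw [max_eq_left hx.le, max_eq_left hy.le]
      refine max_lt ?_ ?_ <;> nlinarith

theorem lam_ge_of_cls (v : HeightOneSpectrum (𝓞 K)) {x y : K} (hxy : x ≠ y)
    (h : cls v x = cls v y) : Real.log (Nv v) ≤ lam (Sum.inr v) (aff x) (aff y) := by
  have h1 := lam_pos_of_cls v hxy h
  obtain ⟨m, hm⟩ := lamF_discrete v (aff_ne_zero x) (aff_ne_zero y) (aff_wedge hxy)
  have h2 : lam (Sum.inr v) (aff x) (aff y) = lamA (fv v) (aff x) (aff y) := rfl
  rw [h2, hm]
  rw [hm] at h1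
  have h3 : 0 < Real.log (Nv v) := log_Nv_pos v
  have h4 : m ≠ 0 := by
    rintro rfl
    simp at h1
  have h5 : (1 : ℝ) ≤ m := by exact_mod_cast Nat.one_le_iff_ne_zero.2 h4
  nlinarith

end Pool.Agent.N753.LS
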