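import Mathlib
import Pool.Agent.N753.LS.Red

/-!
# Gallagher's larger sieve on the projective line over a number field
-/

set_option autoImplicit false

namespace Pool.Agent.N753.LS

open NumberField IsDedekindDomain Pool.Agent.H691R3 Finset

theorem pairs_ge {α β : Type*} [DecidableEq β] (S : Finset α) (f : α → β) {ν : ℝ}
    (h : ((S.image f).card : ℝ) ≤ ν) :
    (S.card : ℝ) ^ 2 ≤ ν * ∑ x ∈ S, ((S.filter fun y => f y = f x).card : ℝ) := by
  have h1 : ∑ x ∈ S, ((S.filter fun y => f y = f x).card : ℝ) =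
      ∑ b ∈ S.image f, ((S.filter fun y => f y = b).card : ℝ) ^ 2 := by
    rw [Finset.sum_comp (fun b => ((S.filter fun y => f y = b).card : ℝ)) f]
    refine Finset.sum_congr rfl fun b _ => ?_
    rw [nsmul_eq_mul, sq]
  have h2 : (S.card : ℝ) = ∑ b ∈ S.image f, ((S.filter fun y => f y = b).card : ℝ) := by
    have := Finset.card_eq_sum_card_image f S
    exact_mod_cast this
  have h3 := sq_sum_le_card_mul_sum_sq (s := S.image f)
    (f := fun b => ((S.filter fun y => f y = b).card : ℝ))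
  rw [← h2, ← h1] at h3
  refine h3.trans (mul_le_mul_of_nonneg_right h ?_)
  exact Finset.sum_nonneg fun _ _ => Nat.cast_nonneg _

variable {K : Type} [Field K] [NumberField K]

open Classical in
/-- the primes modulo which two points coincide -/
theorem coinc_le {x y : K} (hxy : x ≠ y) (G : Finset (HeightOneSpectrum (𝓞 K)))
    (h : ∀ v ∈ G, cls v x = cls v y) :
    ∑ v ∈ G, Real.log (Nv v) ≤ hr (aff x) + hr (aff y) + lossK K := by
  have h1 := sum_lam_le (aff_ne_zero x) (aff_ne_zero y) (aff_wedge hxy)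
    (G.map ⟨Sum.inr, Sum.inr_injective⟩ : Finset (Pl K))
  rw [Finset.sum_map] at h1
  refine le_trans (Finset.sum_le_sum fun v hv => ?_) h1
  exact lam_ge_of_cls v hxy (h v hv)

open Classical in
/-- **the larger sieve** -/
theorem larger_sieve (S : Finset K) (H : ℝ) (hh : ∀ x ∈ S, hr (aff x) ≤ H)
    (G P : Finset (HeightOneSpectrum (𝓞 K))) (hGP : Disjoint G P)
    (hG : ∀ v ∈ G, ∀ x ∈ S, ∀ y ∈ S, cls v x = cls v y)
    (ν : HeightOneSpectrum (𝓞 K) → ℝ)
    (hν : ∀ v ∈ P, 0 < ν v ∧ ((S.image (cls v)).card : ℝ) ≤ ν v) (h2 : 2 ≤ S.card) :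
    0 ≤ 2 * H + lossK K - ∑ v ∈ G, Real.log (Nv v) ∧
    (S.card : ℝ) * (∑ v ∈ P, Real.log (Nv v) / ν v -
      (2 * H + lossK K - ∑ v ∈ G, Real.log (Nv v))) ≤ ∑ v ∈ P, Real.log (Nv v) := by
  obtain ⟨Λ, hΛ⟩ : ∃ Λ : ℝ, Λ = 2 * H + lossK K - ∑ v ∈ G, Real.log (Nv v) := ⟨_, rfl⟩
  rw [← hΛ]
  have hlog : ∀ v : HeightOneSpectrum (𝓞 K), 0 < Real.log (Nv v) := log_Nv_pos
  -- one pair
  have key : ∀ x ∈ S, ∀ y ∈ S, x ≠ y →
      ∑ v ∈ P, (if cls v y = cls v x then Real.log (Nv v) else 0) ≤ Λ := by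
    intro x hx y hy hxy
    have h1 := coinc_le hxy (G ∪ P.filter fun v => cls v y = cls v x) (by
      intro v hv
      rcases Finset.mem_union.1 hv with h | h
      · exact hG v h x hx y hy
      · exact ((Finset.mem_filter.1 h).2).symm)
    rw [Finset.sum_union (hGP.mono_right (Finset.filter_subset _ _))] at h1
    rw [← Finset.sum_filter]
    have h3 := hh x hx
    have h4 := hh y hy
    linarith
  have hΛ0 : 0 ≤ Λ := by
    obtain ⟨x, hx, y, hy, hxy⟩ := Finset.one_lt_card.1 (show 1 < S.card by omega)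
    refine le_trans (Finset.sum_nonneg fun v _ => ?_) (key x hx y hy hxy)
    split_ifs
    · exact (hlog v).le
    · exact le_rfl
  refine ⟨hΛ0, ?_⟩
  -- the double sum
  have h3 : ∑ v ∈ P, Real.log (Nv v) * (∑ x ∈ S, ((S.filter fun y => cls v y = cls v x).card : ℝ)) ≤
      (S.card : ℝ) * (∑ v ∈ P, Real.log (Nv v)) + (S.card : ℝ) * (((S.card : ℝ) - 1) * Λ) := by
    have h4 : ∑ v ∈ P, Real.log (Nv v) *
        (∑ x ∈ S, ((S.filter fun y => cls v y = cls v x).card : ℝ)) =
        ∑ x ∈ S, ∑ y ∈ S, ∑ v ∈ P, (if cls v y = cls v x then Real.log (Nv v) else 0) := by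
      have h5 : ∀ v ∈ P, Real.log (Nv v) *
          (∑ x ∈ S, ((S.filter fun y => cls v y = cls v x).card : ℝ)) =
          ∑ x ∈ S, ∑ y ∈ S, (if cls v y = cls v x then Real.log (Nv v) else 0) := by
        intro v _
        rw [Finset.mul_sum]
        refine Finset.sum_congr rfl fun x _ => ?_
        rw [← Finset.sum_filter, Finset.sum_const, nsmul_eq_mul, mul_comm]
      rw [Finset.sum_congr rfl h5, Finset.sum_comm]
      refine Finset.sum_congr rfl fun x _ => ?_
      rw [Finset.sum_comm]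
    rw [h4]
    calc ∑ x ∈ S, ∑ y ∈ S, ∑ v ∈ P, (if cls v y = cls v x then Real.log (Nv v) else 0)
        ≤ ∑ x ∈ S, (∑ v ∈ P, Real.log (Nv v) + ((S.card : ℝ) - 1) * Λ) := by
          refine Finset.sum_le_sum fun x hx => ?_
          rw [← Finset.add_sum_erase _ _ hx]
          refine add_le_add ?_ ?_
          · refine Finset.sum_le_sum fun v _ => ?_
            rw [if_pos rfl]
          · calc ∑ y ∈ S.erase x, ∑ v ∈ P, (if cls v y = cls v x then Real.log (Nv v) else 0)
                ≤ ∑ y ∈ S.erase x, Λ := by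
                  refine Finset.sum_le_sum fun y hy => ?_
                  obtain ⟨hy1, hy2⟩ := Finset.mem_erase.1 hy
                  exact key x hx y hy2 (Ne.symm hy1)
              _ = ((S.card : ℝ) - 1) * Λ := by
                  rw [Finset.sum_const, nsmul_eq_mul, Finset.card_erase_of_mem hx,
                    Nat.cast_sub (by omega), Nat.cast_one]
      _ = _ := by
          rw [Finset.sum_const, nsmul_eq_mul]
          ring
  have h4 : (S.card : ℝ) ^ 2 * ∑ v ∈ P, Real.log (Nv v) / ν v ≤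
      ∑ v ∈ P, Real.log (Nv v) * (∑ x ∈ S, ((S.filter fun y => cls v y = cls v x).card : ℝ)) := by
    rw [Finset.mul_sum]
    refine Finset.sum_le_sum fun v hv => ?_
    obtain ⟨hν0, hν1⟩ := hν v hv
    have h5 := pairs_ge S (cls v) hν1
    rw [mul_div_assoc', div_le_iff₀ hν0]
    calc (S.card : ℝ) ^ 2 * Real.log (Nv v) ≤
        (ν v * ∑ x ∈ S, ((S.filter fun y => cls v y = cls v x).card : ℝ)) * Real.log (Nv v) :=
          mul_le_mul_of_nonneg_right h5 (hlog v).le
      _ = _ := by ring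
  have hS0 : (0 : ℝ) < S.card := by
    have : 0 < S.card := by omega
    exact_mod_cast this
  have h5 := h4.trans h3
  have h6 : (S.card : ℝ) * ((S.card : ℝ) * (∑ v ∈ P, Real.log (Nv v) / ν v - Λ)) ≤
      (S.card : ℝ) * ∑ v ∈ P, Real.log (Nv v) := by
    nlinarith
  exact le_of_mul_le_mul_left h6 hS0

end Pool.Agent.N753.LS
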