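import Mathlib
import Pool.Agent.N753.LS.Sieve
import Pool.Agent.N753.LS.Mert

/-!
# Points with few residue classes
-/

set_option autoImplicit false

namespace Pool.Agent.N753.LS

open NumberField IsDedekindDomain Finset Pool.Agent.H691R3 Pool.Agent.TH876.Loc

/-- the local estimate -/
theorem inv_nu {κ K' N l : ℝ} (hκ : 0 < κ) (hK' : 0 ≤ K') (hN : 2 ≤ N) (hl : 0 ≤ l) :
    κ * (l / N) - κ ^ 2 * K' * (l / N ^ (3 / 2 : ℝ)) ≤ l / (N / κ + K' * Real.sqrt N) := by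
  have h0 : 0 < N := by linarith
  obtain ⟨s, hs⟩ : ∃ s : ℝ, s = Real.sqrt N := ⟨_, rfl⟩
  have hs0 : 0 < s := by rw [hs]; exact Real.sqrt_pos.2 h0
  have hss : N = s * s := by rw [hs]; exact (Real.mul_self_sqrt h0.le).symm
  have e : N ^ (3 / 2 : ℝ) = s * s * s := by
    rw [← hss, hs, Real.sqrt_eq_rpow, ← Real.rpow_one_add' h0.le (by norm_num)]
    norm_num
  rw [e, ← hs, hss]
  have h1 : 0 < s * s / κ + K' * s := by positivity
  rw [le_div_iff₀ h1]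
  have h2 : (κ * (l / (s * s)) - κ ^ 2 * K' * (l / (s * s * s))) * (s * s / κ + K' * s) =
      l * (1 - (κ * K') ^ 2 / (s * s)) := by
    field_simp
    ring
  rw [h2]
  have h3 : 0 ≤ (κ * K') ^ 2 / (s * s) := by positivity
  nlinarith

variable (K : Type) [Field K] [NumberField K]

open Classical in
/-- a set of points of height at most `H` which agree modulo the primes of `G` and which meet at
most `N(v) / κ + O(√N(v))` classes modulo the other primes -/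
theorem ls_bound {κ : ℝ} (hκ : 1 ≤ κ) {K' : ℝ} (hK' : 0 ≤ K') (Bad : Finset (Pr K)) {δ : ℝ}
    (hδ : 0 < δ) : ∃ C : ℝ, 0 < C ∧ ∀ H : ℝ, 0 ≤ H → ∀ S : Finset K, (∀ x ∈ S, hr (aff x) ≤ H) →
      ∀ G : Finset (Pr K), (∀ v ∈ G, ∀ x ∈ S, ∀ y ∈ S, cls v x = cls v y) →
        (∀ v, v ∉ G → v ∉ Bad →
          ((S.image (cls v)).card : ℝ) ≤ Nv v / κ + K' * Real.sqrt (Nv v)) →
        (S.card : ℝ) ≤ 1 + C * Real.exp (δ * H + (2 * H - ∑ v ∈ G, Real.log (Nv v)) / κ) := by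
  have hκ0 : 0 < κ := by linarith
  obtain ⟨η, hη⟩ : ∃ η : ℝ, η = min (1 / 2) (δ / 8) := ⟨_, rfl⟩
  have hη0 : 0 < η := by rw [hη]; exact lt_min (by norm_num) (by positivity)
  have hη1 : η ≤ 1 / 2 := by rw [hη]; exact min_le_left _ _
  have hη2 : 8 * η ≤ δ := by
    have := min_le_right (1 / 2) (δ / 8)
    rw [hη]
    linarith
  obtain ⟨C1, hC1, hmert⟩ := mertens_lower K hη0
  obtain ⟨C2, hC2, htheta⟩ := theta_le K
  obtain ⟨C3, hC3, h32⟩ := sum_log_le K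
  obtain ⟨C4, hC4, hset⟩ := sum_set_le K hη0
  obtain ⟨Cb, hCb⟩ : ∃ Cb : ℝ, Cb = ∑ v ∈ Bad, Real.log (Nv v) / Nv v := ⟨_, rfl⟩
  have hterm : ∀ v : Pr K, 0 ≤ Real.log (Nv v) / Nv v := fun v => by
    have h2 := log_Nv_pos v
    have h3 := Nv_pos v
    positivity
  have hCb0 : 0 ≤ Cb := by
    rw [hCb]
    exact Finset.sum_nonneg fun v _ => hterm v
  obtain ⟨ℓ, hℓ⟩ : ∃ ℓ : ℝ, ℓ = lossK K := ⟨_, rfl⟩
  have hℓ0 : 0 ≤ ℓ := by rw [hℓ]; exact lossK_nonneg K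
  obtain ⟨C5, hC5⟩ : ∃ C5 : ℝ, C5 = κ * (C1 + C4 + Cb) + κ ^ 2 * K' * C3 := ⟨_, rfl⟩
  have hC50 : 0 ≤ C5 := by rw [hC5]; positivity
  refine ⟨(C2 + 1) * Real.exp (ℓ + 4 * η * ℓ + 2 * (C5 + 1)), by positivity, ?_⟩
  intro H hH S hS G hG hcls
  by_cases h2 : 2 ≤ S.card
  swap
  · have h3 : (S.card : ℝ) ≤ 1 := by
      have : S.card ≤ 1 := by omega
      exact_mod_cast this
    have : 0 ≤ (C2 + 1) * Real.exp (ℓ + 4 * η * ℓ + 2 * (C5 + 1)) *
      Real.exp (δ * H + (2 * H - ∑ v ∈ G, Real.log (Nv v)) / κ) := by positivity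
    linarith
  obtain ⟨g, hg⟩ : ∃ g : ℝ, g = ∑ v ∈ G, Real.log (Nv v) := ⟨_, rfl⟩
  have hg0 : 0 ≤ g := by
    rw [hg]
    exact Finset.sum_nonneg fun v _ => (log_Nv_pos v).le
  rw [← hg]
  -- the parameter
  obtain ⟨Λ, hΛ⟩ : ∃ Λ : ℝ, Λ = 2 * H + ℓ - g := ⟨_, rfl⟩
  have hden : 0 < κ * (1 - η) := mul_pos hκ0 (by linarith)
  obtain ⟨t, ht⟩ : ∃ t : ℝ, t = (Λ + κ * η * (2 * H + ℓ) + C5 + 1) / (κ * (1 - η)) := ⟨_, rfl⟩
  have ht' : κ * (1 - η) * t = Λ + κ * η * (2 * H + ℓ) + C5 + 1 := by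
    rw [ht, mul_div_cancel₀ _ hden.ne']
  obtain ⟨P, hP⟩ : ∃ P : Finset (Pr K), P = PP K (Real.exp t) \ (G ∪ Bad) := ⟨_, rfl⟩
  have hPG : Disjoint G P := by
    rw [hP, Finset.disjoint_left]
    intro v hv hv'
    exact (Finset.mem_sdiff.1 hv').2 (Finset.mem_union_left _ hv)
  have hν : ∀ v ∈ P, 0 < Nv v / κ + K' * Real.sqrt (Nv v) ∧
      ((S.image (cls v)).card : ℝ) ≤ Nv v / κ + K' * Real.sqrt (Nv v) := by
    intro v hv
    rw [hP, Finset.mem_sdiff, Finset.mem_union, not_or] at hv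
    refine ⟨?_, hcls v hv.2.1 hv.2.2⟩
    have := Nv_pos v
    positivity
  have hsieve := larger_sieve S H hS G P hPG hG (fun v => Nv v / κ + K' * Real.sqrt (Nv v)) hν h2
  rw [← hg, ← hℓ, ← hΛ] at hsieve
  obtain ⟨hΛ0, hsieve⟩ := hsieve
  have ht0 : 0 ≤ t := by
    rw [ht]
    positivity
  have hgle : g ≤ 2 * H + ℓ := by linarith
  -- the lower bound for the sum
  have hW : κ * (1 - η) * t - κ * η * (2 * H + ℓ) - C5 ≤
      ∑ v ∈ P, Real.log (Nv v) / (Nv v / κ + K' * Real.sqrt (Nv v)) := by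
    have h3 : ∑ v ∈ P, (κ * (Real.log (Nv v) / Nv v) -
        κ ^ 2 * K' * (Real.log (Nv v) / Nv v ^ (3 / 2 : ℝ))) ≤
        ∑ v ∈ P, Real.log (Nv v) / (Nv v / κ + K' * Real.sqrt (Nv v)) :=
      Finset.sum_le_sum fun v _ => inv_nu hκ0 hK' (two_le_Nv v) (log_Nv_pos v).le
    rw [Finset.sum_sub_distrib, ← Finset.mul_sum, ← Finset.mul_sum] at h3
    have h4 := h32 P
    have h5 : ∑ v ∈ PP K (Real.exp t), Real.log (Nv v) / Nv v ≤
        ∑ v ∈ P, Real.log (Nv v) / Nv v + (∑ v ∈ G, Real.log (Nv v) / Nv v + Cb) := by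
      have h6 : ∑ v ∈ PP K (Real.exp t), Real.log (Nv v) / Nv v ≤
          ∑ v ∈ P ∪ (G ∪ Bad), Real.log (Nv v) / Nv v := by
        refine Finset.sum_le_sum_of_subset_of_nonneg ?_ fun v _ _ => hterm v
        intro v hv
        rw [Finset.mem_union]
        by_cases h : v ∈ G ∪ Bad
        · exact Or.inr h
        · left
          rw [hP, Finset.mem_sdiff]
          exact ⟨hv, h⟩
      have h7 : ∀ A B : Finset (Pr K), ∑ v ∈ A ∪ B, Real.log (Nv v) / Nv v ≤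
          ∑ v ∈ A, Real.log (Nv v) / Nv v + ∑ v ∈ B, Real.log (Nv v) / Nv v := by
        intro A B
        rw [← Finset.sum_union_inter]
        have : 0 ≤ ∑ v ∈ A ∩ B, Real.log (Nv v) / Nv v := Finset.sum_nonneg fun v _ => hterm v
        linarith
      have h8 := h7 P (G ∪ Bad)
      have h9 := h7 G Bad
      rw [hCb]
      linarith
    have h6 := hmert (Real.exp t) (Real.one_le_exp ht0)
    rw [Real.log_exp] at h6
    have h7 := hset G
    rw [← hg] at h7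
    have h8 : (1 - η) * t - C1 - (η * (2 * H + ℓ) + C4 + Cb) ≤ ∑ v ∈ P, Real.log (Nv v) / Nv v := by
      have : η * g ≤ η * (2 * H + ℓ) := mul_le_mul_of_nonneg_left hgle hη0.le
      linarith
    have h9 := mul_le_mul_of_nonneg_left h8 hκ0.le
    have h10 : κ ^ 2 * K' * ∑ v ∈ P, Real.log (Nv v) / Nv v ^ (3 / 2 : ℝ) ≤ κ ^ 2 * K' * C3 :=
      mul_le_mul_of_nonneg_left h4 (by positivity)
    rw [hC5]
    nlinarith
  have hW1 : 1 ≤ ∑ v ∈ P, Real.log (Nv v) / (Nv v / κ + K' * Real.sqrt (Nv v)) - Λ := by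
    linarith
  have hΘ : ∑ v ∈ P, Real.log (Nv v) ≤ C2 * Real.exp t := by
    refine le_trans (Finset.sum_le_sum_of_subset_of_nonneg ?_ fun v _ _ => (log_Nv_pos v).le)
      (htheta (Real.exp t) (Real.exp_pos t).le)
    rw [hP]
    exact Finset.sdiff_subset
  have hS1 : (S.card : ℝ) ≤ C2 * Real.exp t := by
    have h3 : (S.card : ℝ) * 1 ≤ (S.card : ℝ) *
        (∑ v ∈ P, Real.log (Nv v) / (Nv v / κ + K' * Real.sqrt (Nv v)) - Λ) :=
      mul_le_mul_of_nonneg_left hW1 (Nat.cast_nonneg _)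
    linarith
  have ht1 : t ≤ ℓ + 4 * η * ℓ + 2 * (C5 + 1) + (δ * H + (2 * H - g) / κ) := by
    rw [ht, div_le_iff₀ hden]
    -- it suffices to multiply out
    obtain ⟨u, hu⟩ : ∃ u : ℝ, u = (2 * H - g) / κ := ⟨_, rfl⟩
    have hu' : 2 * H - g = κ * u := by rw [hu]; field_simp
    rw [← hu]
    have hΛu : Λ = κ * u + ℓ := by linarith
    rw [hΛu] at hΛ0 ⊢
    obtain ⟨A, hA⟩ : ∃ A : ℝ, A = κ * (η * H) := ⟨_, rfl⟩
    obtain ⟨D, hD⟩ : ∃ D : ℝ, D = κ * (η * ℓ) := ⟨_, rfl⟩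
    have hηH : 0 ≤ η * H := by positivity
    have hηℓ : 0 ≤ η * ℓ := by positivity
    have hηH' : η * H ≤ A := by rw [hA]; nlinarith
    have hu1 : κ * u ≤ 2 * H := by linarith
    have e1 : κ * u - 2 * A ≤ κ * (1 - η) * u := by
      have h1 : η * (κ * u) ≤ η * (2 * H) := mul_le_mul_of_nonneg_left hu1 hη0.le
      have h2 : κ * (1 - η) * u = κ * u - η * (κ * u) := by ring
      linarith
    have e2 : 4 * A ≤ κ * (1 - η) * (δ * H) := by
      have h0 : 8 * (η * H) ≤ δ * H := by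
        have := mul_le_mul_of_nonneg_right hη2 hH
        linarith
      have h1 : (1 / 2) * (δ * H) ≤ (1 - η) * (δ * H) :=
        mul_le_mul_of_nonneg_right (by linarith) (by positivity)
      have h2 : κ * (4 * (η * H)) ≤ κ * ((1 - η) * (δ * H)) :=
        mul_le_mul_of_nonneg_left (by linarith) hκ0.le
      rw [hA]
      linarith
    have e3 : 2 * D ≤ κ * (1 - η) * (4 * η * ℓ) := by
      have h1 : (1 / 2) * (4 * (η * ℓ)) ≤ (1 - η) * (4 * (η * ℓ)) :=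
        mul_le_mul_of_nonneg_right (by linarith) (by positivity)
      have h2 : κ * (2 * (η * ℓ)) ≤ κ * ((1 - η) * (4 * (η * ℓ))) :=
        mul_le_mul_of_nonneg_left (by linarith) hκ0.le
      rw [hD]
      linarith
    have e4 : ℓ - D ≤ κ * (1 - η) * ℓ := by
      have h1 : κ * (1 - η) * ℓ = κ * ℓ - D := by rw [hD]; ring
      have h2 : 1 * ℓ ≤ κ * ℓ := mul_le_mul_of_nonneg_right hκ hℓ0
      linarith
    have e5 : C5 + 1 ≤ κ * (1 - η) * (2 * (C5 + 1)) := by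
      have h1 : 1 * (1 / 2) ≤ κ * (1 - η) :=
        mul_le_mul hκ (by linarith) (by norm_num) hκ0.le
      have h2 : (1 / 2) * (2 * (C5 + 1)) ≤ κ * (1 - η) * (2 * (C5 + 1)) :=
        mul_le_mul_of_nonneg_right (by linarith) (by positivity)
      linarith
    have e6 : κ * η * (2 * H + ℓ) = 2 * A + D := by rw [hA, hD]; ring
    have e7 : (ℓ + 4 * η * ℓ + 2 * (C5 + 1) + (δ * H + u)) * (κ * (1 - η)) =
        κ * (1 - η) * u + κ * (1 - η) * (δ * H) + κ * (1 - η) * (4 * η * ℓ) +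
          κ * (1 - η) * ℓ + κ * (1 - η) * (2 * (C5 + 1)) := by ring
    rw [e6, e7]
    linarith
  calc (S.card : ℝ) ≤ C2 * Real.exp t := hS1
    _ ≤ (C2 + 1) * Real.exp (ℓ + 4 * η * ℓ + 2 * (C5 + 1) + (δ * H + (2 * H - g) / κ)) := by
        refine mul_le_mul (by linarith) (Real.exp_le_exp.2 ht1) (Real.exp_pos _).le (by linarith)
    _ = (C2 + 1) * Real.exp (ℓ + 4 * η * ℓ + 2 * (C5 + 1)) *
        Real.exp (δ * H + (2 * H - g) / κ) := by
        rw [Real.exp_add (ℓ + 4 * η * ℓ + 2 * (C5 + 1)), ← mul_assoc]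
    _ ≤ _ := by linarith

end Pool.Agent.N753.LS
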