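import Mathlib
import Pool.Agent.H471R4.BW.CRD
import Pool.Agent.H471R4.BW.NV0
import Pool.Agent.H471R4.BW.NV1
import Pool.Agent.H471R4.BW.COR

/-!
# Square values of polynomials over finite fields (Weil's bound, by Stepanov's method)
-/

set_option autoImplicit false

namespace Pool.Agent.N753.LS

open Polynomial Finset

open Classical in
/-- the number of `x` for which `u f(x)` is a square is at most `|F| / 2 + O(√|F|)` -/
theorem weil_two (d : ℕ) : ∃ M : ℝ, 0 ≤ M ∧ ∀ (F : Type) [Field F] [Fintype F] (f : F[X]),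
    (Fintype.card F) % 2 = 1 → 1 ≤ f.natDegree → f.natDegree ≤ d →
    (∀ (c : F) (h : F[X]), f ≠ C c * h ^ 2) → ∀ u : F, u ≠ 0 →
    ((univ.filter fun x : F => f.eval x = 0 ∨ ∃ w : F, f.eval x = u * w ^ 2).card : ℝ) ≤
      (Fintype.card F : ℝ) / 2 + M * Real.sqrt (Fintype.card F) := by
  obtain ⟨C0, hC0, h0⟩ := Pool.Agent.H471R4.BW.crd
    (Pool.Agent.H471R4.BW.cor (Pool.Agent.H471R4.BW.nv1 Pool.Agent.H471R4.BW.nv0)) 2 d Nat.prime_two
  refine ⟨C0 + d, by positivity, ?_⟩
  intro F _ _ f hodd hf1 hfd hns u hu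
  obtain ⟨Q, hQ⟩ : ∃ Q, 2 * Q + 1 = Fintype.card F := ⟨Fintype.card F / 2, by omega⟩
  have hs1 : 1 ≤ Real.sqrt (Fintype.card F) := by
    rw [Real.one_le_sqrt]
    exact_mod_cast Fintype.card_pos
  have hss : Real.sqrt (Fintype.card F) * Real.sqrt (Fintype.card F) = Fintype.card F :=
    Real.mul_self_sqrt (Nat.cast_nonneg _)
  have hf0 : f ≠ 0 := by
    rintro rfl
    simp at hf1
  by_cases hbig : d < Fintype.card F
  · -- a point where `f` does not vanish
    obtain ⟨c, hc⟩ : ∃ c : F, f.eval c ≠ 0 := by
      by_contra hcon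
      push Not at hcon
      have h1 : (univ : Finset F) ⊆ f.roots.toFinset := by
        intro x _
        rw [Multiset.mem_toFinset, mem_roots hf0]
        exact hcon x
      have h2 := (Finset.card_le_card h1).trans ((Multiset.toFinset_card_le _).trans (card_roots' f))
      rw [Finset.card_univ] at h2
      omega
    obtain ⟨g, hg⟩ : ∃ g, g = f.comp (X + C c) := ⟨_, rfl⟩
    have hge : ∀ x, g.eval x = f.eval (x + c) := by
      intro x
      rw [hg, eval_comp]
      simp
    have hgf : g.comp (X - C c) = f := by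
      rw [hg, comp_assoc]
      simp
    have hgd : g.natDegree = f.natDegree := by
      rw [hg, natDegree_comp, natDegree_X_add_C, mul_one]
    have hgns : ∀ (c' : F) (h : F[X]), g ≠ C c' * h ^ 2 := by
      intro c' h' he
      apply hns c' (h'.comp (X - C c))
      rw [← hgf, he, mul_comp, C_comp, pow_comp]
    have h1 := h0 F g (by rw [hgd]; exact hf1) (by rw [hgd]; exact hfd)
      (by rw [hge, zero_add]; exact hc) hgns (u ^ Q) Q hQ
    have h2 : (univ.filter fun x : F => f.eval x = 0 ∨ ∃ w : F, f.eval x = u * w ^ 2).card ≤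
        (univ.filter fun x : F => g.eval x = 0 ∨ g.eval x ^ Q = u ^ Q).card := by
      refine Finset.card_le_card_of_injOn (fun x => x - c) ?_ ?_
      · intro x hx
        rw [Finset.mem_coe, Finset.mem_filter] at hx ⊢
        refine ⟨Finset.mem_univ _, ?_⟩
        show g.eval (x - c) = 0 ∨ g.eval (x - c) ^ Q = u ^ Q
        rw [hge, sub_add_cancel]
        by_cases hz : f.eval x = 0
        · exact Or.inl hz
        · rcases hx.2 with h | ⟨w, hw⟩
          · exact Or.inl h
          · right
            have hw0 : w ≠ 0 := by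
              rintro rfl
              apply hz
              rw [hw]
              ring
            rw [hw, mul_pow, ← pow_mul, show 2 * Q = Fintype.card F - 1 by omega,
              FiniteField.pow_card_sub_one_eq_one w hw0, mul_one]
      · intro x _ y _ hxy
        exact sub_left_injective hxy
    have h3 : ((univ.filter fun x : F => f.eval x = 0 ∨ ∃ w : F, f.eval x = u * w ^ 2).card : ℝ) ≤
        ((univ.filter fun x : F => g.eval x = 0 ∨ g.eval x ^ Q = u ^ Q).card : ℝ) := by
      exact_mod_cast h2
    refine h3.trans (h1.trans ?_)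
    have h4 : (0 : ℝ) ≤ d * Real.sqrt (Fintype.card F) := by positivity
    push_cast
    linarith
  · have h1 : ((univ.filter fun x : F => f.eval x = 0 ∨ ∃ w : F, f.eval x = u * w ^ 2).card : ℝ) ≤
        Fintype.card F := by
      exact_mod_cast Finset.card_le_univ _
    have h2 : (Fintype.card F : ℝ) ≤ d := by exact_mod_cast not_lt.1 hbig
    have h3 : (0 : ℝ) ≤ (Fintype.card F : ℝ) / 2 := by positivity
    have h4 : (0 : ℝ) ≤ C0 * Real.sqrt (Fintype.card F) := by positivity
    have h5 : (d : ℝ) ≤ d * Real.sqrt (Fintype.card F) := by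
      have : (0 : ℝ) ≤ d := Nat.cast_nonneg _
      nlinarith
    linarith

end Pool.Agent.N753.LS
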