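import Mathlib
import Pool.Agent.N753.LS.Red
import Pool.Agent.N753.LS.Weil

/-!
# The residue classes of the points at which a polynomial has values in one square class
-/

set_option autoImplicit false

namespace Pool.Agent.N753.LS

open NumberField IsDedekindDomain Finset Pool.Agent.H691R3 Polynomial

variable {K : Type} [Field K] [NumberField K]

theorem fin_dvd {r : 𝓞 K} (hr : r ≠ 0) : {v : HeightOneSpectrum (𝓞 K) | r ∈ v.asIdeal}.Finite := by
  have h := Ideal.finite_factors (I := Ideal.span {r}) (by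
    rw [Ne, Ideal.zero_eq_bot, Ideal.span_singleton_eq_bot]
    exact hr)
  refine h.subset ?_
  intro v hv
  exact Ideal.dvd_span_singleton.2 hv

/-- clearing denominators in Bézout's identity -/
theorem bezout_int (f : (𝓞 K)[X]) (hsq : Squarefree (f.map (algebraMap (𝓞 K) K))) :
    ∃ (a b : (𝓞 K)[X]) (n : 𝓞 K), n ≠ 0 ∧ a * f + b * derivative f = C n := by
  have hsep : (f.map (algebraMap (𝓞 K) K)).Separable := by
    rw [PerfectField.separable_iff_squarefree]
    exact hsq
  obtain ⟨a, b, hab⟩ := hsep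
  obtain ⟨m, hm0, hm⟩ := IsLocalization.integerNormalization_spec (nonZeroDivisors (𝓞 K)) a
  obtain ⟨n, hn0, hn⟩ := IsLocalization.integerNormalization_spec (nonZeroDivisors (𝓞 K)) b
  obtain ⟨A, hA⟩ : ∃ A, A = IsLocalization.integerNormalization (nonZeroDivisors (𝓞 K)) a := ⟨_, rfl⟩
  obtain ⟨B, hB⟩ : ∃ B, B = IsLocalization.integerNormalization (nonZeroDivisors (𝓞 K)) b := ⟨_, rfl⟩
  rw [← hA] at hm
  rw [← hB] at hn
  have hm' : A.map (algebraMap (𝓞 K) K) = C (algebraMap (𝓞 K) K m) * a := by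
    ext i
    rw [hm, coeff_smul, coeff_C_mul, Algebra.smul_def]
  have hn' : B.map (algebraMap (𝓞 K) K) = C (algebraMap (𝓞 K) K n) * b := by
    ext i
    rw [hn, coeff_smul, coeff_C_mul, Algebra.smul_def]
  refine ⟨C n * A, C m * B, m * n, mul_ne_zero (nonZeroDivisors.ne_zero hm0)
    (nonZeroDivisors.ne_zero hn0), ?_⟩
  apply Polynomial.map_injective (algebraMap (𝓞 K) K) (FaithfulSMul.algebraMap_injective _ _)
  rw [Polynomial.map_add, Polynomial.map_mul, Polynomial.map_mul, Polynomial.map_mul,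
    Polynomial.map_mul, Polynomial.map_C, Polynomial.map_C, Polynomial.map_C, hm', hn',
    ← derivative_map, map_mul, C_mul]
  linear_combination (C (algebraMap (𝓞 K) K m) * C (algebraMap (𝓞 K) K n)) * hab

noncomputable instance instFieldKk (v : HeightOneSpectrum (𝓞 K)) : Field (kk v) :=
  letI := v.isMaximal
  Ideal.Quotient.field v.asIdeal

theorem finite_kk (v : HeightOneSpectrum (𝓞 K)) : Finite (kk v) :=
  Ideal.finiteQuotientOfFreeOfNeBot v.asIdeal v.ne_bot

noncomputable instance instFintypeKk (v : HeightOneSpectrum (𝓞 K)) : Fintype (kk v) :=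
  letI := finite_kk v
  Fintype.ofFinite _

theorem card_kk (v : HeightOneSpectrum (𝓞 K)) : (Fintype.card (kk v) : ℝ) = Nv v := by
  unfold Nv
  rw [Ideal.absNorm_apply, Submodule.cardQuot_apply, Nat.card_eq_fintype_card]

/-- the prime `v` is good for the polynomial `f` -/
def Good (f : (𝓞 K)[X]) (v : HeightOneSpectrum (𝓞 K)) : Prop :=
  (Fintype.card (kk v)) % 2 = 1 ∧ (f.map (Ideal.Quotient.mk v.asIdeal)).natDegree = f.natDegree ∧
    ∀ (c : kk v) (h : (kk v)[X]), f.map (Ideal.Quotient.mk v.asIdeal) ≠ C c * h ^ 2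

theorem exists_bad (f : (𝓞 K)[X]) (hsq : Squarefree (f.map (algebraMap (𝓞 K) K)))
    (hd : 1 ≤ f.natDegree) : ∃ Bad : Finset (HeightOneSpectrum (𝓞 K)), ∀ v ∉ Bad, Good f v := by
  classical
  obtain ⟨a, b, n, hn, hab⟩ := bezout_int f hsq
  have hlc : f.leadingCoeff ≠ 0 := by
    rw [Ne, leadingCoeff_eq_zero]
    rintro rfl
    simp at hd
  have h2 : (2 : 𝓞 K) ≠ 0 := two_ne_zero
  have hr : 2 * n * f.leadingCoeff ≠ 0 := mul_ne_zero (mul_ne_zero h2 hn) hlc
  refine ⟨(fin_dvd hr).toFinset, fun v hv => ?_⟩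
  rw [Set.Finite.mem_toFinset] at hv
  have hv' : 2 * n * f.leadingCoeff ∉ v.asIdeal := hv
  have hv2 : (2 : 𝓞 K) ∉ v.asIdeal := fun h =>
    hv' (Ideal.mul_mem_right _ _ (Ideal.mul_mem_right _ _ h))
  have hvn : n ∉ v.asIdeal := fun h =>
    hv' (Ideal.mul_mem_right _ _ (Ideal.mul_mem_left _ _ h))
  have hvl : f.leadingCoeff ∉ v.asIdeal := fun h => hv' (Ideal.mul_mem_left _ _ h)
  have hdeg : (f.map (Ideal.Quotient.mk v.asIdeal)).natDegree = f.natDegree := by
    refine natDegree_map_of_leadingCoeff_ne_zero _ ?_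
    rwa [Ne, Ideal.Quotient.eq_zero_iff_mem]
  refine ⟨?_, hdeg, ?_⟩
  · have h3 : (2 : kk v) ≠ 0 := by
      intro h
      apply hv2
      rw [← Ideal.Quotient.eq_zero_iff_mem, map_ofNat]
      exact h
    have h4 : ringChar (kk v) ≠ 2 := by
      intro h
      apply h3
      have := CharP.cast_eq_zero (kk v) (ringChar (kk v))
      rw [h] at this
      exact_mod_cast this
    exact FiniteField.odd_card_of_char_ne_two h4
  · intro c h he
    have h5 : h ∣ C (Ideal.Quotient.mk v.asIdeal n) := by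
      have h6 := congrArg (Polynomial.map (Ideal.Quotient.mk v.asIdeal)) hab
      rw [Polynomial.map_add, Polynomial.map_mul, Polynomial.map_mul, ← derivative_map,
        Polynomial.map_C, he] at h6
      rw [← h6]
      refine dvd_add ?_ ?_
      · exact Dvd.dvd.mul_left (Dvd.dvd.mul_left (dvd_pow_self h two_ne_zero) _) _
      · refine Dvd.dvd.mul_left ?_ _
        rw [derivative_mul, derivative_C, zero_mul, zero_add, derivative_pow]
        refine Dvd.dvd.mul_left ?_ _
        simp only [Nat.add_one_sub_one, pow_one]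
        exact Dvd.dvd.mul_right (Dvd.dvd.mul_left dvd_rfl _) _
    have h6 : IsUnit (C (Ideal.Quotient.mk v.asIdeal n) : (kk v)[X]) := by
      rw [isUnit_C, isUnit_iff_ne_zero, Ne, Ideal.Quotient.eq_zero_iff_mem]
      exact hvn
    have h7 := natDegree_eq_zero_of_isUnit (isUnit_of_dvd_unit h5 h6)
    have h8 : (f.map (Ideal.Quotient.mk v.asIdeal)).natDegree ≤ 0 := by
      rw [he]
      refine natDegree_mul_le.trans ?_
      rw [natDegree_C, zero_add]
      refine natDegree_pow_le.trans ?_
      rw [h7, mul_zero]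
    omega

open Classical in
/-- the classes of the roots -/
noncomputable def RC (f : (𝓞 K)[X]) (v : HeightOneSpectrum (𝓞 K)) : Finset (Option (kk v)) :=
  insert none ((f.map (Ideal.Quotient.mk v.asIdeal)).roots.toFinset.image some)

theorem card_RC (f : (𝓞 K)[X]) (v : HeightOneSpectrum (𝓞 K)) :
    (RC f v).card ≤ f.natDegree + 1 := by
  classical
  unfold RC
  refine (Finset.card_insert_le _ _).trans ?_
  refine Nat.add_le_add_right ?_ 1
  refine Finset.card_image_le.trans ((Multiset.toFinset_card_le _).trans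
    ((card_roots' _).trans natDegree_map_le))

theorem isSquare_of_eval {f : (𝓞 K)[X]} {v : HeightOneSpectrum (𝓞 K)} {x : K}
    (hx : v.valuation K x ≤ 1)
    (h : (f.map (Ideal.Quotient.mk v.asIdeal)).eval (rd v x) ≠ 0) :
    v.valuation K (aeval x f) = 1 := by
  obtain ⟨h1, h2⟩ := rd_eval v hx f
  rw [← h2, Ne, rd_eq_zero_iff v h1, not_lt] at h
  exact le_antisymm h1 h

/-- a prime at which the value has odd valuation -/
theorem cls_mem_RC {f : (𝓞 K)[X]} {v : HeightOneSpectrum (𝓞 K)} (hv : Good f v)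
    (hd : 1 ≤ f.natDegree) {x : K}
    (h : ¬ IsSquare (v.valuation K (aeval x f))) : cls v x ∈ RC f v := by
  classical
  have hf0 : f.map (Ideal.Quotient.mk v.asIdeal) ≠ 0 := by
    intro h0
    have := hv.2.1
    rw [h0, natDegree_zero] at this
    omega
  unfold RC
  rw [Finset.mem_insert]
  by_cases hx : v.valuation K x ≤ 1
  · right
    rw [cls_of_le v hx, Finset.mem_image]
    refine ⟨rd v x, ?_, rfl⟩
    rw [Multiset.mem_toFinset, mem_roots hf0]
    by_contra hne
    apply h
    rw [isSquare_of_eval hx hne]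
    exact IsSquare.one
  · left
    exact cls_of_not v hx

open Classical in
/-- **the number of classes** of a set of points at which the values of `f` are in one square
class -/
theorem cell_card (f : (𝓞 K)[X]) (hd : 1 ≤ f.natDegree) : ∃ M : ℝ, 0 ≤ M ∧
    ∀ (v : HeightOneSpectrum (𝓞 K)), Good f v → ∀ S : Finset K, (∀ x ∈ S, aeval x f ≠ 0) →
      (∀ x ∈ S, ∀ y ∈ S, ∃ w : K, aeval x f = aeval y f * w ^ 2) →
      ((S.image (cls v)).card : ℝ) ≤ Nv v / 2 + M * Real.sqrt (Nv v) := by
  obtain ⟨M, hM, hW⟩ := weil_two f.natDegree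
  refine ⟨M + (f.natDegree + 1), by positivity, fun v hv S hS0 hS => ?_⟩
  obtain ⟨g, hg⟩ : ∃ g : (kk v)[X], g = f.map (Ideal.Quotient.mk v.asIdeal) := ⟨_, rfl⟩
  have hs1 : 1 ≤ Real.sqrt (Nv v) := by
    rw [Real.one_le_sqrt]
    linarith [two_le_Nv v]
  have hN0 : 0 ≤ Nv v := by linarith [two_le_Nv v]
  have hgd : g.natDegree = f.natDegree := by rw [hg]; exact hv.2.1
  have hg0 : g ≠ 0 := by
    rintro h0
    rw [h0, natDegree_zero] at hgd
    omega
  by_cases hcase : ∃ y ∈ S, v.valuation K y ≤ 1 ∧ g.eval (rd v y) ≠ 0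
  · obtain ⟨y, hyS, hy, hy0⟩ := hcase
    have hvy : v.valuation K (aeval y f) = 1 := isSquare_of_eval hy (by rw [← hg]; exact hy0)
    have h1 : S.image (cls v) ⊆ insert none
        ((univ.filter fun ξ : kk v => g.eval ξ = 0 ∨ ∃ w : kk v, g.eval ξ =
          g.eval (rd v y) * w ^ 2).image some) := by
      intro c hc
      obtain ⟨x, hx, rfl⟩ := Finset.mem_image.1 hc
      rw [Finset.mem_insert]
      by_cases hx1 : v.valuation K x ≤ 1
      · right
        rw [cls_of_le v hx1, Finset.mem_image]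
        refine ⟨rd v x, ?_, rfl⟩
        rw [Finset.mem_filter]
        refine ⟨Finset.mem_univ _, Or.inr ?_⟩
        obtain ⟨w, hw⟩ := hS x hx y hyS
        have hw1 : v.valuation K w ≤ 1 := by
          have h2 := (rd_eval v hx1 f).1
          rw [hw, map_mul, hvy, one_mul, map_pow] at h2
          exact (pow_le_one_iff_of_nonneg zero_le two_ne_zero).1 h2
        refine ⟨rd v w, ?_⟩
        rw [hg, ← (rd_eval v hx1 f).2, ← (rd_eval v hy f).2, hw, sq w,
          rd_mul v hvy.le (by rw [map_mul]; exact mul_le_one' hw1 hw1), rd_mul v hw1 hw1, sq]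
      · left
        exact cls_of_not v hx1
    have h2 := (Finset.card_le_card h1).trans (Finset.card_insert_le _ _)
    have h3 := h2.trans (Nat.add_le_add_right Finset.card_image_le 1)
    have h4 := hW (kk v) g hv.1 (by rw [hgd]; exact hd) hgd.le (by rw [hg]; exact hv.2.2) _ hy0
    rw [card_kk] at h4
    have h5 : ((S.image (cls v)).card : ℝ) ≤ ((univ.filter fun ξ : kk v => g.eval ξ = 0 ∨
        ∃ w : kk v, g.eval ξ = g.eval (rd v y) * w ^ 2).card : ℝ) + 1 := by
      exact_mod_cast h3
    have h6 : (1 : ℝ) ≤ (f.natDegree + 1) * Real.sqrt (Nv v) := by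
      have : (0 : ℝ) ≤ f.natDegree := Nat.cast_nonneg _
      nlinarith
    linarith
  · push Not at hcase
    have h1 : S.image (cls v) ⊆ RC f v := by
      intro c hc
      obtain ⟨x, hx, rfl⟩ := Finset.mem_image.1 hc
      unfold RC
      rw [Finset.mem_insert]
      by_cases hx1 : v.valuation K x ≤ 1
      · right
        rw [cls_of_le v hx1, Finset.mem_image]
        refine ⟨rd v x, ?_, rfl⟩
        rw [Multiset.mem_toFinset, ← hg, mem_roots hg0]
        exact hcase x hx hx1
      · left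
        exact cls_of_not v hx1
    have h2 := (Finset.card_le_card h1).trans (card_RC f v)
    have h3 : ((S.image (cls v)).card : ℝ) ≤ f.natDegree + 1 := by exact_mod_cast h2
    have h4 : ((f.natDegree : ℝ) + 1) ≤ (f.natDegree + 1) * Real.sqrt (Nv v) := by
      have : (0 : ℝ) ≤ f.natDegree := Nat.cast_nonneg _
      nlinarith
    have h5 : 0 ≤ M * Real.sqrt (Nv v) := by positivity
    have h6 : 0 ≤ Nv v / 2 := by linarith
    linarith

end Pool.Agent.N753.LS
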