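import Mathlib
import Pool.Agent.N753.LS.Bound
import Pool.Agent.N753.LS.Cell
import Pool.Agent.H645R3.ABC3

/-!
# The primes at which a value has odd valuation, and the points with a given set of such primes
-/

set_option autoImplicit false

namespace Pool.Agent.N753.LS

open NumberField IsDedekindDomain Finset Pool.Agent.H691R3 Pool.Agent.TH876.Loc Polynomial
open H645.ABC (vl vl_mul vl_div vl_inv vl_pow)

variable {K : Type} [Field K] [NumberField K]

theorem sq_iff (v : Pr K) (z : Kˣ) : IsSquare (v.valuation K (z : K)) ↔ Even (vl v z) := by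
  have h0 : ((v.valuationOfNeZero z : Multiplicative ℤ) : WithZero (Multiplicative ℤ)) =
      v.valuation K (z : K) := HeightOneSpectrum.valuationOfNeZero_eq v z
  constructor
  · rintro ⟨r, hr⟩
    have hr0 : r ≠ 0 := by
      rintro rfl
      rw [mul_zero, ← h0] at hr
      exact WithZero.coe_ne_zero hr
    obtain ⟨n, rfl⟩ := WithZero.ne_zero_iff_exists.1 hr0
    rw [← h0, ← WithZero.coe_mul, WithZero.coe_inj] at hr
    refine ⟨Multiplicative.toAdd n, ?_⟩
    unfold vl
    rw [hr, toAdd_mul]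
  · rintro ⟨k, hk⟩
    refine ⟨((Multiplicative.ofAdd k : Multiplicative ℤ) : WithZero (Multiplicative ℤ)), ?_⟩
    rw [← h0, ← WithZero.coe_mul, WithZero.coe_inj, ← ofAdd_add, ← hk]
    unfold vl
    rw [ofAdd_toAdd]

theorem od_fin (a : K) : {v : Pr K | ¬ IsSquare (v.valuation K a)}.Finite := by
  by_cases ha : a = 0
  · refine Set.Finite.subset Set.finite_empty fun v hv => hv ?_
    rw [ha, map_zero]
    exact IsSquare.zero
  · refine (fv_support_finite ha).subset fun v hv => ?_
    show fv v a ≠ 1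
    intro h
    apply hv
    have h1 : v.valuation K a ≤ 1 := (fv_le_one v a).1 h.le
    have h2 : ¬ v.valuation K a < 1 := fun h2 => by
      rw [← fv_lt_one, h] at h2
      exact lt_irrefl _ h2
    rw [le_antisymm h1 (not_lt.1 h2)]
    exact IsSquare.one

/-- the primes at which `a` has odd valuation -/
noncomputable def od (a : K) : Finset (Pr K) := (od_fin a).toFinset

theorem mem_od {a : K} {v : Pr K} : v ∈ od a ↔ ¬ IsSquare (v.valuation K a) := by
  rw [od, Set.Finite.mem_toFinset]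
  rfl

theorem even_of_od {a b : Kˣ} (h : od (a : K) = od (b : K)) (v : Pr K) :
    (2 : ℤ) ∣ vl v (a / b) := by
  have h1 : Even (vl v a) ↔ Even (vl v b) := by
    rw [← sq_iff, ← sq_iff]
    have := Finset.ext_iff.1 h v
    rw [mem_od, mem_od] at this
    exact not_iff_not.1 this
  rw [vl_div, ← even_iff_two_dvd, Int.even_sub]
  exact h1

open Classical in
/-- **points with a given set of odd primes** -/
theorem count_T (f : (𝓞 K)[X]) (hd : 1 ≤ f.natDegree) (Bad : Finset (Pr K))
    (hBad : ∀ v ∉ Bad, Good f v) {δ : ℝ} (hδ : 0 < δ) : ∃ C : ℝ, 0 < C ∧ ∀ H : ℝ, 0 ≤ H →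
      ∀ S : Finset K, (∀ x ∈ S, hr (aff x) ≤ H ∧ aeval x f ≠ 0) →
        ∀ T : Finset (Pr K), (∀ x ∈ S, od (aeval x f) = T) →
          (S.card : ℝ) ≤ C * ((f.natDegree : ℝ) + 1) ^ (T \ Bad).card *
            (1 + Real.exp (δ * H + (2 * H - ∑ v ∈ T \ Bad, Real.log (Nv v)) / 2)) := by
  obtain ⟨M, hM, hcell⟩ := cell_card f hd
  obtain ⟨C1, hC1, hls⟩ := ls_bound K (κ := 2) one_le_two hM Bad hδ
  obtain ⟨ι, hι, c, hc⟩ := H645.ABC.selmer (K := K) 2 two_pos
  have : Fintype ι := Fintype.ofFinite ι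
  refine ⟨(Fintype.card ι + 1) * (C1 + 1), by positivity, ?_⟩
  intro H hH S hS T hT
  obtain ⟨U, hU⟩ : ∃ U : Finset (Pr K), U = T \ Bad := ⟨_, rfl⟩
  rw [← hU]
  obtain ⟨E, hE⟩ : ∃ E : ℝ, E = Real.exp (δ * H + (2 * H - ∑ v ∈ U, Real.log (Nv v)) / 2) :=
    ⟨_, rfl⟩
  rw [← hE]
  have hE0 : 0 < E := by rw [hE]; exact Real.exp_pos _
  have hUBad : ∀ v ∈ U, v ∉ Bad := fun v hv => by
    rw [hU] at hv
    exact (Finset.mem_sdiff.1 hv).2
  have hUT : ∀ v ∈ U, v ∈ T := fun v hv => by
    rw [hU] at hv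
    exact (Finset.mem_sdiff.1 hv).1
  rcases S.eq_empty_or_nonempty with hS0 | ⟨x0, hx0⟩
  · rw [hS0, Finset.card_empty, Nat.cast_zero]
    positivity
  -- the key
  let col : K → ι := fun x => if h : aeval x f / aeval x0 f ≠ 0 then c (Units.mk0 _ h) else c 1
  let key : K → ((v : U) → Option (kk v.1)) × ι := fun x => (fun v => cls v.1 x, col x)
  obtain ⟨t, ht⟩ : ∃ t : Finset (((v : U) → Option (kk v.1)) × ι),
    t = (Fintype.piFinset fun v : U => RC f v.1) ×ˢ (Finset.univ : Finset ι) := ⟨_, rfl⟩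
  have hmaps : ∀ x ∈ S, key x ∈ t := by
    intro x hx
    rw [ht, Finset.mem_product]
    refine ⟨?_, Finset.mem_univ _⟩
    rw [Fintype.mem_piFinset]
    intro v
    refine cls_mem_RC (hBad v.1 (hUBad v.1 v.2)) hd ?_
    rw [← mem_od, hT x hx]
    exact hUT v.1 v.2
  have hcard : (t.card : ℝ) ≤ ((f.natDegree : ℝ) + 1) ^ U.card * Fintype.card ι := by
    rw [ht, Finset.card_product, Fintype.card_piFinset, Finset.card_univ]
    push_cast
    refine mul_le_mul_of_nonneg_right ?_ (Nat.cast_nonneg _)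
    calc ∏ v : U, ((RC f v.1).card : ℝ) ≤ ∏ _v : U, ((f.natDegree : ℝ) + 1) := by
          refine Finset.prod_le_prod (fun _ _ => Nat.cast_nonneg _) fun v _ => ?_
          exact_mod_cast card_RC f v.1
      _ = _ := by
          rw [Finset.prod_const, Finset.card_univ, Fintype.card_coe]
  have hfib : ∀ b ∈ t, ((S.filter fun x => key x = b).card : ℝ) ≤ 1 + C1 * E := by
    intro b _
    obtain ⟨S', hS'⟩ : ∃ S', S' = S.filter fun x => key x = b := ⟨_, rfl⟩
    rw [← hS']
    have hm : ∀ x ∈ S', x ∈ S ∧ key x = b := fun x hx => by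
      rw [hS'] at hx
      exact Finset.mem_filter.1 hx
    rw [hE]
    refine hls H hH S' (fun x hx => (hS x (hm x hx).1).1) U ?_ ?_
    · intro v hv x hx y hy
      have h1 := (hm x hx).2.trans (hm y hy).2.symm
      have h2 := congrFun (congrArg Prod.fst h1) ⟨v, hv⟩
      exact h2
    · intro v _ hvB
      refine hcell v (hBad v hvB) S' (fun x hx => (hS x (hm x hx).1).2) ?_
      intro x hx y hy
      obtain ⟨hxS, hx1⟩ := hm x hx
      obtain ⟨hyS, hy1⟩ := hm y hy
      have h1 : col x = col y := congrArg Prod.snd (hx1.trans hy1.symm)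
      have hfx := (hS x hxS).2
      have hfy := (hS y hyS).2
      have hf0 := (hS x0 hx0).2
      have dx : aeval x f / aeval x0 f ≠ 0 := div_ne_zero hfx hf0
      have dy : aeval y f / aeval x0 f ≠ 0 := div_ne_zero hfy hf0
      have h2 : c (Units.mk0 _ dx) = c (Units.mk0 _ dy) := by
        have e1 : col x = c (Units.mk0 _ dx) := dif_pos dx
        have e2 : col y = c (Units.mk0 _ dy) := dif_pos dy
        rw [← e1, ← e2, h1]
      have h3 : ∀ z (hzS : z ∈ S) (dz : aeval z f / aeval x0 f ≠ 0), ∀ v : Pr K,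
          ((2 : ℕ) : ℤ) ∣ vl v (Units.mk0 _ dz) := by
        intro z hzS dz v
        have e1 : Units.mk0 _ dz = Units.mk0 (aeval z f) (hS z hzS).2 / Units.mk0 (aeval x0 f) hf0 := by
          ext
          simp
        rw [e1]
        refine even_of_od ?_ v
        rw [Units.val_mk0, Units.val_mk0, hT z hzS, hT x0 hx0]
      obtain ⟨w, hw⟩ := hc _ _ (h3 x hxS dx) (h3 y hyS dy) h2
      refine ⟨w, ?_⟩
      have h4 := congrArg (fun z : Kˣ => (z : K)) hw
      simp only [Units.val_mk0, Units.val_mul, Units.val_pow_eq_pow_val] at h4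
      rw [div_eq_iff hf0] at h4
      rw [h4]
      field_simp
  have hsum : (S.card : ℝ) = ∑ b ∈ t, ((S.filter fun x => key x = b).card : ℝ) := by
    have := Finset.card_eq_sum_card_fiberwise hmaps
    exact_mod_cast this
  rw [hsum]
  have hp : (0 : ℝ) < ((f.natDegree : ℝ) + 1) ^ U.card := by positivity
  calc ∑ b ∈ t, ((S.filter fun x => key x = b).card : ℝ) ≤ ∑ _b ∈ t, (1 + C1 * E) :=
        Finset.sum_le_sum hfib
    _ = t.card * (1 + C1 * E) := by rw [Finset.sum_const, nsmul_eq_mul]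
    _ ≤ (((f.natDegree : ℝ) + 1) ^ U.card * Fintype.card ι) * ((C1 + 1) * (1 + E)) := by
        refine mul_le_mul hcard ?_ (by positivity) (by positivity)
        nlinarith
    _ ≤ ((Fintype.card ι + 1) * (C1 + 1)) * ((f.natDegree : ℝ) + 1) ^ U.card * (1 + E) := by
        have h1 : (0 : ℝ) ≤ ((f.natDegree : ℝ) + 1) ^ U.card * ((C1 + 1) * (1 + E)) := by positivity
        nlinarith

end Pool.Agent.N753.LS
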