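import Mathlib
import Pool.Agent.N753.LS.Odd

/-!
# Heights
-/

set_option autoImplicit false

namespace Pool.Agent.N753.LS

open NumberField IsDedekindDomain Finset Pool.Agent.H691R3 Pool.Agent.TH876.Loc Polynomial Height

variable {K : Type} [Field K] [NumberField K]

theorem hr_aff (x : K) : hr (aff x) = logHeight₁ x := by
  rw [NumberField.logHeight₁_eq]
  unfold hr
  congr 1
  · refine Finset.sum_congr rfl fun w _ => ?_
    rw [Real.posLog_eq_log_max_one (apply_nonneg w x), max_comm 1]
    show (w.mult : ℝ) * Real.log (max (w x) (w 1)) = _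
    rw [map_one]
  · rw [← finsum_comp_equiv (FinitePlace.equivHeightOneSpectrum (K := K)).symm]
    refine finsum_congr fun v => ?_
    have h0 : 0 ≤ (FinitePlace.equivHeightOneSpectrum.symm v) x := (fv v).nonneg x
    rw [Real.posLog_eq_log_max_one h0, max_comm 1]
    show Real.log (max (fv v x) (fv v 1)) = _
    rw [map_one]
    rfl

theorem fin_le_hr (x : K) (F : Finset (Pr K)) :
    ∑ v ∈ F, Real.log (max (fv v x) 1) ≤ logHeight₁ x := by
  classical
  rw [← hr_aff]
  have hnn : ∀ v : Pr K, 0 ≤ Real.log (max (fv v x) 1) := fun v =>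
    Real.log_nonneg (le_max_right _ _)
  have e : ∀ v : Pr K, Real.log (max (fv v (aff x).1) (fv v (aff x).2)) =
      Real.log (max (fv v x) 1) := by
    intro v
    show Real.log (max (fv v x) (fv v 1)) = _
    rw [map_one]
  unfold hr
  have h1 : ∑ᶠ v : HeightOneSpectrum (𝓞 K), Real.log (max (fv v (aff x).1) (fv v (aff x).2)) =
      ∑ v ∈ F ∪ (log_max_support_finite (aff_ne_zero x)).toFinset, Real.log (max (fv v x) 1) := by
    rw [finsum_eq_sum_of_support_subset (s := F ∪ (log_max_support_finite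
      (aff_ne_zero x)).toFinset)]
    · exact Finset.sum_congr rfl fun v _ => e v
    · intro v hv
      rw [Finset.coe_union]
      right
      rw [Set.Finite.coe_toFinset]
      exact hv
  rw [h1]
  have h2 : 0 ≤ ∑ w : InfinitePlace K, (w.mult : ℝ) * Real.log (max (w (aff x).1) (w (aff x).2)) := by
    refine Finset.sum_nonneg fun w _ => mul_nonneg (Nat.cast_nonneg _) (Real.log_nonneg ?_)
    show 1 ≤ max (w x) (w 1)
    rw [map_one]
    exact le_max_right _ _
  have h3 : ∑ v ∈ F, Real.log (max (fv v x) 1) ≤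
      ∑ v ∈ F ∪ (log_max_support_finite (aff_ne_zero x)).toFinset, Real.log (max (fv v x) 1) :=
    Finset.sum_le_sum_of_subset_of_nonneg Finset.subset_union_left fun v _ _ => hnn v
  linarith

theorem log_fv_ge (v : Pr K) {a : K} (h : 1 < fv v a) : Real.log (Nv v) ≤ Real.log (max (fv v a) 1) := by
  have ha : a ≠ 0 := by
    rintro rfl
    rw [map_zero] at h
    linarith
  obtain ⟨n, hn⟩ := log_fv v ha
  rw [max_eq_left h.le, hn]
  have h1 : 0 < Real.log (fv v a) := Real.log_pos h
  rw [hn] at h1
  have h2 := log_Nv_pos v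
  have h3 : (0 : ℝ) < n := by
    by_contra hcon
    rw [not_lt] at hcon
    have := mul_nonpos_of_nonpos_of_nonneg hcon h2.le
    linarith
  have h4 : (1 : ℝ) ≤ n := by
    have : (0 : ℤ) < n := by exact_mod_cast h3
    exact_mod_cast this
  nlinarith

/-- the odd primes are bounded by the height -/
theorem sum_od_le {a : K} (ha : a ≠ 0) :
    ∑ v ∈ od a, Real.log (Nv v) ≤ 2 * logHeight₁ a := by
  classical
  have h1 := fin_le_hr a (od a)
  have h2 := fin_le_hr a⁻¹ (od a)
  rw [logHeight₁_inv] at h2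
  have h3 : ∑ v ∈ od a, Real.log (Nv v) ≤
      ∑ v ∈ od a, (Real.log (max (fv v a) 1) + Real.log (max (fv v a⁻¹) 1)) := by
    refine Finset.sum_le_sum fun v hv => ?_
    have hnn : ∀ b : K, 0 ≤ Real.log (max (fv v b) 1) := fun b =>
      Real.log_nonneg (le_max_right _ _)
    rw [mem_od] at hv
    rcases lt_trichotomy (fv v a) 1 with h | h | h
    · have h4 : 1 < fv v a⁻¹ := by
        rw [map_inv₀]
        exact (one_lt_inv₀ ((fv v).pos ha)).2 h
      have := log_fv_ge v h4
      linarith [hnn a]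
    · exfalso
      apply hv
      have h5 : v.valuation K a ≤ 1 := (fv_le_one v a).1 h.le
      have h6 : ¬ v.valuation K a < 1 := fun h2 => by
        rw [← fv_lt_one, h] at h2
        exact lt_irrefl _ h2
      rw [le_antisymm h5 (not_lt.1 h6)]
      exact IsSquare.one
    · have := log_fv_ge v h
      linarith [hnn a⁻¹]
  rw [Finset.sum_add_distrib] at h3
  linarith

/-- the height of the value of a polynomial -/
theorem height_aeval (f : (𝓞 K)[X]) : ∃ C : ℝ, 0 ≤ C ∧ ∀ x : K,
    logHeight₁ (aeval x f) ≤ C * (1 + logHeight₁ x) := by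
  induction f using Polynomial.induction_on' with
  | add p q hp hq =>
    obtain ⟨C, hC, h1⟩ := hp
    obtain ⟨D, hD, h2⟩ := hq
    have hw : 0 ≤ (totalWeight K : ℝ) * Real.log 2 :=
      mul_nonneg (Nat.cast_nonneg _) (Real.log_nonneg (by norm_num))
    refine ⟨C + D + totalWeight K * Real.log 2, by positivity, fun x => ?_⟩
    rw [map_add]
    refine (logHeight₁_add_le _ _).trans ?_
    have h3 := h1 x
    have h4 := h2 x
    have h5 := zero_le_logHeight₁ x
    nlinarith
  | monomial n a =>
    refine ⟨logHeight₁ (algebraMap (𝓞 K) K a) + n, by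
      have := zero_le_logHeight₁ (algebraMap (𝓞 K) K a)
      positivity, fun x => ?_⟩
    rw [aeval_monomial]
    refine (logHeight₁_mul_le _ _).trans ?_
    rw [logHeight₁_pow]
    have h5 := zero_le_logHeight₁ x
    have h6 := zero_le_logHeight₁ (algebraMap (𝓞 K) K a)
    have h7 : (0 : ℝ) ≤ n := Nat.cast_nonneg _
    nlinarith

/-- the number of the odd primes -/
theorem card_od (f : (𝓞 K)[X]) : ∃ C : ℝ, 0 ≤ C ∧ ∀ x : K, aeval x f ≠ 0 →
    ((od (aeval x f)).card : ℝ) ≤ C * (1 + logHeight₁ x) := by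
  obtain ⟨C, hC, h⟩ := height_aeval f
  refine ⟨4 * C, by positivity, fun x hx => ?_⟩
  have h1 := sum_od_le hx
  have h2 : ((od (aeval x f)).card : ℝ) * Real.log 2 ≤ ∑ v ∈ od (aeval x f), Real.log (Nv v) := by
    rw [← nsmul_eq_mul, ← Finset.sum_const]
    exact Finset.sum_le_sum fun v _ => Real.log_le_log (by norm_num) (two_le_Nv v)
  have h3 := h x
  have h4 : 1 / 2 ≤ Real.log 2 := by
    have := Real.log_two_gt_d9
    linarith
  have h5 : (0 : ℝ) ≤ (od (aeval x f)).card := Nat.cast_nonneg _
  nlinarith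

end Pool.Agent.N753.LS
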