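import Mathlib
import Pool.Agent.N753.LS.Odd

/-!
# The number of points with few odd primes
-/

set_option autoImplicit false

namespace Pool.Agent.N753.LS

open NumberField IsDedekindDomain Finset Pool.Agent.H691R3 Pool.Agent.TH876.Loc Polynomial

variable (K : Type) [Field K] [NumberField K]

/-- powers are smaller than exponentials -/
theorem pow_le_exp (k : ℕ) {δ : ℝ} (hδ : 0 < δ) : ∃ C : ℝ, 0 < C ∧ ∀ H : ℝ, 0 ≤ H →
    (2 + 2 * H) ^ k ≤ C * Real.exp (δ * H) := by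
  refine ⟨(2 / δ) ^ k * k.factorial * Real.exp δ, by positivity, fun H hH => ?_⟩
  have h1 := Real.pow_div_factorial_le_exp (x := δ * (1 + H)) (by positivity) k
  rw [div_le_iff₀ (by positivity)] at h1
  have h2 : (2 + 2 * H) ^ k = (2 / δ) ^ k * (δ * (1 + H)) ^ k := by
    rw [← mul_pow]
    congr 1
    field_simp
  rw [h2]
  calc (2 / δ) ^ k * (δ * (1 + H)) ^ k ≤ (2 / δ) ^ k * (Real.exp (δ * (1 + H)) * k.factorial) :=
        mul_le_mul_of_nonneg_left h1 (by positivity)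
    _ = _ := by
        rw [show δ * (1 + H) = δ + δ * H by ring, Real.exp_add]
        ring

/-- the weighted number of the sets of primes -/
theorem sumU (D : ℝ) (hD : 1 ≤ D) {δ : ℝ} (hδ : 0 < δ) : ∃ C : ℝ, 0 < C ∧ ∀ H : ℝ, 0 ≤ H →
    ∀ W : Finset (Finset (Pr K)), (∀ U ∈ W, ∀ v ∈ U, Real.log (Nv v) ≤ 2 * H) →
      ∑ U ∈ W, ∏ v ∈ U, (D / Nv v) ≤ C * Real.exp (δ * H) := by
  obtain ⟨c, k, hc, h⟩ := sum_pow_card (Module.finrank ℚ K) D hD
  obtain ⟨C, hC, hC'⟩ := pow_le_exp k hδ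
  refine ⟨c * C, by positivity, fun H hH W hW => ?_⟩
  have h3 : (1 : ℝ) ≤ Real.exp (2 * H) := Real.one_le_exp (by positivity)
  have h1 := h K rfl (3 * Real.exp (2 * H)) (by linarith) W (by
    intro U hU v hv
    have h4 := Real.exp_le_exp.2 (hW U hU v hv)
    rw [Real.exp_log (Nv_pos v)] at h4
    linarith)
  refine h1.trans ?_
  rw [mul_assoc]
  refine mul_le_mul_of_nonneg_left ?_ hc.le
  refine le_trans (pow_le_pow_left₀ ?_ ?_ k) (hC' H hH)
  · exact Real.log_nonneg (by linarith)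
  · rw [Real.log_mul (by norm_num) (Real.exp_pos _).ne', Real.log_exp]
    have h5 : Real.log 3 ≤ 2 := by
      have := Real.log_le_sub_one_of_pos (show (0 : ℝ) < 3 by norm_num)
      linarith
    linarith

theorem exp_sum_log (U : Finset (Pr K)) :
    Real.exp (∑ v ∈ U, Real.log (Nv v)) = ∏ v ∈ U, Nv v := by
  rw [Real.exp_sum]
  exact Finset.prod_congr rfl fun v _ => Real.exp_log (Nv_pos v)

variable {K}

open Classical in
/-- sums over sets of primes, forgetting the bad ones -/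
theorem sum_forget (Bad : Finset (Pr K)) (F : Finset (Pr K) → ℝ) (hF : ∀ U, 0 ≤ F U)
    (W : Finset (Finset (Pr K))) :
    ∑ T ∈ W, F (T \ Bad) ≤ 2 ^ Bad.card * ∑ U ∈ W.image (fun T => T \ Bad), F U := by
  rw [Finset.sum_comp F (fun T => T \ Bad), Finset.mul_sum]
  refine Finset.sum_le_sum fun U _ => ?_
  rw [nsmul_eq_mul]
  refine mul_le_mul_of_nonneg_right ?_ (hF U)
  have h1 : (W.filter fun T => T \ Bad = U).card ≤ Bad.powerset.card := by
    refine Finset.card_le_card_of_injOn (fun T => T ∩ Bad) ?_ ?_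
    · intro T _
      exact Finset.mem_coe.2 (Finset.mem_powerset.2 Finset.inter_subset_right)
    · intro T hT T' hT' h
      have e : T ∩ Bad = T' ∩ Bad := h
      have h1 := (Finset.mem_filter.1 (Finset.mem_coe.1 hT)).2
      have h2 := (Finset.mem_filter.1 (Finset.mem_coe.1 hT')).2
      rw [← Finset.sdiff_union_inter T Bad, ← Finset.sdiff_union_inter T' Bad, h1, h2, e]
  rw [Finset.card_powerset] at h1
  exact_mod_cast h1

open Classical in
/-- **the number of the points with few odd primes** -/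
theorem count_light (f : (𝓞 K)[X]) (hd : 1 ≤ f.natDegree) (Bad : Finset (Pr K))
    (hBad : ∀ v ∉ Bad, Good f v) {δ : ℝ} (hδ : 0 < δ) : ∃ C : ℝ, 0 < C ∧ ∀ H : ℝ, 0 ≤ H →
      ∀ τ : ℝ, τ ≤ 2 * H → ∀ S : Finset K, (∀ x ∈ S, hr (aff x) ≤ H ∧ aeval x f ≠ 0 ∧
        ∑ v ∈ od (aeval x f) \ Bad, Real.log (Nv v) ≤ τ) →
          (S.card : ℝ) ≤ C * Real.exp ((1 + δ) * H + τ / 2) := by
  obtain ⟨C1, hC1, h1⟩ := count_T f hd Bad hBad (half_pos hδ)
  obtain ⟨C2, hC2, h2⟩ := sumU K ((f.natDegree : ℝ) + 1)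
    (by have : (0 : ℝ) ≤ f.natDegree := Nat.cast_nonneg _; linarith) (half_pos hδ)
  refine ⟨2 * C1 * 2 ^ Bad.card * C2, by positivity, ?_⟩
  intro H hH τ hτ S hS
  obtain ⟨D, hD⟩ : ∃ D : ℝ, D = (f.natDegree : ℝ) + 1 := ⟨_, rfl⟩
  have hD0 : 0 < D := by
    rw [hD]
    positivity
  obtain ⟨W, hW⟩ : ∃ W : Finset (Finset (Pr K)), W = S.image fun x => od (aeval x f) := ⟨_, rfl⟩
  have hWm : ∀ T ∈ W, ∑ v ∈ T \ Bad, Real.log (Nv v) ≤ τ := by
    intro T hT
    rw [hW, Finset.mem_image] at hT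
    obtain ⟨x, hx, rfl⟩ := hT
    exact (hS x hx).2.2
  have hsum : (S.card : ℝ) = ∑ T ∈ W, ((S.filter fun x => od (aeval x f) = T).card : ℝ) := by
    have := Finset.card_eq_sum_card_fiberwise (s := S) (t := W) (f := fun x => od (aeval x f)) (by
      intro x hx
      rw [hW]
      exact Finset.mem_coe.2 (Finset.mem_image_of_mem _ (Finset.mem_coe.1 hx)))
    exact_mod_cast this
  have hterm : ∀ T ∈ W, ((S.filter fun x => od (aeval x f) = T).card : ℝ) ≤
      2 * C1 * Real.exp ((1 + δ / 2) * H + τ / 2) * ∏ v ∈ T \ Bad, (D / Nv v) := by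
    intro T hT
    have h3 := h1 H hH (S.filter fun x => od (aeval x f) = T)
      (fun x hx => ⟨(hS x (Finset.mem_filter.1 hx).1).1, (hS x (Finset.mem_filter.1 hx).1).2.1⟩) T
      (fun x hx => (Finset.mem_filter.1 hx).2)
    refine h3.trans ?_
    obtain ⟨U, hU⟩ : ∃ U : Finset (Pr K), U = T \ Bad := ⟨_, rfl⟩
    have hg := hWm T hT
    rw [← hU] at hg ⊢
    obtain ⟨g, hg'⟩ : ∃ g : ℝ, g = ∑ v ∈ U, Real.log (Nv v) := ⟨_, rfl⟩
    rw [← hg'] at hg ⊢
    have h4 : (1 : ℝ) ≤ Real.exp (δ / 2 * H + (2 * H - g) / 2) := by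
      refine Real.one_le_exp ?_
      have : 0 ≤ δ / 2 * H := by positivity
      linarith
    have h5 : ∏ v ∈ U, (D / Nv v) = D ^ U.card / Real.exp g := by
      rw [hg', exp_sum_log, Finset.prod_div_distrib, Finset.prod_const]
    rw [h5, ← hD]
    have h6 : Real.exp (δ / 2 * H + (2 * H - g) / 2) ≤
        Real.exp ((1 + δ / 2) * H + τ / 2) / Real.exp g := by
      rw [← Real.exp_sub]
      refine Real.exp_le_exp.2 ?_
      linarith
    have hp : 0 < D ^ U.card := by positivity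
    calc C1 * D ^ U.card * (1 + Real.exp (δ / 2 * H + (2 * H - g) / 2)) ≤
        C1 * D ^ U.card * (2 * (Real.exp ((1 + δ / 2) * H + τ / 2) / Real.exp g)) := by
          refine mul_le_mul_of_nonneg_left ?_ (by positivity)
          linarith
      _ = _ := by ring
  rw [hsum]
  obtain ⟨E, hE⟩ : ∃ E : ℝ, E = Real.exp ((1 + δ / 2) * H + τ / 2) := ⟨_, rfl⟩
  have hE0 : 0 < E := by rw [hE]; exact Real.exp_pos _
  rw [← hE] at hterm
  have hfin := sum_forget Bad (fun U => ∏ v ∈ U, (D / Nv v))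
    (fun U => Finset.prod_nonneg fun v _ => by have := Nv_pos v; positivity) W
  have h7 := h2 H hH (W.image fun T => T \ Bad) (by
    intro U hU v hv
    obtain ⟨T, hT, rfl⟩ := Finset.mem_image.1 hU
    refine le_trans ?_ ((hWm T hT).trans hτ)
    exact Finset.single_le_sum (f := fun v => Real.log (Nv v))
      (fun w _ => (log_Nv_pos w).le) hv)
  rw [← hD] at h7
  calc ∑ T ∈ W, ((S.filter fun x => od (aeval x f) = T).card : ℝ)
      ≤ ∑ T ∈ W, 2 * C1 * E * ∏ v ∈ T \ Bad, (D / Nv v) := Finset.sum_le_sum hterm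
    _ = 2 * C1 * E * ∑ T ∈ W, ∏ v ∈ T \ Bad, (D / Nv v) := by rw [Finset.mul_sum]
    _ ≤ 2 * C1 * E * (2 ^ Bad.card * (C2 * Real.exp (δ / 2 * H))) := by
        refine mul_le_mul_of_nonneg_left (hfin.trans ?_) (by positivity)
        exact mul_le_mul_of_nonneg_left h7 (by positivity)
    _ = 2 * C1 * 2 ^ Bad.card * C2 * (E * Real.exp (δ / 2 * H)) := by ring
    _ = _ := by
        rw [hE, ← Real.exp_add]
        congr 2
        ring

end Pool.Agent.N753.LS
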