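import Mathlib
import Pool.Agent.N753.LS.Ht
import Pool.Agent.N753.LS.Total

/-!
# Pairs of points with many common odd primes
-/

set_option autoImplicit false

namespace Pool.Agent.N753.LS

open NumberField IsDedekindDomain Finset Pool.Agent.H691R3 Pool.Agent.TH876.Loc Polynomial Height

variable {K : Type} [Field K] [NumberField K]

open Classical in
theorem card_cls_le (v : Pr K) (S : Finset K) :
    ((S.image (cls v)).card : ℝ) ≤ Nv v / 1 + 1 * Real.sqrt (Nv v) := by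
  have h1 : ((S.image (cls v)).card : ℝ) ≤ Nv v + 1 := by
    have h2 := Finset.card_le_univ (S.image (cls v))
    rw [Fintype.card_option] at h2
    rw [← card_kk]
    exact_mod_cast h2
  have hs1 : 1 ≤ Real.sqrt (Nv v) := by
    rw [Real.one_le_sqrt]
    linarith [two_le_Nv v]
  linarith

open Classical in
/-- **points with given odd primes** -/
theorem count_sup (f : (𝓞 K)[X]) (hd : 1 ≤ f.natDegree) (Bad : Finset (Pr K))
    (hBad : ∀ v ∉ Bad, Good f v) {δ : ℝ} (hδ : 0 < δ) : ∃ C : ℝ, 0 < C ∧ ∀ H : ℝ, 0 ≤ H →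
      ∀ S : Finset K, (∀ x ∈ S, hr (aff x) ≤ H) → ∀ U : Finset (Pr K), (∀ v ∈ U, v ∉ Bad) →
        (∀ x ∈ S, ∀ v ∈ U, v ∈ od (aeval x f)) →
          (S.card : ℝ) ≤ C * ((f.natDegree : ℝ) + 1) ^ U.card *
            (1 + Real.exp (δ * H + (2 * H - ∑ v ∈ U, Real.log (Nv v)))) := by
  obtain ⟨C1, hC1, hls⟩ := ls_bound K (κ := 1) le_rfl zero_le_one (∅ : Finset (Pr K)) hδ
  refine ⟨C1 + 1, by positivity, ?_⟩
  intro H hH S hS U hUBad hSU
  obtain ⟨E, hE⟩ : ∃ E : ℝ, E = Real.exp (δ * H + (2 * H - ∑ v ∈ U, Real.log (Nv v))) :=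
    ⟨_, rfl⟩
  rw [← hE]
  have hE0 : 0 < E := by rw [hE]; exact Real.exp_pos _
  let key : K → ((v : U) → Option (kk v.1)) := fun x v => cls v.1 x
  obtain ⟨t, ht⟩ : ∃ t : Finset ((v : U) → Option (kk v.1)),
    t = (Fintype.piFinset fun v : U => RC f v.1) := ⟨_, rfl⟩
  have hmaps : ∀ x ∈ S, key x ∈ t := by
    intro x hx
    rw [ht, Fintype.mem_piFinset]
    intro v
    refine cls_mem_RC (hBad v.1 (hUBad v.1 v.2)) hd ?_
    rw [← mem_od]
    exact hSU x hx v.1 v.2
  have hcard : (t.card : ℝ) ≤ ((f.natDegree : ℝ) + 1) ^ U.card := by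
    rw [ht, Fintype.card_piFinset]
    push_cast
    calc ∏ v : U, ((RC f v.1).card : ℝ) ≤ ∏ _v : U, ((f.natDegree : ℝ) + 1) := by
          refine Finset.prod_le_prod (fun _ _ => Nat.cast_nonneg _) fun v _ => ?_
          exact_mod_cast card_RC f v.1
      _ = _ := by
          rw [Finset.prod_const, Finset.card_univ, Fintype.card_coe]
  have hfib : ∀ b ∈ t, ((S.filter fun x => key x = b).card : ℝ) ≤ 1 + C1 * E := by
    intro b _
    obtain ⟨S', hS'⟩ : ∃ S', S' = S.filter fun x => key x = b := ⟨_, rfl⟩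
    rw [← hS']
    have hm : ∀ x ∈ S', x ∈ S ∧ key x = b := fun x hx => by
      rw [hS'] at hx
      exact Finset.mem_filter.1 hx
    have h1 := hls H hH S' (fun x hx => hS x (hm x hx).1) U (by
      intro v hv x hx y hy
      exact congrFun ((hm x hx).2.trans (hm y hy).2.symm) ⟨v, hv⟩) (fun v _ _ => card_cls_le v S')
    rw [div_one, ← hE] at h1
    exact h1
  have hsum : (S.card : ℝ) = ∑ b ∈ t, ((S.filter fun x => key x = b).card : ℝ) := by
    have := Finset.card_eq_sum_card_fiberwise hmaps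
    exact_mod_cast this
  rw [hsum]
  have hp : (0 : ℝ) < ((f.natDegree : ℝ) + 1) ^ U.card := by positivity
  calc ∑ b ∈ t, ((S.filter fun x => key x = b).card : ℝ) ≤ ∑ _b ∈ t, (1 + C1 * E) :=
        Finset.sum_le_sum hfib
    _ = t.card * (1 + C1 * E) := by rw [Finset.sum_const, nsmul_eq_mul]
    _ ≤ (((f.natDegree : ℝ) + 1) ^ U.card) * ((C1 + 1) * (1 + E)) := by
        refine mul_le_mul hcard ?_ (by positivity) (by positivity)
        nlinarith
    _ = _ := by ring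

open Classical in
/-- the number of all points -/
theorem count_all (K : Type) [Field K] [NumberField K] {δ : ℝ} (hδ : 0 < δ) :
    ∃ C : ℝ, 0 < C ∧ ∀ H : ℝ, 0 ≤ H → ∀ S : Finset K, (∀ x ∈ S, hr (aff x) ≤ H) →
      (S.card : ℝ) ≤ C * Real.exp ((2 + δ) * H) := by
  obtain ⟨C1, hC1, hls⟩ := ls_bound K (κ := 1) le_rfl zero_le_one (∅ : Finset (Pr K)) hδ
  refine ⟨C1 + 1, by positivity, ?_⟩
  intro H hH S hS
  have h1 := hls H hH S hS ∅ (fun v hv => absurd hv (Finset.notMem_empty v))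
    (fun v _ _ => card_cls_le v S)
  rw [Finset.sum_empty, div_one, sub_zero] at h1
  have h2 : (1 : ℝ) ≤ Real.exp (δ * H + 2 * H) := Real.one_le_exp (by positivity)
  have h3 : Real.exp ((2 + δ) * H) = Real.exp (δ * H + 2 * H) := by
    congr 1
    ring
  rw [h3]
  linarith

/-- a subset of intermediate size -/
theorem exists_subset {α : Type*} [DecidableEq α] (W : Finset α) (l : α → ℝ) (hl : ∀ v, 0 < l v)
    {s t : ℝ} (hs : 0 ≤ s) (hst : 2 * s ≤ t) (hlt : ∀ v ∈ W, l v ≤ t) (hW : s ≤ ∑ v ∈ W, l v) :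
    ∃ G ⊆ W, s ≤ ∑ v ∈ G, l v ∧ ∑ v ∈ G, l v ≤ t := by
  -- a subset of minimal cardinality
  have hex : ∃ n : ℕ, ∃ G ⊆ W, G.card = n ∧ s ≤ ∑ v ∈ G, l v := ⟨W.card, W, subset_rfl, rfl, hW⟩
  obtain ⟨G, hGW, hGc, hGs⟩ := Nat.find_spec hex
  have hmin := fun n => Nat.find_min' hex (m := n)
  rw [← hGc] at hmin
  refine ⟨G, hGW, hGs, ?_⟩
  have herase : ∀ v ∈ G, ∑ w ∈ G.erase v, l w < s := by
    intro v hv
    by_contra hcon
    rw [not_lt] at hcon
    have h1 := hmin (G.erase v).card ⟨G.erase v, (Finset.erase_subset v G).trans hGW, rfl, hcon⟩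
    rw [Finset.card_erase_of_mem hv] at h1
    have h2 : 0 < G.card := Finset.card_pos.2 ⟨v, hv⟩
    omega
  rcases G.eq_empty_or_nonempty with h0 | ⟨v, hv⟩
  · rw [h0, Finset.sum_empty]
    linarith
  have h1 := herase v hv
  have h2 := Finset.add_sum_erase G l hv
  rcases (G.erase v).eq_empty_or_nonempty with h0 | ⟨w, hw⟩
  · rw [h0, Finset.sum_empty] at h2
    have := hlt v (hGW hv)
    linarith
  · obtain ⟨hwv, hwG⟩ := Finset.mem_erase.1 hw
    have h3 := herase w hwG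
    have h4 := Finset.single_le_sum (f := l) (fun i _ => (hl i).le)
      (Finset.mem_erase.2 ⟨Ne.symm hwv, hv⟩)
    linarith

end Pool.Agent.N753.LS
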