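import Mathlib
import Pool.Agent.N753.LS.Over

/-!
# Pairs of points with many common odd primes
-/

set_option autoImplicit false

namespace Pool.Agent.N753.LS

open NumberField IsDedekindDomain Finset Pool.Agent.H691R3 Pool.Agent.TH876.Loc Polynomial Height

variable {K : Type} [Field K] [NumberField K]

/-- there are primes -/
theorem nonempty_pr (K : Type) [Field K] [NumberField K] : Nonempty (Pr K) := by
  by_contra hcon
  rw [not_nonempty_iff] at hcon
  obtain ⟨C, hC, h⟩ := mertens_lower K (η := 1 / 2) (by norm_num)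
  have h1 := h (Real.exp (2 * C + 2)) (Real.one_le_exp (by positivity))
  rw [Real.log_exp, Finset.sum_eq_zero (fun v _ => (hcon.false v).elim)] at h1
  linarith

open Classical in
theorem card_fib_pairs (P : Finset (K × K)) :
    (P.card : ℝ) ≤ ((P.image Prod.fst).card : ℝ) * ((P.image Prod.snd).card : ℝ) := by
  have h1 : P ⊆ (P.image Prod.fst) ×ˢ (P.image Prod.snd) := by
    intro p hp
    rw [Finset.mem_product]
    exact ⟨Finset.mem_image_of_mem _ hp, Finset.mem_image_of_mem _ hp⟩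
  have h2 := Finset.card_le_card h1
  rw [Finset.card_product] at h2
  exact_mod_cast h2

open Classical in
/-- **pairs of points with many common odd primes** -/
theorem count_overlap (f g : (𝓞 K)[X]) (hdf : 1 ≤ f.natDegree) (hdg : 1 ≤ g.natDegree)
    (Bad : Finset (Pr K)) (hf : ∀ v ∉ Bad, Good f v) (hg : ∀ v ∉ Bad, Good g v) {a : ℝ}
    (ha0 : 0 < a) (ha1 : a ≤ 2) {δ : ℝ} (hδ : 0 < δ) : ∃ C : ℝ, 0 < C ∧ ∀ H : ℝ, 0 ≤ H →
      ∀ P : Finset (K × K), (∀ p ∈ P, hr (aff p.1) ≤ H ∧ hr (aff p.2) ≤ H ∧ aeval p.1 f ≠ 0 ∧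
        a * H ≤ ∑ v ∈ (od (aeval p.1 f) ∩ od (aeval p.2 g)) \ Bad, Real.log (Nv v)) →
          (P.card : ℝ) ≤ C * Real.exp ((4 + δ - a / 2) * H) := by
  have hδ3 : 0 < δ / 3 := by positivity
  obtain ⟨C1, hC1, h1⟩ := count_sup f hdf Bad hf hδ3
  obtain ⟨C2, hC2, h2⟩ := count_sup g hdg Bad hg hδ3
  obtain ⟨D1, hD1⟩ : ∃ D : ℝ, D = (f.natDegree : ℝ) + 1 := ⟨_, rfl⟩
  obtain ⟨D2, hD2⟩ : ∃ D : ℝ, D = (g.natDegree : ℝ) + 1 := ⟨_, rfl⟩
  have hD1' : 1 ≤ D1 := by
    rw [hD1]
    have : (0 : ℝ) ≤ f.natDegree := Nat.cast_nonneg _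
    linarith
  have hD2' : 1 ≤ D2 := by
    rw [hD2]
    have : (0 : ℝ) ≤ g.natDegree := Nat.cast_nonneg _
    linarith
  obtain ⟨C3, hC3, h3⟩ := sumU K (D1 * D2) (by nlinarith) hδ3
  obtain ⟨C4, hC4, h4⟩ := card_od f
  obtain ⟨C5, hC5, h5⟩ := count_all K hδ3
  obtain ⟨C6, hC6, h6⟩ := pow_le_exp 1 hδ3
  refine ⟨4 * C1 * C2 * C3 + C5 * C4 * C6 * (2 * C2 * D2) + 1, by positivity, ?_⟩
  intro H hH P hP
  rw [← hD1] at h1
  rw [← hD2] at h2
  obtain ⟨W, hW⟩ : ∃ W : K × K → Finset (Pr K),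
    W = fun p => (od (aeval p.1 f) ∩ od (aeval p.2 g)) \ Bad := ⟨_, rfl⟩
  have hWm : ∀ p v, v ∈ W p → v ∈ od (aeval p.1 f) ∧ v ∈ od (aeval p.2 g) ∧ v ∉ Bad := by
    intro p v hv
    rw [hW, Finset.mem_sdiff, Finset.mem_inter] at hv
    exact ⟨hv.1.1, hv.1.2, hv.2⟩
  obtain ⟨P2, hP2⟩ : ∃ P2, P2 = P.filter fun p => ∃ v ∈ W p, 2 * H < Real.log (Nv v) := ⟨_, rfl⟩
  obtain ⟨P1, hP1⟩ : ∃ P1, P1 = P.filter fun p => ¬ ∃ v ∈ W p, 2 * H < Real.log (Nv v) := ⟨_, rfl⟩
  have hcard : (P.card : ℝ) = P1.card + P2.card := by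
    rw [hP1, hP2, add_comm]
    exact_mod_cast (Finset.card_filter_add_card_filter_not _).symm
  -- the first part
  have hA : (P1.card : ℝ) ≤ 4 * C1 * C2 * C3 * Real.exp ((4 + δ - a / 2) * H) := by
    have hG : ∀ p ∈ P1, ∃ G ⊆ W p, a * H / 2 ≤ ∑ v ∈ G, Real.log (Nv v) ∧
        ∑ v ∈ G, Real.log (Nv v) ≤ 2 * H := by
      intro p hp
      rw [hP1, Finset.mem_filter] at hp
      obtain ⟨hp, hp2⟩ := hp
      push Not at hp2
      refine exists_subset (W p) (fun v => Real.log (Nv v)) log_Nv_pos (by positivity) ?_ hp2 ?_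
      · nlinarith
      · have h7 := (hP p hp).2.2.2
        have h8 : 0 ≤ a * H := by positivity
        rw [hW]
        beta_reduce
        linarith
    choose! G hGW hG1 hG2 using hG
    obtain ⟨V, hV⟩ : ∃ V, V = P1.image G := ⟨_, rfl⟩
    have hVm : ∀ U ∈ V, (∀ v ∈ U, v ∉ Bad) ∧ a * H / 2 ≤ ∑ v ∈ U, Real.log (Nv v) ∧
        ∑ v ∈ U, Real.log (Nv v) ≤ 2 * H := by
      intro U hU
      rw [hV, Finset.mem_image] at hU
      obtain ⟨p, hp, rfl⟩ := hU
      exact ⟨fun v hv => (hWm p v (hGW p hp hv)).2.2, hG1 p hp, hG2 p hp⟩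
    have hsum : (P1.card : ℝ) = ∑ U ∈ V, ((P1.filter fun p => G p = U).card : ℝ) := by
      have := Finset.card_eq_sum_card_fiberwise (s := P1) (t := V) (f := G) (by
        intro p hp
        rw [hV]
        exact Finset.mem_coe.2 (Finset.mem_image_of_mem _ (Finset.mem_coe.1 hp)))
      exact_mod_cast this
    have hterm : ∀ U ∈ V, ((P1.filter fun p => G p = U).card : ℝ) ≤
        4 * C1 * C2 * Real.exp ((4 + 2 * (δ / 3) - a / 2) * H) * ∏ v ∈ U, (D1 * D2 / Nv v) := by
      intro U hU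
      obtain ⟨hUB, hU1, hU2⟩ := hVm U hU
      obtain ⟨gU, hgU⟩ : ∃ gU : ℝ, gU = ∑ v ∈ U, Real.log (Nv v) := ⟨_, rfl⟩
      obtain ⟨P', hP'⟩ : ∃ P', P' = P1.filter fun p => G p = U := ⟨_, rfl⟩
      rw [← hP']
      have hm : ∀ p ∈ P', p ∈ P ∧ U ⊆ W p := by
        intro p hp
        rw [hP', Finset.mem_filter] at hp
        refine ⟨?_, ?_⟩
        · rw [hP1] at hp
          exact (Finset.mem_filter.1 hp.1).1
        · rw [← hp.2]
          exact hGW p hp.1
      have e1 := h1 H hH (P'.image Prod.fst) (by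
        intro x hx
        obtain ⟨p, hp, rfl⟩ := Finset.mem_image.1 hx
        exact (hP p (hm p hp).1).1) U hUB (by
        intro x hx v hv
        obtain ⟨p, hp, rfl⟩ := Finset.mem_image.1 hx
        exact (hWm p v ((hm p hp).2 hv)).1)
      have e2 := h2 H hH (P'.image Prod.snd) (by
        intro x hx
        obtain ⟨p, hp, rfl⟩ := Finset.mem_image.1 hx
        exact (hP p (hm p hp).1).2.1) U hUB (by
        intro x hx v hv
        obtain ⟨p, hp, rfl⟩ := Finset.mem_image.1 hx
        exact (hWm p v ((hm p hp).2 hv)).2.1)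
      rw [← hgU] at e1 e2 hU1 hU2
      obtain ⟨E, hE⟩ : ∃ E : ℝ, E = Real.exp (δ / 3 * H + (2 * H - gU)) := ⟨_, rfl⟩
      rw [← hE] at e1 e2
      have hE1 : 1 ≤ E := by
        rw [hE]
        refine Real.one_le_exp ?_
        have : 0 ≤ δ / 3 * H := by positivity
        linarith
      have hprod : ∏ v ∈ U, (D1 * D2 / Nv v) = D1 ^ U.card * D2 ^ U.card / Real.exp gU := by
        rw [hgU, exp_sum_log, Finset.prod_div_distrib, Finset.prod_const, mul_pow]
      have hEE : E * E ≤ Real.exp ((4 + 2 * (δ / 3) - a / 2) * H) / Real.exp gU := by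
        rw [hE, ← Real.exp_add, ← Real.exp_sub]
        refine Real.exp_le_exp.2 ?_
        linarith
      calc (P'.card : ℝ) ≤ ((P'.image Prod.fst).card : ℝ) * ((P'.image Prod.snd).card : ℝ) :=
            card_fib_pairs P'
        _ ≤ (C1 * D1 ^ U.card * (1 + E)) * (C2 * D2 ^ U.card * (1 + E)) :=
            mul_le_mul e1 e2 (Nat.cast_nonneg _) (by positivity)
        _ ≤ (C1 * D1 ^ U.card * (2 * E)) * (C2 * D2 ^ U.card * (2 * E)) := by
            refine mul_le_mul (mul_le_mul_of_nonneg_left (by linarith) (by positivity))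
              (mul_le_mul_of_nonneg_left (by linarith) (by positivity)) (by positivity)
              (by positivity)
        _ = 4 * C1 * C2 * (D1 ^ U.card * D2 ^ U.card) * (E * E) := by ring
        _ ≤ 4 * C1 * C2 * (D1 ^ U.card * D2 ^ U.card) *
            (Real.exp ((4 + 2 * (δ / 3) - a / 2) * H) / Real.exp gU) :=
            mul_le_mul_of_nonneg_left hEE (by positivity)
        _ = _ := by
            rw [hprod]
            ring
    have hsumU := h3 H hH V (by
      intro U hU v hv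
      refine le_trans ?_ (hVm U hU).2.2
      exact Finset.single_le_sum (f := fun v => Real.log (Nv v))
        (fun w _ => (log_Nv_pos w).le) hv)
    rw [hsum]
    calc ∑ U ∈ V, ((P1.filter fun p => G p = U).card : ℝ) ≤
          ∑ U ∈ V, 4 * C1 * C2 * Real.exp ((4 + 2 * (δ / 3) - a / 2) * H) *
            ∏ v ∈ U, (D1 * D2 / Nv v) := Finset.sum_le_sum hterm
      _ = 4 * C1 * C2 * Real.exp ((4 + 2 * (δ / 3) - a / 2) * H) *
            ∑ U ∈ V, ∏ v ∈ U, (D1 * D2 / Nv v) := by rw [Finset.mul_sum]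
      _ ≤ 4 * C1 * C2 * Real.exp ((4 + 2 * (δ / 3) - a / 2) * H) *
            (C3 * Real.exp (δ / 3 * H)) := mul_le_mul_of_nonneg_left hsumU (by positivity)
      _ = 4 * C1 * C2 * C3 * (Real.exp ((4 + 2 * (δ / 3) - a / 2) * H) *
            Real.exp (δ / 3 * H)) := by ring
      _ = _ := by
          rw [← Real.exp_add]
          congr 2
          ring
  -- the second part
  have hB : (P2.card : ℝ) ≤ C5 * C4 * C6 * (2 * C2 * D2) * Real.exp ((4 + δ - a / 2) * H) := by
    have hv : ∀ p : K × K, ∃ v : Pr K, p ∈ P2 → v ∈ W p ∧ 2 * H < Real.log (Nv v) := by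
      intro p
      by_cases hp : p ∈ P2
      · rw [hP2, Finset.mem_filter] at hp
        obtain ⟨-, v, hv⟩ := hp
        exact ⟨v, fun _ => hv⟩
      · exact ⟨Classical.choice (nonempty_pr K), fun h => absurd h hp⟩
    choose vv hvv using hv
    have hvW : ∀ p ∈ P2, vv p ∈ W p := fun p hp => (hvv p hp).1
    have hvH : ∀ p ∈ P2, 2 * H < Real.log (Nv (vv p)) := fun p hp => (hvv p hp).2
    have hm : ∀ p ∈ P2, p ∈ P := fun p hp => by
      rw [hP2] at hp
      exact (Finset.mem_filter.1 hp).1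
    obtain ⟨t, ht⟩ : ∃ t : Finset (K × Pr K), t = P2.image (fun p => (p.1, vv p)) := ⟨_, rfl⟩
    obtain ⟨X, hX⟩ : ∃ X : Finset K, X = P2.image Prod.fst := ⟨_, rfl⟩
    have hXc : (X.card : ℝ) ≤ C5 * Real.exp ((2 + δ / 3) * H) := by
      refine h5 H hH X fun x hx => ?_
      rw [hX] at hx
      obtain ⟨p, hp, rfl⟩ := Finset.mem_image.1 hx
      exact (hP p (hm p hp)).1
    have htc : (t.card : ℝ) ≤ X.card * (C4 * (1 + H)) := by
      have h7 : t ⊆ X.biUnion fun x => (od (aeval x f)).image fun v => (x, v) := by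
        intro q hq
        rw [ht] at hq
        obtain ⟨p, hp, rfl⟩ := Finset.mem_image.1 hq
        rw [Finset.mem_biUnion]
        refine ⟨p.1, ?_, ?_⟩
        · rw [hX]
          exact Finset.mem_image_of_mem _ hp
        · exact Finset.mem_image.2 ⟨vv p, (hWm p _ (hvW p hp)).1, rfl⟩
      have h8 := (Finset.card_le_card h7).trans Finset.card_biUnion_le
      have h9 : ∀ x ∈ X, (((od (aeval x f)).image fun v => (x, v)).card : ℝ) ≤ C4 * (1 + H) := by
        intro x hx
        rw [hX] at hx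
        obtain ⟨p, hp, rfl⟩ := Finset.mem_image.1 hx
        obtain ⟨q1, q2, q3, q4⟩ := hP p (hm p hp)
        have h10 := h4 p.1 q3
        rw [hr_aff] at q1
        have h11 : (((od (aeval p.1 f)).image fun v => (p.1, v)).card : ℝ) ≤
            (od (aeval p.1 f)).card := by exact_mod_cast Finset.card_image_le
        have h12 : C4 * (1 + logHeight₁ p.1) ≤ C4 * (1 + H) :=
          mul_le_mul_of_nonneg_left (by linarith) hC4
        linarith
      calc (t.card : ℝ) ≤ ∑ x ∈ X, (((od (aeval x f)).image fun v => (x, v)).card : ℝ) := by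
            exact_mod_cast h8
        _ ≤ ∑ _x ∈ X, C4 * (1 + H) := Finset.sum_le_sum h9
        _ = _ := by rw [Finset.sum_const, nsmul_eq_mul]
    have hfib : ∀ b ∈ t, ((P2.filter fun p => (p.1, vv p) = b).card : ℝ) ≤
        2 * C2 * D2 * Real.exp (δ / 3 * H) := by
      intro b _
      obtain ⟨P', hP'⟩ : ∃ P', P' = P2.filter fun p => (p.1, vv p) = b := ⟨_, rfl⟩
      rw [← hP']
      rcases P'.eq_empty_or_nonempty with h0 | ⟨p0, hp0⟩
      · rw [h0, Finset.card_empty, Nat.cast_zero]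
        positivity
      have hm' : ∀ p ∈ P', p ∈ P2 ∧ p.1 = b.1 ∧ vv p = b.2 := by
        intro p hp
        rw [hP', Finset.mem_filter] at hp
        exact ⟨hp.1, congrArg Prod.fst hp.2, congrArg Prod.snd hp.2⟩
      have hinj : P'.card = (P'.image Prod.snd).card := by
        rw [Finset.card_image_of_injOn]
        intro p hp q hq hpq
        exact Prod.ext ((hm' p hp).2.1.trans (hm' q hq).2.1.symm) hpq
      have hbB : b.2 ∉ Bad := by
        rw [← (hm' p0 hp0).2.2]
        exact (hWm p0 _ (hvW p0 (hm' p0 hp0).1)).2.2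
      have hbH : 2 * H < Real.log (Nv b.2) := by
        rw [← (hm' p0 hp0).2.2]
        exact hvH p0 (hm' p0 hp0).1
      have e2 := h2 H hH (P'.image Prod.snd) (by
        intro x hx
        obtain ⟨p, hp, rfl⟩ := Finset.mem_image.1 hx
        exact (hP p (hm p (hm' p hp).1)).2.1) {b.2} (by
        intro v hv
        rw [Finset.mem_singleton.1 hv]
        exact hbB) (by
        intro x hx v hv
        obtain ⟨p, hp, rfl⟩ := Finset.mem_image.1 hx
        rw [Finset.mem_singleton.1 hv, ← (hm' p hp).2.2]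
        exact (hWm p _ (hvW p (hm' p hp).1)).2.1)
      rw [Finset.sum_singleton, Finset.card_singleton, pow_one] at e2
      rw [hinj]
      refine e2.trans ?_
      have h7 : Real.exp (δ / 3 * H + (2 * H - Real.log (Nv b.2))) ≤ Real.exp (δ / 3 * H) :=
        Real.exp_le_exp.2 (by linarith)
      have h8 : (1 : ℝ) ≤ Real.exp (δ / 3 * H) := Real.one_le_exp (by positivity)
      calc C2 * D2 * (1 + Real.exp (δ / 3 * H + (2 * H - Real.log (Nv b.2)))) ≤
            C2 * D2 * (2 * Real.exp (δ / 3 * H)) :=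
            mul_le_mul_of_nonneg_left (by linarith) (by positivity)
        _ = _ := by ring
    have hsum : (P2.card : ℝ) = ∑ b ∈ t, ((P2.filter fun p => (p.1, vv p) = b).card : ℝ) := by
      have := Finset.card_eq_sum_card_fiberwise (s := P2) (t := t) (f := fun p => (p.1, vv p)) (by
        intro p hp
        rw [ht]
        exact Finset.mem_coe.2 (Finset.mem_image_of_mem _ (Finset.mem_coe.1 hp)))
      exact_mod_cast this
    have h66 : (1 + H) ≤ C6 * Real.exp (δ / 3 * H) := by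
      have := h6 H hH
      rw [pow_one] at this
      linarith
    rw [hsum]
    calc ∑ b ∈ t, ((P2.filter fun p => (p.1, vv p) = b).card : ℝ) ≤
          ∑ _b ∈ t, 2 * C2 * D2 * Real.exp (δ / 3 * H) := Finset.sum_le_sum hfib
      _ = t.card * (2 * C2 * D2 * Real.exp (δ / 3 * H)) := by
          rw [Finset.sum_const, nsmul_eq_mul]
      _ ≤ ((C5 * Real.exp ((2 + δ / 3) * H)) * (C4 * (C6 * Real.exp (δ / 3 * H)))) *
          (2 * C2 * D2 * Real.exp (δ / 3 * H)) := by
          refine mul_le_mul_of_nonneg_right ?_ (by positivity)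
          refine htc.trans (mul_le_mul hXc (mul_le_mul_of_nonneg_left h66 hC4)
            (by positivity) (by positivity))
      _ = C5 * C4 * C6 * (2 * C2 * D2) * (Real.exp ((2 + δ / 3) * H) * Real.exp (δ / 3 * H) *
          Real.exp (δ / 3 * H)) := by ring
      _ ≤ _ := by
          refine mul_le_mul_of_nonneg_left ?_ (by positivity)
          rw [← Real.exp_add, ← Real.exp_add]
          refine Real.exp_le_exp.2 ?_
          nlinarith
  rw [hcard]
  have hE0 : 0 ≤ Real.exp ((4 + δ - a / 2) * H) := (Real.exp_pos _).le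
  nlinarith

end Pool.Agent.N753.LS
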