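import Mathlib
import Pool.Agent.N753.LS.Over2

/-!
# The exceptional tuples of one tuple of polynomials
-/

set_option autoImplicit false
set_option linter.unusedSectionVars false

namespace Pool.Agent.N753.LS

open NumberField IsDedekindDomain Finset Pool.Agent.H691R3 Pool.Agent.TH876.Loc Polynomial Height

section Box

variable {α : Type} [DecidableEq α] {m : ℕ}

theorem proj_one (i : Fin m) (B S : Finset α) (Z : Finset (Fin m → α))
    (hZ : ∀ x ∈ Z, (∀ k, x k ∈ B) ∧ x i ∈ S) : Z.card ≤ S.card * B.card ^ (m - 1) := by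
  classical
  have h1 : Z ⊆ Fintype.piFinset (Function.update (fun _ => B) i S) := by
    intro x hx
    rw [Fintype.mem_piFinset]
    intro k
    by_cases hk : k = i
    · subst hk
      rw [Function.update_self]
      exact (hZ x hx).2
    · rw [Function.update_of_ne hk]
      exact (hZ x hx).1 k
  refine (Finset.card_le_card h1).trans (le_of_eq ?_)
  rw [Fintype.card_piFinset]
  have h2 : (fun k => (Function.update (fun _ : Fin m => B) i S k).card) =
      Function.update (fun _ => B.card) i S.card := by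
    funext k
    by_cases hk : k = i
    · subst hk
      rw [Function.update_self, Function.update_self]
    · rw [Function.update_of_ne hk, Function.update_of_ne hk]
  rw [h2, Finset.prod_update_of_mem (Finset.mem_univ i), Finset.prod_const,
    Finset.card_sdiff_of_subset (Finset.subset_univ _), Finset.card_univ, Fintype.card_fin,
    Finset.card_singleton]

theorem proj_two {i j : Fin m} (hij : i ≠ j) (B : Finset α) (P : Finset (α × α))
    (Z : Finset (Fin m → α)) (hZ : ∀ x ∈ Z, (∀ k, x k ∈ B) ∧ (x i, x j) ∈ P) :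
    Z.card ≤ P.card * B.card ^ (m - 2) := by
  classical
  have h1 : Z ⊆ P.biUnion fun p => Fintype.piFinset
      (Function.update (Function.update (fun _ => B) i {p.1}) j {p.2}) := by
    intro x hx
    rw [Finset.mem_biUnion]
    refine ⟨(x i, x j), (hZ x hx).2, ?_⟩
    rw [Fintype.mem_piFinset]
    intro k
    by_cases hk : k = j
    · subst hk
      rw [Function.update_self]
      exact Finset.mem_singleton_self _
    · rw [Function.update_of_ne hk]
      by_cases hk' : k = i
      · subst hk'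
        rw [Function.update_self]
        exact Finset.mem_singleton_self _
      · rw [Function.update_of_ne hk']
        exact (hZ x hx).1 k
  refine (Finset.card_le_card h1).trans (Finset.card_biUnion_le.trans ?_)
  rw [← smul_eq_mul, ← Finset.sum_const]
  refine Finset.sum_le_sum fun p _ => le_of_eq ?_
  rw [Fintype.card_piFinset]
  have h2 : (fun k => (Function.update (Function.update (fun _ : Fin m => B) i {p.1}) j
      {p.2} k).card) = Function.update (Function.update (fun _ => B.card) i 1) j 1 := by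
    funext k
    by_cases hk : k = j
    · subst hk
      rw [Function.update_self, Function.update_self, Finset.card_singleton]
    · rw [Function.update_of_ne hk, Function.update_of_ne hk]
      by_cases hk' : k = i
      · subst hk'
        rw [Function.update_self, Function.update_self, Finset.card_singleton]
      · rw [Function.update_of_ne hk', Function.update_of_ne hk']
  rw [h2, Finset.prod_update_of_mem (Finset.mem_univ j), one_mul,
    Finset.prod_update_of_mem (by simp [hij]), one_mul, Finset.prod_const]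
  congr 1
  have h3 : ((Finset.univ : Finset (Fin m)) \ {j}) \ {i} = Finset.univ \ {i, j} := by
    ext k
    simp only [Finset.mem_sdiff, Finset.mem_univ, true_and, Finset.mem_singleton,
      Finset.mem_insert, not_or]
    tauto
  rw [h3, Finset.card_sdiff_of_subset (Finset.subset_univ _), Finset.card_univ, Fintype.card_fin,
    Finset.card_pair hij]

end Box

variable {K : Type} [Field K] [NumberField K] {m : ℕ}

/-- the largest height of the entries of a tuple -/
noncomputable def htm (x : Fin m → K) : ℝ := ⨆ i, logHeight₁ (x i)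

theorem le_htm (x : Fin m → K) (i : Fin m) : logHeight₁ (x i) ≤ htm x :=
  le_ciSup (f := fun i => logHeight₁ (x i)) (Set.finite_range _).bddAbove i

theorem htm_le (hm : 0 < m) {x : Fin m → K} {H : ℝ} (h : ∀ i, logHeight₁ (x i) ≤ H) : htm x ≤ H :=
  letI : Nonempty (Fin m) := ⟨⟨0, hm⟩⟩
  ciSup_le h

theorem box_fin (H : ℝ) : {x : Fin m → K | htm x ≤ H}.Finite := by
  refine (Set.Finite.pi (t := fun _ : Fin m => {y : K | logHeight₁ y ≤ H})
    fun _ => NumberField.finite_setOfPred_logHeight₁_le K H).subset ?_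
  intro x hx i _
  exact (le_htm x i).trans hx

variable (K) in
/-- the points of height at most `H` -/
noncomputable def bx (H : ℝ) : Finset K :=
  (NumberField.finite_setOfPred_logHeight₁_le (K := K) H).toFinset

theorem mem_bx {H : ℝ} {x : K} : x ∈ bx K H ↔ logHeight₁ x ≤ H := by
  rw [bx, Set.Finite.mem_toFinset]
  rfl

/-- polynomials without multiple roots -/
def Nice (f : (𝓞 K)[X]) : Prop :=
  1 ≤ f.natDegree ∧ Squarefree (f.map (algebraMap (𝓞 K) K))

/-- the points at which `f` has few odd primes -/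
def Lt (ε : ℝ) (f : (𝓞 K)[X]) : Set K :=
  {y | aeval y f = 0 ∨ ∑ v ∈ od (aeval y f), Real.log (Nv v) < (2 - ε) * logHeight₁ y}

open Classical in
/-- **the number of the points with few odd primes** -/
theorem count_Lt {f : (𝓞 K)[X]} (hf : Nice f) {ε δ : ℝ} (hε0 : 0 < ε) (hε1 : ε ≤ 1)
    (hδ : 0 < δ) : ∃ C : ℝ, ∀ H : ℝ, 0 ≤ H → ((Lt ε f ∩ {y | logHeight₁ y ≤ H}).ncard : ℝ) ≤
      C * Real.exp ((2 - ε / 2 + δ) * H) := by
  obtain ⟨Bad, hBad⟩ := exists_bad f hf.2 hf.1
  obtain ⟨C1, hC1, h1⟩ := count_light f hf.1 Bad hBad hδ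
  refine ⟨f.natDegree + C1, fun H hH => ?_⟩
  obtain ⟨S, hS⟩ : ∃ S : Finset K, S = (bx K H).filter fun y => aeval y f ≠ 0 ∧
    ∑ v ∈ od (aeval y f), Real.log (Nv v) < (2 - ε) * logHeight₁ y := ⟨_, rfl⟩
  have hSc := h1 H hH ((2 - ε) * H) (by nlinarith) S (by
    intro y hy
    rw [hS, Finset.mem_filter, mem_bx] at hy
    obtain ⟨hyH, hy0, hy1⟩ := hy
    refine ⟨by rw [hr_aff]; exact hyH, hy0, ?_⟩
    have h2 : ∑ v ∈ od (aeval y f) \ Bad, Real.log (Nv v) ≤
        ∑ v ∈ od (aeval y f), Real.log (Nv v) :=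
      Finset.sum_le_sum_of_subset_of_nonneg Finset.sdiff_subset fun v _ _ => (log_Nv_pos v).le
    refine h2.trans (hy1.le.trans ?_)
    exact mul_le_mul_of_nonneg_left hyH (by linarith))
  have hF0 : f ≠ 0 := by
    intro h
    have := hf.1
    rw [h, natDegree_zero] at this
    omega
  have hmap0 : f.map (algebraMap (𝓞 K) K) ≠ 0 := by
    rwa [Ne, Polynomial.map_eq_zero_iff (FaithfulSMul.algebraMap_injective (𝓞 K) K)]
  obtain ⟨R, hR⟩ : ∃ R : Finset K, R = (f.map (algebraMap (𝓞 K) K)).roots.toFinset := ⟨_, rfl⟩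
  have hRc : R.card ≤ f.natDegree := by
    rw [hR]
    exact (Multiset.toFinset_card_le _).trans ((card_roots' _).trans natDegree_map_le)
  have hsub : Lt ε f ∩ {y | logHeight₁ y ≤ H} ⊆ ((R ∪ S : Finset K) : Set K) := by
    rintro y ⟨hy, hyH⟩
    rw [Finset.mem_coe, Finset.mem_union]
    by_cases h0 : aeval y f = 0
    · left
      rw [hR, Multiset.mem_toFinset, mem_roots hmap0, IsRoot.def, eval_map_algebraMap]
      exact h0
    · right
      rw [hS, Finset.mem_filter, mem_bx]
      exact ⟨hyH, h0, hy.resolve_left h0⟩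
  have h3 : ((Lt ε f ∩ {y | logHeight₁ y ≤ H}).ncard : ℝ) ≤ R.card + S.card := by
    have h4 := Set.ncard_le_ncard hsub (Finset.finite_toSet _)
    rw [Set.ncard_coe_finset] at h4
    exact_mod_cast h4.trans (Finset.card_union_le R S)
  have h5 : (1 : ℝ) ≤ Real.exp ((2 - ε / 2 + δ) * H) :=
    Real.one_le_exp (mul_nonneg (by linarith) hH)
  have h6 : (R.card : ℝ) ≤ f.natDegree * Real.exp ((2 - ε / 2 + δ) * H) := by
    have h7 : (R.card : ℝ) ≤ f.natDegree := by exact_mod_cast hRc
    have h8 : (0 : ℝ) ≤ f.natDegree := Nat.cast_nonneg _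
    nlinarith
  have h9 : Real.exp ((1 + δ) * H + (2 - ε) * H / 2) = Real.exp ((2 - ε / 2 + δ) * H) := by
    congr 1
    ring
  rw [h9] at hSc
  linarith

open Classical in
/-- the pairs with many common odd primes -/
def Ov (η : ℝ) (f g : (𝓞 K)[X]) (Bad : Finset (Pr K)) : Set (K × K) :=
  {p | aeval p.1 f ≠ 0 ∧ η * max (logHeight₁ p.1) (logHeight₁ p.2) <
    ∑ v ∈ (od (aeval p.1 f) ∩ od (aeval p.2 g)) \ Bad, Real.log (Nv v)}

open Classical in
/-- **the number of the pairs with many common odd primes** -/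
theorem count_Ov {f g : (𝓞 K)[X]} (hf : Nice f) (hg : Nice g) {η δ : ℝ} (hη0 : 0 < η)
    (hη1 : η ≤ 1) (hδ : 0 < δ) (hδ1 : δ ≤ 1) : ∃ Bad : Finset (Pr K), ∃ C : ℝ, ∀ H : ℝ, 0 ≤ H →
      ((Ov η f g Bad ∩ {p | max (logHeight₁ p.1) (logHeight₁ p.2) ≤ H}).ncard : ℝ) ≤
        C * Real.exp ((4 - η / 4 + δ) * H) := by
  obtain ⟨B1, hB1⟩ := exists_bad f hf.2 hf.1
  obtain ⟨B2, hB2⟩ := exists_bad g hg.2 hg.1
  obtain ⟨C0, hC0, h0⟩ := count_all K hδ
  obtain ⟨C2, hC2, h2⟩ := count_overlap f g hf.1 hg.1 (B1 ∪ B2)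
    (fun v hv => hB1 v fun h => hv (Finset.mem_union_left _ h))
    (fun v hv => hB2 v fun h => hv (Finset.mem_union_right _ h))
    (a := η / 2) (by positivity) (by linarith) hδ
  refine ⟨B1 ∪ B2, C2 + C0 ^ 2, fun H hH => ?_⟩
  obtain ⟨P, hP⟩ : ∃ P : Finset (K × K), P = ((bx K H) ×ˢ (bx K H)).filter fun p =>
    aeval p.1 f ≠ 0 ∧ η / 2 * H ≤
      ∑ v ∈ (od (aeval p.1 f) ∩ od (aeval p.2 g)) \ (B1 ∪ B2), Real.log (Nv v) := ⟨_, rfl⟩
  have hPc := h2 H hH P (by
    intro p hp
    rw [hP, Finset.mem_filter, Finset.mem_product, mem_bx, mem_bx] at hp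
    rw [hr_aff, hr_aff]
    exact ⟨hp.1.1, hp.1.2, hp.2.1, hp.2.2⟩)
  obtain ⟨b2, hb2⟩ : ∃ b2 : Finset (K × K), b2 = (bx K (H / 2)) ×ˢ (bx K (H / 2)) := ⟨_, rfl⟩
  have hbc : (b2.card : ℝ) ≤ C0 ^ 2 * Real.exp ((2 + δ) * H) := by
    have h5 := h0 (H / 2) (by positivity) (bx K (H / 2)) fun x hx => by
      rw [hr_aff]
      exact mem_bx.1 hx
    rw [hb2, Finset.card_product]
    push_cast
    calc ((bx K (H / 2)).card : ℝ) * ((bx K (H / 2)).card : ℝ) ≤
          (C0 * Real.exp ((2 + δ) * (H / 2))) * (C0 * Real.exp ((2 + δ) * (H / 2))) :=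
          mul_le_mul h5 h5 (Nat.cast_nonneg _) (by positivity)
      _ = C0 ^ 2 * (Real.exp ((2 + δ) * (H / 2)) * Real.exp ((2 + δ) * (H / 2))) := by ring
      _ = _ := by
          rw [← Real.exp_add]
          congr 2
          ring
  have hsub : Ov η f g (B1 ∪ B2) ∩ {p | max (logHeight₁ p.1) (logHeight₁ p.2) ≤ H} ⊆
      ((P ∪ b2 : Finset (K × K)) : Set (K × K)) := by
    rintro p ⟨⟨hp0, hp1⟩, hpH⟩
    have hpH' : max (logHeight₁ p.1) (logHeight₁ p.2) ≤ H := hpH
    rw [Finset.mem_coe, Finset.mem_union]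
    by_cases hmax : max (logHeight₁ p.1) (logHeight₁ p.2) ≤ H / 2
    · right
      rw [hb2, Finset.mem_product, mem_bx, mem_bx]
      exact ⟨(le_max_left _ _).trans hmax, (le_max_right _ _).trans hmax⟩
    · left
      rw [hP, Finset.mem_filter, Finset.mem_product, mem_bx, mem_bx]
      refine ⟨⟨(le_max_left _ _).trans hpH', (le_max_right _ _).trans hpH'⟩, hp0, ?_⟩
      rw [not_le] at hmax
      refine le_trans ?_ hp1.le
      calc η / 2 * H = η * (H / 2) := by ring
        _ ≤ _ := mul_le_mul_of_nonneg_left hmax.le hη0.le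
  have h3 : ((Ov η f g (B1 ∪ B2) ∩ {p | max (logHeight₁ p.1) (logHeight₁ p.2) ≤ H}).ncard : ℝ) ≤
      P.card + b2.card := by
    have h4 := Set.ncard_le_ncard hsub (Finset.finite_toSet _)
    rw [Set.ncard_coe_finset] at h4
    exact_mod_cast h4.trans (Finset.card_union_le P b2)
  have h5 : Real.exp ((2 + δ) * H) ≤ Real.exp ((4 - η / 4 + δ) * H) :=
    Real.exp_le_exp.2 (mul_le_mul_of_nonneg_right (by linarith) hH)
  have h6 : C0 ^ 2 * Real.exp ((2 + δ) * H) ≤ C0 ^ 2 * Real.exp ((4 - η / 4 + δ) * H) :=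
    mul_le_mul_of_nonneg_left h5 (by positivity)
  have h7 : Real.exp ((4 + δ - η / 2 / 2) * H) = Real.exp ((4 - η / 4 + δ) * H) := by
    congr 1
    ring
  rw [h7] at hPc
  linarith

end Pool.Agent.N753.LS
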