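import Mathlib

/-!
# One exceptional set for countably many problems
-/

set_option autoImplicit false

namespace Pool.Agent.N753.LS

open Finset

/-- **the diagonal argument** -/
theorem diag {X : Type} (ht : X → ℝ) (hbox : ∀ H : ℝ, {x | ht x ≤ H}.Finite) (E : ℕ → Set X)
    {α : ℝ} (hE : ∀ n, ∃ C : ℝ, ∀ H : ℝ, 0 ≤ H →
      ((E n ∩ {x | ht x ≤ H}).ncard : ℝ) ≤ C * Real.exp (α * H)) {ν : ℝ} (hν : 0 < ν) :
    ∃ (T : Set X) (h : ℕ → ℝ), (∀ n, ∀ x ∈ E n, x ∉ T → ht x < h n) ∧
      ∀ H : ℝ, 0 ≤ H → ((T ∩ {x | ht x ≤ H}).ncard : ℝ) ≤ 2 * Real.exp ((α + ν) * H) := by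
  classical
  choose C hC using hE
  obtain ⟨D, hD⟩ : ∃ D : ℕ → ℝ, D = fun n => max (C n) 1 := ⟨_, rfl⟩
  have hD1 : ∀ n, 1 ≤ D n := fun n => by rw [hD]; exact le_max_right _ _
  have hDC : ∀ n, C n ≤ D n := fun n => by rw [hD]; exact le_max_left _ _
  obtain ⟨h, hh⟩ : ∃ h : ℕ → ℝ, h = fun n => (Real.log (D n) + n * Real.log 2) / ν := ⟨_, rfl⟩
  have hl2 : 0 < Real.log 2 := Real.log_pos (by norm_num)
  have hlD : ∀ n, 0 ≤ Real.log (D n) := fun n => Real.log_nonneg (hD1 n)
  have hkey : ∀ n, D n = (1 / 2) ^ n * Real.exp (ν * h n) := by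
    intro n
    have h0 : 0 < D n := by linarith [hD1 n]
    rw [hh]
    beta_reduce
    rw [mul_div_cancel₀ _ hν.ne', Real.exp_add, Real.exp_log h0, Real.exp_nat_mul,
      Real.exp_log (by norm_num)]
    have : ((1 : ℝ) / 2) ^ n * (2 : ℝ) ^ n = 1 := by
      rw [← mul_pow]
      norm_num
    calc D n = D n * (((1 : ℝ) / 2) ^ n * (2 : ℝ) ^ n) := by rw [this, mul_one]
      _ = _ := by ring
  refine ⟨⋃ n, E n ∩ {x | h n ≤ ht x}, h, ?_, ?_⟩
  · intro n x hx hxT
    by_contra hcon
    rw [not_lt] at hcon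
    exact hxT (Set.mem_iUnion.2 ⟨n, hx, hcon⟩)
  · intro H hH
    obtain ⟨N, hN⟩ := exists_nat_gt (ν * H / Real.log 2)
    have hNn : ∀ n, N ≤ n → H < h n := by
      intro n hn
      rw [hh]
      beta_reduce
      rw [lt_div_iff₀ hν]
      rw [div_lt_iff₀ hl2] at hN
      have h1 : (N : ℝ) * Real.log 2 ≤ n * Real.log 2 :=
        mul_le_mul_of_nonneg_right (by exact_mod_cast hn) hl2.le
      linarith [hlD n]
    -- the pieces
    let A : ℕ → Finset X := fun n =>
      if h n ≤ H then ((hbox H).subset (Set.inter_subset_right (s := E n))).toFinset else ∅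
    have hsub : (⋃ n, E n ∩ {x | h n ≤ ht x}) ∩ {x | ht x ≤ H} ⊆
        (((Finset.range N).biUnion A : Finset X) : Set X) := by
      rintro x ⟨hx, hxH⟩
      obtain ⟨n, hxn, hn⟩ := Set.mem_iUnion.1 hx
      have hn' : h n ≤ ht x := hn
      have hxH' : ht x ≤ H := hxH
      have hnH : h n ≤ H := hn'.trans hxH'
      rw [Finset.mem_coe, Finset.mem_biUnion]
      refine ⟨n, ?_, ?_⟩
      · rw [Finset.mem_range]
        by_contra hcon
        exact absurd hnH (not_le.2 (hNn n (not_lt.1 hcon)))
      · show x ∈ if h n ≤ H then _ else _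
        rw [if_pos hnH, Set.Finite.mem_toFinset]
        exact ⟨hxn, hxH⟩
    have hcard : ∀ n, ((A n).card : ℝ) ≤ (1 / 2) ^ n * Real.exp ((α + ν) * H) := by
      intro n
      by_cases hn : h n ≤ H
      · have h1 : (A n).card = (E n ∩ {x | ht x ≤ H}).ncard := by
          have e : A n = ((hbox H).subset (Set.inter_subset_right (s := E n))).toFinset := if_pos hn
          rw [e, Set.ncard_eq_toFinset_card _ ((hbox H).subset (Set.inter_subset_right (s := E n)))]
        rw [h1]
        refine (hC n H hH).trans ?_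
        calc C n * Real.exp (α * H) ≤ D n * Real.exp (α * H) :=
              mul_le_mul_of_nonneg_right (hDC n) (Real.exp_pos _).le
          _ = (1 / 2) ^ n * (Real.exp (ν * h n) * Real.exp (α * H)) := by
              rw [hkey n]
              ring
          _ ≤ (1 / 2) ^ n * (Real.exp (ν * H) * Real.exp (α * H)) := by
              refine mul_le_mul_of_nonneg_left ?_ (by positivity)
              refine mul_le_mul_of_nonneg_right ?_ (Real.exp_pos _).le
              exact Real.exp_le_exp.2 (mul_le_mul_of_nonneg_left hn hν.le)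
          _ = _ := by
              rw [← Real.exp_add]
              congr 2
              ring
      · have e : A n = ∅ := if_neg hn
        rw [e, Finset.card_empty, Nat.cast_zero]
        positivity
    calc (((⋃ n, E n ∩ {x | h n ≤ ht x}) ∩ {x | ht x ≤ H}).ncard : ℝ)
        ≤ (((((Finset.range N).biUnion A : Finset X) : Set X)).ncard : ℝ) := by
          exact_mod_cast Set.ncard_le_ncard hsub (Finset.finite_toSet _)
      _ = (((Finset.range N).biUnion A).card : ℝ) := by rw [Set.ncard_coe_finset]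
      _ ≤ ∑ n ∈ Finset.range N, ((A n).card : ℝ) := by exact_mod_cast Finset.card_biUnion_le
      _ ≤ ∑ n ∈ Finset.range N, (1 / 2) ^ n * Real.exp ((α + ν) * H) :=
          Finset.sum_le_sum fun n _ => hcard n
      _ = (∑ n ∈ Finset.range N, (1 / 2 : ℝ) ^ n) * Real.exp ((α + ν) * H) := by
          rw [Finset.sum_mul]
      _ ≤ 2 * Real.exp ((α + ν) * H) := by
          refine mul_le_mul_of_nonneg_right ?_ (Real.exp_pos _).le
          have h1 := summable_geometric_two.sum_le_tsum (Finset.range N)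
            (fun n _ => by positivity)
          rw [tsum_geometric_two] at h1
          exact h1

end Pool.Agent.N753.LS
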