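import Mathlib
import Pool.Agent.N753.LS.Exc
import Pool.Agent.N753.LS.Diag

/-!
# The exceptional set
-/

set_option autoImplicit false
set_option linter.unusedSectionVars false

namespace Pool.Agent.N753.LS

open NumberField IsDedekindDomain Finset Pool.Agent.H691R3 Pool.Agent.TH876.Loc Polynomial Height

variable (K : Type) [Field K] [NumberField K]

theorem countable_int : Countable (𝓞 K) :=
  (RingOfIntegers.basis K).equivFun.toEquiv.countable_iff.2 inferInstance

theorem countable_poly : Countable (𝓞 K)[X] := by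
  have := countable_int K
  rw [← Cardinal.mk_le_aleph0_iff]
  refine Polynomial.cardinalMk_le_max.trans (max_le ?_ le_rfl)
  rw [Cardinal.mk_le_aleph0_iff]
  exact this

theorem exists_enum : ∃ e : ℕ → (𝓞 K)[X], Function.Surjective e := by
  have := countable_poly K
  exact exists_surjective_nat _

open Classical in
/-- the exceptional set in `K` -/
theorem exists_E1 {ε : ℝ} (hε0 : 0 < ε) (hε1 : ε ≤ 1) :
    ∃ E : Set K, (∀ H : ℝ, 0 ≤ H → ((E ∩ {y | logHeight₁ y ≤ H}).ncard : ℝ) ≤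
      2 * Real.exp ((2 - ε / 4) * H)) ∧ ∀ f : (𝓞 K)[X], Nice f → ∃ h0 : ℝ, ∀ y : K, y ∉ E →
        h0 ≤ logHeight₁ y → aeval y f ≠ 0 ∧
          (2 - ε) * logHeight₁ y ≤ ∑ v ∈ od (aeval y f), Real.log (Nv v) := by
  obtain ⟨e, he⟩ := exists_enum K
  obtain ⟨T, h, hT1, hT2⟩ := diag (X := K) (fun y => logHeight₁ y)
    (fun H => NumberField.finite_setOfPred_logHeight₁_le K H)
    (fun n => if Nice (e n) then Lt ε (e n) else ∅) (α := 2 - ε / 2 + ε / 8) (by
      intro n
      by_cases hn : Nice (e n)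
      · obtain ⟨C, hC⟩ := count_Lt hn hε0 hε1 (show 0 < ε / 8 by positivity)
        refine ⟨C, fun H hH => ?_⟩
        rw [if_pos hn]
        exact hC H hH
      · refine ⟨0, fun H hH => ?_⟩
        rw [if_neg hn, Set.empty_inter, Set.ncard_empty, Nat.cast_zero, zero_mul]) (ν := ε / 8)
    (by positivity)
  refine ⟨T, fun H hH => ?_, fun f hf => ?_⟩
  · refine (hT2 H hH).trans (le_of_eq ?_)
    congr 2
    ring
  · obtain ⟨n, rfl⟩ := he f
    refine ⟨h n, fun y hy hyh => ?_⟩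
    have h1 : y ∉ Lt ε (e n) := by
      intro hy2
      have h2 := hT1 n y (by rw [if_pos hf]; exact hy2) hy
      linarith
    unfold Lt at h1
    rw [Set.mem_ofPred_eq, not_or, not_lt] at h1
    exact h1

open Classical in
/-- the exceptional set in `K × K` -/
theorem exists_E2 {η : ℝ} (hη0 : 0 < η) (hη1 : η ≤ 1) :
    ∃ E : Set (K × K), (∀ H : ℝ, 0 ≤ H →
      ((E ∩ {p | max (logHeight₁ p.1) (logHeight₁ p.2) ≤ H}).ncard : ℝ) ≤
        2 * Real.exp ((4 - η / 8) * H)) ∧ ∀ f g : (𝓞 K)[X], Nice f → Nice g →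
          ∃ (Bad : Finset (Pr K)) (h0 : ℝ), ∀ p : K × K, p ∉ E →
            h0 ≤ max (logHeight₁ p.1) (logHeight₁ p.2) → aeval p.1 f ≠ 0 →
              ∑ v ∈ (od (aeval p.1 f) ∩ od (aeval p.2 g)) \ Bad, Real.log (Nv v) ≤
                η * max (logHeight₁ p.1) (logHeight₁ p.2) := by
  obtain ⟨e, he⟩ := exists_enum K
  have hBad : ∀ f g : (𝓞 K)[X], ∃ Bad : Finset (Pr K), Nice f → Nice g →
      ∃ C : ℝ, ∀ H : ℝ, 0 ≤ H →
      ((Ov η f g Bad ∩ {p | max (logHeight₁ p.1) (logHeight₁ p.2) ≤ H}).ncard : ℝ) ≤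
        C * Real.exp ((4 - η / 4 + η / 16) * H) := by
    intro f g
    by_cases h : Nice f ∧ Nice g
    · obtain ⟨Bad, C, hC⟩ := count_Ov h.1 h.2 hη0 hη1 (show 0 < η / 16 by positivity)
        (by linarith)
      exact ⟨Bad, fun _ _ => ⟨C, hC⟩⟩
    · exact ⟨∅, fun h1 h2 => absurd ⟨h1, h2⟩ h⟩
  choose Bad hBad using hBad
  obtain ⟨e2, he2⟩ : ∃ e2 : ℕ → (𝓞 K)[X] × (𝓞 K)[X], Function.Surjective e2 := by
    have := countable_poly K
    exact exists_surjective_nat _
  have hfin : ∀ H : ℝ, {p : K × K | max (logHeight₁ p.1) (logHeight₁ p.2) ≤ H}.Finite := by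
    intro H
    refine ((NumberField.finite_setOfPred_logHeight₁_le K H).prod
      (NumberField.finite_setOfPred_logHeight₁_le K H)).subset ?_
    intro p hp
    have hp' : max (logHeight₁ p.1) (logHeight₁ p.2) ≤ H := hp
    exact ⟨(le_max_left _ _).trans hp', (le_max_right _ _).trans hp'⟩
  obtain ⟨T, h, hT1, hT2⟩ := diag (X := K × K) (fun p => max (logHeight₁ p.1) (logHeight₁ p.2))
    hfin (fun n => if Nice (e2 n).1 ∧ Nice (e2 n).2 then
      Ov η (e2 n).1 (e2 n).2 (Bad (e2 n).1 (e2 n).2) else ∅) (α := 4 - η / 4 + η / 16) (by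
      intro n
      by_cases hn : Nice (e2 n).1 ∧ Nice (e2 n).2
      · obtain ⟨C, hC⟩ := hBad _ _ hn.1 hn.2
        refine ⟨C, fun H hH => ?_⟩
        rw [if_pos hn]
        exact hC H hH
      · refine ⟨0, fun H hH => ?_⟩
        rw [if_neg hn, Set.empty_inter, Set.ncard_empty, Nat.cast_zero, zero_mul]) (ν := η / 16)
    (by positivity)
  refine ⟨T, fun H hH => ?_, fun f g hf hg => ?_⟩
  · refine (hT2 H hH).trans (le_of_eq ?_)
    congr 2
    ring
  · obtain ⟨n, hn⟩ := he2 (f, g)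
    refine ⟨Bad f g, h n, fun p hp hph hp0 => ?_⟩
    by_contra hcon
    rw [not_le] at hcon
    have h2 := hT1 n p (by
      rw [if_pos (by rw [hn]; exact ⟨hf, hg⟩), hn]
      exact ⟨hp0, hcon⟩) hp
    linarith

open Classical in
/-- **the exceptional set** -/
theorem exists_E {m : ℕ} (hm : 0 < m) {ε : ℝ} (hε0 : 0 < ε) (hε1 : ε ≤ 1) {η : ℝ} (hη0 : 0 < η)
    (hη1 : η ≤ 1) : ∃ E : Set (Fin m → K), (∃ ν C : ℝ, 0 < ν ∧ ∀ H : ℝ, 0 ≤ H →
      ((E ∩ {x | htm x ≤ H}).ncard : ℝ) ≤ C * Real.exp ((2 * m - ν) * H)) ∧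
      (∀ f : (𝓞 K)[X], Nice f → ∃ h0 : ℝ, ∀ x : Fin m → K, x ∉ E → ∀ i,
        h0 ≤ logHeight₁ (x i) → aeval (x i) f ≠ 0 ∧
          (2 - ε) * logHeight₁ (x i) ≤ ∑ v ∈ od (aeval (x i) f), Real.log (Nv v)) ∧
      (∀ f g : (𝓞 K)[X], Nice f → Nice g → ∃ (Bad : Finset (Pr K)) (h0 : ℝ),
        ∀ x : Fin m → K, x ∉ E → ∀ i j, i ≠ j →
          h0 ≤ max (logHeight₁ (x i)) (logHeight₁ (x j)) → aeval (x i) f ≠ 0 →
            ∑ v ∈ (od (aeval (x i) f) ∩ od (aeval (x j) g)) \ Bad, Real.log (Nv v) ≤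
              η * max (logHeight₁ (x i)) (logHeight₁ (x j))) := by
  obtain ⟨E1, hE1, hE1'⟩ := exists_E1 K hε0 hε1
  obtain ⟨E2, hE2, hE2'⟩ := exists_E2 K hη0 hη1
  refine ⟨{x | (∃ i, x i ∈ E1) ∨ ∃ i j, i ≠ j ∧ (x i, x j) ∈ E2}, ?_, ?_, ?_⟩
  · obtain ⟨κ, hκ⟩ : ∃ κ : ℝ, κ = min (ε / 4) (η / 8) := ⟨_, rfl⟩
    have hκ0 : 0 < κ := by rw [hκ]; exact lt_min (by positivity) (by positivity)
    have hκ1 : κ ≤ ε / 4 := by rw [hκ]; exact min_le_left _ _
    have hκ2 : κ ≤ η / 8 := by rw [hκ]; exact min_le_right _ _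
    have hmR : (1 : ℝ) ≤ m := by exact_mod_cast hm
    obtain ⟨δ, hδ⟩ : ∃ δ : ℝ, δ = κ / (2 * m) := ⟨_, rfl⟩
    have hδ0 : 0 < δ := by rw [hδ]; positivity
    have hδm : δ * m = κ / 2 := by
      rw [hδ]
      field_simp
    obtain ⟨C0, hC0, h0⟩ := count_all K hδ0
    obtain ⟨A, hA⟩ : ∃ A : ℝ, A = max C0 1 := ⟨_, rfl⟩
    have hA1 : 1 ≤ A := by rw [hA]; exact le_max_right _ _
    have hA0 : C0 ≤ A := by rw [hA]; exact le_max_left _ _
    refine ⟨κ / 2, (m : ℝ) * (2 * A ^ m) + (m : ℝ) * ((m : ℝ) * (2 * A ^ m)), by positivity,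
      fun H hH => ?_⟩
    obtain ⟨E, hE⟩ : ∃ E : ℝ, E = Real.exp ((2 * m - κ / 2) * H) := ⟨_, rfl⟩
    have hE0 : 0 < E := by rw [hE]; exact Real.exp_pos _
    rw [← hE]
    have hbx : ((bx K H).card : ℝ) ≤ A * Real.exp ((2 + δ) * H) := by
      have h3 := h0 H hH (bx K H) fun x hx => by
        rw [hr_aff]
        exact mem_bx.1 hx
      exact h3.trans (mul_le_mul_of_nonneg_right hA0 (Real.exp_pos _).le)
    have hbxk : ∀ k : ℕ, k ≤ m → (((bx K H).card : ℝ)) ^ k ≤
        A ^ m * Real.exp (k * ((2 + δ) * H)) := by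
      intro k hk
      calc (((bx K H).card : ℝ)) ^ k ≤ (A * Real.exp ((2 + δ) * H)) ^ k :=
            pow_le_pow_left₀ (Nat.cast_nonneg _) hbx k
        _ = A ^ k * Real.exp (k * ((2 + δ) * H)) := by rw [mul_pow, ← Real.exp_nat_mul]
        _ ≤ _ := mul_le_mul_of_nonneg_right (pow_le_pow_right₀ hA1 hk) (Real.exp_pos _).le
    have hAm : 0 < A ^ m := by positivity
    obtain ⟨BX, hBX⟩ : ∃ BX : Finset (Fin m → K), BX = (box_fin (K := K) (m := m) H).toFinset :=
      ⟨_, rfl⟩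
    have hBXm : ∀ x, x ∈ BX ↔ htm x ≤ H := fun x => by
      rw [hBX, Set.Finite.mem_toFinset]
      rfl
    have hBXk : ∀ x ∈ BX, ∀ k, x k ∈ bx K H := fun x hx k =>
      mem_bx.2 ((le_htm x k).trans ((hBXm x).1 hx))
    have hexp : ∀ t : ℝ, t ≤ 2 * m - κ / 2 → Real.exp (t * H) ≤ E := fun t ht => by
      rw [hE]
      exact Real.exp_le_exp.2 (mul_le_mul_of_nonneg_right ht hH)
    have hm1 : ((m - 1 : ℕ) : ℝ) = m - 1 := by
      rw [Nat.cast_sub hm, Nat.cast_one]
    obtain ⟨S, hS⟩ : ∃ S : Finset K, S = (bx K H).filter fun y => y ∈ E1 := ⟨_, rfl⟩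
    have hSc : (S.card : ℝ) ≤ 2 * Real.exp ((2 - ε / 4) * H) := by
      refine le_trans ?_ (hE1 H hH)
      have h3 : (S : Set K) = E1 ∩ {y | logHeight₁ y ≤ H} := by
        ext y
        rw [hS, Finset.mem_coe, Finset.mem_filter, mem_bx, and_comm]
        rfl
      rw [← h3, Set.ncard_coe_finset]
    obtain ⟨P, hP⟩ : ∃ P : Finset (K × K), P = ((bx K H) ×ˢ (bx K H)).filter fun p =>
      p ∈ E2 := ⟨_, rfl⟩
    have hPc : (P.card : ℝ) ≤ 2 * Real.exp ((4 - η / 8) * H) := by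
      refine le_trans ?_ (hE2 H hH)
      have h3 : (P : Set (K × K)) = E2 ∩ {p | max (logHeight₁ p.1) (logHeight₁ p.2) ≤ H} := by
        ext y
        rw [hP, Finset.mem_coe, Finset.mem_filter, Finset.mem_product, mem_bx, mem_bx, and_comm,
          ← max_le_iff]
        rfl
      rw [← h3, Set.ncard_coe_finset]
    let Z1 : Fin m → Finset (Fin m → K) := fun i => BX.filter fun x => x i ∈ E1
    let Z2 : Fin m → Fin m → Finset (Fin m → K) := fun i j => BX.filter fun x =>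
      i ≠ j ∧ (x i, x j) ∈ E2
    have hsub : {x : Fin m → K | (∃ i, x i ∈ E1) ∨ ∃ i j, i ≠ j ∧ (x i, x j) ∈ E2} ∩
        {x | htm x ≤ H} ⊆ (((Finset.univ.biUnion Z1) ∪
          (Finset.univ.biUnion fun i => Finset.univ.biUnion (Z2 i)) : Finset (Fin m → K)) :
            Set (Fin m → K)) := by
      rintro x ⟨hx, hxH⟩
      have hxB : x ∈ BX := (hBXm x).2 hxH
      rw [Finset.mem_coe, Finset.mem_union]
      rcases hx with ⟨i, hi⟩ | ⟨i, j, hij, hi⟩
      · exact Or.inl (Finset.mem_biUnion.2 ⟨i, Finset.mem_univ i,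
          Finset.mem_filter.2 ⟨hxB, hi⟩⟩)
      · exact Or.inr (Finset.mem_biUnion.2 ⟨i, Finset.mem_univ i, Finset.mem_biUnion.2 ⟨j,
          Finset.mem_univ j, Finset.mem_filter.2 ⟨hxB, hij, hi⟩⟩⟩)
    have hc1 : ∀ i, ((Z1 i).card : ℝ) ≤ 2 * A ^ m * E := by
      intro i
      have h3 := proj_one i (bx K H) S (Z1 i) (by
        intro x hx
        obtain ⟨hxB, hx0⟩ := Finset.mem_filter.1 hx
        refine ⟨hBXk x hxB, ?_⟩
        rw [hS, Finset.mem_filter]
        exact ⟨hBXk x hxB i, hx0⟩)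
      calc ((Z1 i).card : ℝ) ≤ ((S.card * (bx K H).card ^ (m - 1) : ℕ) : ℝ) := by
            exact_mod_cast h3
        _ ≤ (2 * Real.exp ((2 - ε / 4) * H)) *
            (A ^ m * Real.exp ((m - 1 : ℕ) * ((2 + δ) * H))) := by
            push_cast
            exact mul_le_mul hSc (hbxk (m - 1) (by omega)) (by positivity) (by positivity)
        _ = 2 * A ^ m * (Real.exp ((2 - ε / 4) * H) *
            Real.exp ((m - 1 : ℕ) * ((2 + δ) * H))) := by ring
        _ = 2 * A ^ m * Real.exp ((2 * m - ε / 4 + δ * m - δ) * H) := by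
            rw [← Real.exp_add, hm1]
            congr 2
            ring
        _ ≤ _ := by
            refine mul_le_mul_of_nonneg_left (hexp _ ?_) (by positivity)
            rw [hδm]
            linarith
    have hc2 : ∀ i j, ((Z2 i j).card : ℝ) ≤ 2 * A ^ m * E := by
      intro i j
      by_cases hij : i = j
      · have : Z2 i j = ∅ := by
          rw [Finset.eq_empty_iff_forall_notMem]
          intro x hx
          exact (Finset.mem_filter.1 hx).2.1 hij
        rw [this, Finset.card_empty, Nat.cast_zero]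
        positivity
      have hm2 : 2 ≤ m := by
        by_contra hcon
        have : m = 1 := by omega
        subst this
        exact hij (Subsingleton.elim i j)
      have hm2' : ((m - 2 : ℕ) : ℝ) = m - 2 := by
        rw [Nat.cast_sub hm2]
        norm_num
      have h3 := proj_two hij (bx K H) P (Z2 i j) (by
        intro x hx
        obtain ⟨hxB, -, hx1⟩ := Finset.mem_filter.1 hx
        refine ⟨hBXk x hxB, ?_⟩
        rw [hP, Finset.mem_filter, Finset.mem_product]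
        exact ⟨⟨hBXk x hxB i, hBXk x hxB j⟩, hx1⟩)
      calc ((Z2 i j).card : ℝ) ≤ ((P.card * (bx K H).card ^ (m - 2) : ℕ) : ℝ) := by
            exact_mod_cast h3
        _ ≤ (2 * Real.exp ((4 - η / 8) * H)) *
            (A ^ m * Real.exp ((m - 2 : ℕ) * ((2 + δ) * H))) := by
            push_cast
            exact mul_le_mul hPc (hbxk (m - 2) (by omega)) (by positivity) (by positivity)
        _ = 2 * A ^ m * (Real.exp ((4 - η / 8) * H) *
            Real.exp ((m - 2 : ℕ) * ((2 + δ) * H))) := by ring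
        _ = 2 * A ^ m * Real.exp ((2 * m - η / 8 + δ * m - 2 * δ) * H) := by
            rw [← Real.exp_add, hm2']
            congr 2
            ring
        _ ≤ _ := by
            refine mul_le_mul_of_nonneg_left (hexp _ ?_) (by positivity)
            rw [hδm]
            linarith
    calc ((({x : Fin m → K | (∃ i, x i ∈ E1) ∨ ∃ i j, i ≠ j ∧ (x i, x j) ∈ E2} ∩
          {x | htm x ≤ H}).ncard : ℕ) : ℝ) ≤
          ((((Finset.univ.biUnion Z1) ∪
            (Finset.univ.biUnion fun i => Finset.univ.biUnion (Z2 i)) : Finset (Fin m → K)) :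
              Set (Fin m → K)).ncard : ℝ) := by
          exact_mod_cast Set.ncard_le_ncard hsub (Finset.finite_toSet _)
      _ = (((Finset.univ.biUnion Z1) ∪
            (Finset.univ.biUnion fun i => Finset.univ.biUnion (Z2 i)) :
              Finset (Fin m → K)).card : ℝ) := by rw [Set.ncard_coe_finset]
      _ ≤ ∑ i, ((Z1 i).card : ℝ) + ∑ i, ∑ j, ((Z2 i j).card : ℝ) := by
          have e1 : (Finset.univ.biUnion Z1).card ≤ ∑ i, (Z1 i).card := Finset.card_biUnion_le
          have e3 : (Finset.univ.biUnion fun i => Finset.univ.biUnion (Z2 i)).card ≤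
              ∑ i, ∑ j, (Z2 i j).card :=
            Finset.card_biUnion_le.trans (Finset.sum_le_sum fun i _ => Finset.card_biUnion_le)
          have e4 := (Finset.card_union_le (Finset.univ.biUnion Z1)
            (Finset.univ.biUnion fun i => Finset.univ.biUnion (Z2 i))).trans
            (Nat.add_le_add e1 e3)
          exact_mod_cast e4
      _ ≤ ∑ _i : Fin m, 2 * A ^ m * E + ∑ _i : Fin m, ∑ _j : Fin m, 2 * A ^ m * E := by
          refine add_le_add (Finset.sum_le_sum fun i _ => hc1 i) ?_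
          exact Finset.sum_le_sum fun i _ => Finset.sum_le_sum fun j _ => hc2 i j
      _ = _ := by
          simp only [Finset.sum_const, Finset.card_univ, Fintype.card_fin, nsmul_eq_mul]
          ring
  · intro f hf
    obtain ⟨h0, h1⟩ := hE1' f hf
    refine ⟨h0, fun x hx i hi => h1 (x i) (fun h => hx (Or.inl ⟨i, h⟩)) hi⟩
  · intro f g hf hg
    obtain ⟨Bad, h0, h1⟩ := hE2' f g hf hg
    exact ⟨Bad, h0, fun x hx i j hij hi hi0 =>
      h1 (x i, x j) (fun h => hx (Or.inr ⟨i, j, hij, h⟩)) hi hi0⟩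

end Pool.Agent.N753.LS
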