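import Mathlib

/-!
# Sums over overlapping sets
-/

set_option autoImplicit false

namespace Pool.Agent.N753.LS

open Finset

open Classical in
theorem comb {V0 : Type} {m : ℕ} (N : Fin m → ℝ) (hN : ∀ i, 1 ≤ N i) (h : Fin m → ℝ)
    (hh : ∀ i, 0 ≤ h i) (T : Fin m → Finset V0) (l : V0 → ℝ) (hl : ∀ v, 0 ≤ l v) {η c : ℝ}
    (hη : 0 ≤ η) (hc : 0 ≤ c)
    (hov : ∀ i j, i ≠ j → ∑ v ∈ T i ∩ T j, l v ≤ η * max (h i) (h j) + c) :
    ∃ ι : V0 → Fin m → Prop, (∀ v i, ι v i → v ∈ T i) ∧
      (∀ v i j, ι v i → ι v j → i = j) ∧ (∀ v, (∃ i, v ∈ T i) → ∃ i, ι v i) ∧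
      ∑ i, 1 / N i * ∑ v ∈ T i, l v ≤
        ∑ i, ∑ v ∈ (T i).filter (fun v => ι v i), 1 / N i * l v +
          (2 * m * η * ∑ i, h i / N i + m ^ 2 * c) := by
  -- the best index
  have hbest : ∀ v : V0, (∃ i, v ∈ T i) → ∃ i, v ∈ T i ∧ ∀ j, v ∈ T j → N i ≤ N j := by
    intro v ⟨i0, hi0⟩
    obtain ⟨i, hi, hmin⟩ := Finset.exists_min_image (Finset.univ.filter fun i => v ∈ T i) N
      ⟨i0, Finset.mem_filter.2 ⟨Finset.mem_univ _, hi0⟩⟩
    exact ⟨i, (Finset.mem_filter.1 hi).2, fun j hj => hmin j
      (Finset.mem_filter.2 ⟨Finset.mem_univ _, hj⟩)⟩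
  have hb : ∀ v : V0, ∃ b : Option (Fin m), (∀ i, b = some i → v ∈ T i ∧ ∀ j, v ∈ T j → N i ≤ N j) ∧
      ((∃ i, v ∈ T i) → ∃ i, b = some i) := by
    intro v
    by_cases hv : ∃ i, v ∈ T i
    · obtain ⟨i, hi⟩ := hbest v hv
      refine ⟨some i, ?_, fun _ => ⟨i, rfl⟩⟩
      intro j hj
      rw [Option.some_inj] at hj
      subst hj
      exact hi
    · exact ⟨none, fun i hi => by simp at hi, fun h => absurd h hv⟩
  choose b hb1 hb2 using hb
  refine ⟨fun v i => b v = some i, fun v i hi => (hb1 v i hi).1, fun v i j hi hj => ?_, hb2, ?_⟩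
  · have hi' : b v = some i := hi
    have hj' : b v = some j := hj
    rw [hi'] at hj'
    exact Option.some_injective _ hj'
  -- the rest
  have hN0 : ∀ i, 0 < N i := fun i => by linarith [hN i]
  have hsplit : ∀ i, 1 / N i * ∑ v ∈ T i, l v =
      ∑ v ∈ (T i).filter (fun v => b v = some i), 1 / N i * l v +
        ∑ v ∈ (T i).filter (fun v => ¬ b v = some i), 1 / N i * l v := by
    intro i
    rw [Finset.sum_filter_add_sum_filter_not, Finset.mul_sum]
  have hrest : ∀ i, ∑ v ∈ (T i).filter (fun v => ¬ b v = some i), 1 / N i * l v ≤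
      ∑ j, if i ≠ j then min (1 / N i) (1 / N j) * ∑ v ∈ T i ∩ T j, l v else 0 := by
    intro i
    have h1 : ∀ v ∈ (T i).filter (fun v => ¬ b v = some i), 1 / N i * l v ≤
        ∑ j, if i ≠ j ∧ v ∈ T j then min (1 / N i) (1 / N j) * l v else 0 := by
      intro v hv
      obtain ⟨hvT, hvb⟩ := Finset.mem_filter.1 hv
      obtain ⟨j, hj⟩ := hb2 v ⟨i, hvT⟩
      obtain ⟨hjT, hjm⟩ := hb1 v j hj
      have hij : i ≠ j := by
        rintro rfl
        exact hvb hj
      have h2 : 1 / N i * l v = if i ≠ j ∧ v ∈ T j then min (1 / N i) (1 / N j) * l v else 0 := by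
        rw [if_pos ⟨hij, hjT⟩, min_eq_left]
        exact one_div_le_one_div_of_le (hN0 j) (hjm i hvT)
      rw [h2]
      refine Finset.single_le_sum (f := fun j =>
        if i ≠ j ∧ v ∈ T j then min (1 / N i) (1 / N j) * l v else 0) ?_ (Finset.mem_univ j)
      intro k _
      beta_reduce
      split_ifs
      · have := hl v
        have h3 : 0 ≤ min (1 / N i) (1 / N k) := le_min (by have := hN0 i; positivity)
          (by have := hN0 k; positivity)
        positivity
      · exact le_rfl
    calc ∑ v ∈ (T i).filter (fun v => ¬ b v = some i), 1 / N i * l v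
        ≤ ∑ v ∈ (T i).filter (fun v => ¬ b v = some i),
          ∑ j, (if i ≠ j ∧ v ∈ T j then min (1 / N i) (1 / N j) * l v else 0) :=
          Finset.sum_le_sum h1
      _ ≤ ∑ v ∈ T i, ∑ j, (if i ≠ j ∧ v ∈ T j then min (1 / N i) (1 / N j) * l v else 0) := by
          refine Finset.sum_le_sum_of_subset_of_nonneg (Finset.filter_subset _ _) fun v _ _ => ?_
          refine Finset.sum_nonneg fun k _ => ?_
          split_ifs
          · have := hl v
            have h3 : 0 ≤ min (1 / N i) (1 / N k) := le_min (by have := hN0 i; positivity)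
              (by have := hN0 k; positivity)
            positivity
          · exact le_rfl
      _ = ∑ j, ∑ v ∈ T i, (if i ≠ j ∧ v ∈ T j then min (1 / N i) (1 / N j) * l v else 0) :=
          Finset.sum_comm
      _ = _ := by
          refine Finset.sum_congr rfl fun j _ => ?_
          by_cases hij : i ≠ j
          · rw [if_pos hij, Finset.mul_sum, ← Finset.filter_mem_eq_inter, Finset.sum_filter]
            refine Finset.sum_congr rfl fun v _ => ?_
            by_cases hv : v ∈ T j
            · rw [if_pos ⟨hij, hv⟩, if_pos hv]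
            · rw [if_neg fun h => hv h.2, if_neg hv]
          · rw [if_neg hij]
            refine Finset.sum_eq_zero fun v _ => ?_
            rw [if_neg fun h => hij h.1]
  have hpair : ∀ i j, (if i ≠ j then min (1 / N i) (1 / N j) * ∑ v ∈ T i ∩ T j, l v else 0) ≤
      η * (h i / N i + h j / N j) + c := by
    intro i j
    have hni : 0 ≤ h i / N i := div_nonneg (hh i) (hN0 i).le
    have hnj : 0 ≤ h j / N j := div_nonneg (hh j) (hN0 j).le
    by_cases hij : i ≠ j
    · rw [if_pos hij]
      have hmin0 : 0 ≤ min (1 / N i) (1 / N j) := le_min (by have := hN0 i; positivity)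
        (by have := hN0 j; positivity)
      have hmin1 : min (1 / N i) (1 / N j) ≤ 1 := (min_le_left _ _).trans (by
        rw [div_le_one (hN0 i)]
        exact hN i)
      have h1 := mul_le_mul_of_nonneg_left (hov i j hij) hmin0
      have h2 : min (1 / N i) (1 / N j) * max (h i) (h j) ≤ h i / N i + h j / N j := by
        rcases max_choice (h i) (h j) with e | e
        · rw [e]
          have : min (1 / N i) (1 / N j) * h i ≤ 1 / N i * h i :=
            mul_le_mul_of_nonneg_right (min_le_left _ _) (hh i)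
          have e2 : 1 / N i * h i = h i / N i := by ring
          linarith
        · rw [e]
          have : min (1 / N i) (1 / N j) * h j ≤ 1 / N j * h j :=
            mul_le_mul_of_nonneg_right (min_le_right _ _) (hh j)
          have e2 : 1 / N j * h j = h j / N j := by ring
          linarith
      have h3 : min (1 / N i) (1 / N j) * c ≤ c := by nlinarith
      have h4 := mul_le_mul_of_nonneg_left h2 hη
      calc min (1 / N i) (1 / N j) * ∑ v ∈ T i ∩ T j, l v ≤
            min (1 / N i) (1 / N j) * (η * max (h i) (h j) + c) := h1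
        _ = η * (min (1 / N i) (1 / N j) * max (h i) (h j)) + min (1 / N i) (1 / N j) * c := by ring
        _ ≤ _ := by linarith
    · rw [if_neg hij]
      positivity
  calc ∑ i, 1 / N i * ∑ v ∈ T i, l v
      ≤ ∑ i, (∑ v ∈ (T i).filter (fun v => b v = some i), 1 / N i * l v +
        ∑ j, (η * (h i / N i + h j / N j) + c)) := by
        refine Finset.sum_le_sum fun i _ => ?_
        rw [hsplit i]
        exact add_le_add le_rfl ((hrest i).trans (Finset.sum_le_sum fun j _ => hpair i j))
    _ = _ := by
        rw [Finset.sum_add_distrib]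
        refine congrArg₂ (· + ·) ?_ ?_
        · refine Finset.sum_congr rfl fun i _ => Finset.sum_congr ?_ fun _ _ => rfl
          ext v
          simp only [Finset.mem_filter]
        have e1 : ∀ i, ∑ j, (η * (h i / N i + h j / N j) + c) =
            η * (m * (h i / N i)) + η * ∑ j, h j / N j + m * c := by
          intro i
          rw [Finset.sum_add_distrib, ← Finset.mul_sum, Finset.sum_add_distrib]
          simp only [Finset.sum_const, Finset.card_univ, Fintype.card_fin, nsmul_eq_mul]
          ring
        rw [Finset.sum_congr rfl fun i _ => e1 i]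
        rw [Finset.sum_add_distrib, Finset.sum_add_distrib, ← Finset.mul_sum, ← Finset.mul_sum]
        simp only [Finset.sum_const, Finset.card_univ, Fintype.card_fin, nsmul_eq_mul]
        ring

end Pool.Agent.N753.LS
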