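import Mathlib

/-!
# The discriminant of a fibre
-/

set_option autoImplicit false
set_option linter.unusedSectionVars false

namespace Pool.Agent.N753.LS

open Polynomial Module

section

variable {K A F : Type} [Field K] [CommRing A] [Algebra K A] [Algebra K[X] A]
  [IsScalarTower K K[X] A] [Field F] [Algebra K F] {N : ℕ} (b : Basis (Fin N) K[X] A)
  (φ : A →ₐ[K] F) {x : K} (hx : φ (algebraMap K[X] A X) = algebraMap K F x)

include hx in
theorem phi_smul (p : K[X]) (a : A) : φ (p • a) = p.eval x • φ a := by
  have h1 : (φ.comp (IsScalarTower.toAlgHom K K[X] A)) = aeval (algebraMap K F x) := by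
    apply Polynomial.algHom_ext
    rw [aeval_X]
    exact hx
  have h2 : φ (algebraMap K[X] A p) = algebraMap K F (p.eval x) := by
    have := congrArg (fun ψ : K[X] →ₐ[K] F => ψ p) h1
    rw [show (aeval (algebraMap K F x)) p = algebraMap K F (p.eval x) by
      rw [aeval_algebraMap_apply, coe_aeval_eq_eval]] at this
    exact this
  rw [Algebra.smul_def, map_mul, h2, Algebra.smul_def]

variable (C : Basis (Fin N) K F) (hC : ∀ i, C i = φ (b i))

include hx hC in
theorem repr_eval (a : A) (i : Fin N) : C.repr (φ a) i = (b.repr a i).eval x := by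
  have h1 : φ a = ∑ j, (b.repr a j).eval x • C j := by
    conv_lhs => rw [← b.sum_repr a]
    rw [map_sum]
    refine Finset.sum_congr rfl fun j _ => ?_
    rw [phi_smul φ hx, hC]
  rw [h1, C.repr_sum_self]

include hx hC in
theorem trace_eval (a : A) : Algebra.trace K F (φ a) = (Algebra.trace K[X] A a).eval x := by
  rw [Algebra.trace_eq_matrix_trace C, Algebra.trace_eq_matrix_trace b, Matrix.trace, Matrix.trace,
    eval_finsetSum]
  refine Finset.sum_congr rfl fun i _ => ?_
  rw [Matrix.diag_apply, Matrix.diag_apply, Algebra.leftMulMatrix_eq_repr_mul,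
    Algebra.leftMulMatrix_eq_repr_mul, hC, ← map_mul, repr_eval b φ hx C hC]

include hx hC in
/-- the discriminant of the fibre above `x` -/
theorem discr_eval : Algebra.discr K C = (Algebra.discr K[X] b).eval x := by
  rw [Algebra.discr_def, Algebra.discr_def, ← coe_evalRingHom, RingHom.map_det]
  congr 1
  ext i j
  rw [Algebra.traceMatrix_apply, Algebra.traceForm_apply, RingHom.mapMatrix_apply,
    Matrix.map_apply, Algebra.traceMatrix_apply, Algebra.traceForm_apply, coe_evalRingHom, hC, hC,
    ← map_mul, trace_eval b φ hx C hC]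

include hx in
theorem exists_C (hsurj : Function.Surjective φ) (hN : Module.finrank K F = N) :
    ∃ C : Basis (Fin N) K F, ∀ i, C i = φ (b i) := by
  refine ⟨basisOfTopLeSpanOfCardEqFinrank (fun i => φ (b i)) ?_ (by rw [Fintype.card_fin, hN]),
    fun i => by rw [coe_basisOfTopLeSpanOfCardEqFinrank]⟩
  intro y _
  obtain ⟨a, rfl⟩ := hsurj y
  rw [← b.sum_repr a, map_sum]
  refine Submodule.sum_mem _ fun j _ => ?_
  rw [phi_smul φ hx]
  exact Submodule.smul_mem _ _ (Submodule.subset_span ⟨j, rfl⟩)

end

section

variable {K A L : Type} [Field K] [CommRing A] [Algebra K A] [Field L] [Algebra K L]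
  [FiniteDimensional K L] (φ : A →ₐ[K] L)

/-- the residue field of a point -/
noncomputable def res : IntermediateField K L := IntermediateField.adjoin K (Set.range φ)

theorem res_eq : (res φ).toSubalgebra = φ.range := by
  unfold res
  rw [IntermediateField.adjoin_toSubalgebra]
  refine le_antisymm (Algebra.adjoin_le ?_) ?_
  · rintro y ⟨a, rfl⟩
    exact ⟨a, rfl⟩
  · rintro y ⟨a, rfl⟩
    exact Algebra.subset_adjoin ⟨a, rfl⟩

/-- the point as a map to its residue field -/
noncomputable def toRes : A →ₐ[K] res φ :=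
  φ.codRestrict (res φ).toSubalgebra fun a => by
    rw [res_eq]
    exact ⟨a, rfl⟩

theorem coe_toRes (a : A) : ((toRes φ a : res φ) : L) = φ a := rfl

theorem toRes_surj : Function.Surjective (toRes φ) := by
  rintro ⟨y, hy⟩
  have h1 : y ∈ (res φ).toSubalgebra := hy
  rw [res_eq] at h1
  obtain ⟨a, ha⟩ := h1
  exact ⟨a, Subtype.ext ha⟩

end

end Pool.Agent.N753.LS
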