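import Mathlib
import Pool.Agent.N753.LS.SetE

/-!
# The odd primes of a product of polynomials
-/

set_option autoImplicit false
set_option linter.unusedSectionVars false

namespace Pool.Agent.N753.LS

open NumberField IsDedekindDomain Finset Pool.Agent.H691R3 Pool.Agent.TH876.Loc Polynomial Height

variable {K : Type} [Field K] [NumberField K]

/-- clearing denominators, up to a square -/
theorem clear_sq (g : K[X]) : ∃ (f : (𝓞 K)[X]) (a : K), a ≠ 0 ∧
    f.map (algebraMap (𝓞 K) K) = C (a ^ 2) * g := by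
  obtain ⟨m, hm0, hm⟩ := IsLocalization.integerNormalization_spec (nonZeroDivisors (𝓞 K)) g
  refine ⟨C m * IsLocalization.integerNormalization (nonZeroDivisors (𝓞 K)) g,
    algebraMap (𝓞 K) K m, ?_, ?_⟩
  · rw [Ne, FaithfulSMul.algebraMap_eq_zero_iff]
    exact nonZeroDivisors.ne_zero hm0
  · rw [Polynomial.map_mul, Polynomial.map_C, hm]
    ext i
    rw [coeff_C_mul, coeff_smul, coeff_C_mul, Algebra.smul_def]
    ring

theorem isSquare_mul_iff {a b : WithZero (Multiplicative ℤ)} (hb : IsSquare b) (hb0 : b ≠ 0) :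
    IsSquare (b * a) ↔ IsSquare a := by
  constructor
  · intro h
    have : a = b * a * b⁻¹ := by
      rw [mul_comm b a, mul_assoc, mul_inv_cancel₀ hb0, mul_one]
    rw [this]
    exact h.mul hb.inv
  · intro h
    exact hb.mul h

theorem od_mul_sq {a c : K} (hc : c ≠ 0) : od (c ^ 2 * a) = od a := by
  ext v
  rw [mem_od, mem_od, map_mul, map_pow, isSquare_mul_iff (IsSquare.sq _)
    (pow_ne_zero _ ((Valuation.ne_zero_iff _).2 hc))]

/-- the value at a point which is not integral -/
theorem val_of_large {f : (𝓞 K)[X]} {v : Pr K} (hv : Good f v) (hd : 1 ≤ f.natDegree) {x : K}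
    (hx : 1 < v.valuation K x) : v.valuation K (aeval x f) = v.valuation K x ^ f.natDegree := by
  have hlc : f.leadingCoeff ∉ v.asIdeal := by
    intro h
    have h1 : (f.map (Ideal.Quotient.mk v.asIdeal)).coeff f.natDegree = 0 := by
      rw [coeff_map]
      exact Ideal.Quotient.eq_zero_iff_mem.2 h
    have h2 := hv.2.1
    rw [← h2, coeff_natDegree, leadingCoeff_eq_zero] at h1
    rw [h1, natDegree_zero] at h2
    omega
  have hlc1 : v.valuation K (algebraMap (𝓞 K) K (f.coeff f.natDegree)) = 1 :=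
    (v.valuation_eq_one_iff_notMem (K := K)).2 hlc
  have e : aeval x f = ∑ i ∈ Finset.range f.natDegree, algebraMap (𝓞 K) K (f.coeff i) * x ^ i +
      algebraMap (𝓞 K) K (f.coeff f.natDegree) * x ^ f.natDegree := by
    rw [aeval_eq_sum_range, Finset.sum_range_succ]
    simp only [Algebra.smul_def]
  have h3 : v.valuation K (algebraMap (𝓞 K) K (f.coeff f.natDegree) * x ^ f.natDegree) =
      v.valuation K x ^ f.natDegree := by
    rw [map_mul, hlc1, one_mul, map_pow]
  have h4 : v.valuation K (∑ i ∈ Finset.range f.natDegree,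
      algebraMap (𝓞 K) K (f.coeff i) * x ^ i) < v.valuation K x ^ f.natDegree := by
    refine Valuation.map_sum_lt _ ?_ fun i hi => ?_
    · exact pow_ne_zero _ (fun h => by rw [h] at hx; exact not_lt_zero hx)
    · rw [map_mul, map_pow]
      refine (mul_le_of_le_one_left' (v.valuation_le_one _)).trans_lt ?_
      exact pow_lt_pow_right₀ hx (Finset.mem_range.1 hi)
  rw [e, Valuation.map_add_eq_of_lt_right _ (by rw [h3]; exact h4), h3]

/-- at a good prime two coprime polynomials, not both of odd degree, are not both odd -/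
theorem not_both {f g a b : (𝓞 K)[X]} {n : 𝓞 K} (hab : a * f + b * g = C n) {v : Pr K}
    (hn : n ∉ v.asIdeal) (hf : Good f v) (hg : Good g v) (hdf : 1 ≤ f.natDegree)
    (hdg : 1 ≤ g.natDegree) (hodd : Even f.natDegree ∨ Even g.natDegree) {x : K}
    (hxf : v ∈ od (aeval x f)) (hxg : v ∈ od (aeval x g)) : False := by
  rw [mem_od] at hxf hxg
  by_cases hx : v.valuation K x ≤ 1
  · have h1 : (f.map (Ideal.Quotient.mk v.asIdeal)).eval (rd v x) = 0 := by
      by_contra h
      apply hxf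
      rw [isSquare_of_eval hx h]
      exact IsSquare.one
    have h2 : (g.map (Ideal.Quotient.mk v.asIdeal)).eval (rd v x) = 0 := by
      by_contra h
      apply hxg
      rw [isSquare_of_eval hx h]
      exact IsSquare.one
    have h3 := congrArg (fun p => (Polynomial.map (Ideal.Quotient.mk v.asIdeal) p).eval (rd v x)) hab
    simp only [Polynomial.map_add, Polynomial.map_mul, Polynomial.map_C, eval_add, eval_mul, eval_C,
      h1, h2, mul_zero, add_zero] at h3
    exact hn (Ideal.Quotient.eq_zero_iff_mem.1 h3.symm)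
  · rw [not_le] at hx
    rcases hodd with h | h
    · apply hxf
      rw [val_of_large hf hdf hx]
      exact h.isSquare_pow _
    · apply hxg
      rw [val_of_large hg hdg hx]
      exact h.isSquare_pow _

/-- Bézout's identity with integral coefficients -/
theorem bezout_pair {f g : (𝓞 K)[X]}
    (h : IsCoprime (f.map (algebraMap (𝓞 K) K)) (g.map (algebraMap (𝓞 K) K))) :
    ∃ (a b : (𝓞 K)[X]) (n : 𝓞 K), n ≠ 0 ∧ a * f + b * g = C n := by
  obtain ⟨a, b, hab⟩ := h
  obtain ⟨m, hm0, hm⟩ := IsLocalization.integerNormalization_spec (nonZeroDivisors (𝓞 K)) a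
  obtain ⟨n, hn0, hn⟩ := IsLocalization.integerNormalization_spec (nonZeroDivisors (𝓞 K)) b
  obtain ⟨A, hA⟩ : ∃ A, A = IsLocalization.integerNormalization (nonZeroDivisors (𝓞 K)) a := ⟨_, rfl⟩
  obtain ⟨B, hB⟩ : ∃ B, B = IsLocalization.integerNormalization (nonZeroDivisors (𝓞 K)) b := ⟨_, rfl⟩
  rw [← hA] at hm
  rw [← hB] at hn
  have hm' : A.map (algebraMap (𝓞 K) K) = C (algebraMap (𝓞 K) K m) * a := by
    ext i
    rw [hm, coeff_smul, coeff_C_mul, Algebra.smul_def]
  have hn' : B.map (algebraMap (𝓞 K) K) = C (algebraMap (𝓞 K) K n) * b := by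
    ext i
    rw [hn, coeff_smul, coeff_C_mul, Algebra.smul_def]
  refine ⟨C n * A, C m * B, m * n, mul_ne_zero (nonZeroDivisors.ne_zero hm0)
    (nonZeroDivisors.ne_zero hn0), ?_⟩
  apply Polynomial.map_injective (algebraMap (𝓞 K) K) (FaithfulSMul.algebraMap_injective _ _)
  rw [Polynomial.map_add, Polynomial.map_mul, Polynomial.map_mul, Polynomial.map_mul,
    Polynomial.map_mul, Polynomial.map_C, Polynomial.map_C, Polynomial.map_C, hm', hn',
    map_mul, C_mul]
  linear_combination (C (algebraMap (𝓞 K) K m) * C (algebraMap (𝓞 K) K n)) * hab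

open Classical in
/-- **the odd primes of a product** -/
theorem parts_sum {r : ℕ} (f : Fin r → (𝓞 K)[X]) (hf : ∀ j, Nice (f j))
    (hcop : ∀ i j, i ≠ j → IsCoprime ((f i).map (algebraMap (𝓞 K) K))
      ((f j).map (algebraMap (𝓞 K) K)))
    (hodd : ∀ i j, i ≠ j → Even (f i).natDegree ∨ Even (f j).natDegree) :
    ∃ M : ℝ, ∀ x : K, (∀ j, aeval x (f j) ≠ 0) →
      ∑ j, ∑ v ∈ od (aeval x (f j)), Real.log (Nv v) ≤
        ∑ v ∈ od (aeval x (∏ j, f j)), Real.log (Nv v) + M := by
  have h1 := fun j => exists_bad (f j) (hf j).2 (hf j).1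
  choose B hB using h1
  have h2 : ∀ i j, ∃ D : Finset (Pr K), i ≠ j → ∀ v ∉ D, ∃ (a b : (𝓞 K)[X]) (n : 𝓞 K),
      n ∉ v.asIdeal ∧ a * f i + b * f j = C n := by
    intro i j
    by_cases hij : i ≠ j
    · obtain ⟨a, b, n, hn, hab⟩ := bezout_pair (hcop i j hij)
      refine ⟨(fin_dvd hn).toFinset, fun _ v hv => ⟨a, b, n, ?_, hab⟩⟩
      rw [Set.Finite.mem_toFinset] at hv
      exact hv
    · exact ⟨∅, fun h => absurd h hij⟩
  choose D hD using h2
  obtain ⟨Bad, hBad⟩ : ∃ Bad : Finset (Pr K), Bad = (Finset.univ.biUnion B) ∪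
    (Finset.univ.biUnion fun i => Finset.univ.biUnion fun j => D i j) := ⟨_, rfl⟩
  have hBB : ∀ v, v ∉ Bad → ∀ j, v ∉ B j := fun v hv j h => hv (by
    rw [hBad]
    exact Finset.mem_union_left _ (Finset.mem_biUnion.2 ⟨j, Finset.mem_univ _, h⟩))
  have hDD : ∀ v, v ∉ Bad → ∀ i j, v ∉ D i j := fun v hv i j h => hv (by
    rw [hBad]
    exact Finset.mem_union_right _ (Finset.mem_biUnion.2 ⟨i, Finset.mem_univ _,
      Finset.mem_biUnion.2 ⟨j, Finset.mem_univ _, h⟩⟩))
  refine ⟨r * ∑ v ∈ Bad, Real.log (Nv v), fun x hx => ?_⟩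
  have hlog : ∀ v : Pr K, 0 ≤ Real.log (Nv v) := fun v => (log_Nv_pos v).le
  have h3 : ∀ j, ∑ v ∈ od (aeval x (f j)), Real.log (Nv v) ≤
      ∑ v ∈ od (aeval x (f j)) \ Bad, Real.log (Nv v) + ∑ v ∈ Bad, Real.log (Nv v) := by
    intro j
    rw [← Finset.sum_inter_add_sum_sdiff (od (aeval x (f j))) Bad, add_comm]
    refine add_le_add le_rfl ?_
    exact Finset.sum_le_sum_of_subset_of_nonneg Finset.inter_subset_right fun v _ _ => hlog v
  have hdisj : ∀ i j, i ≠ j → ∀ v, v ∈ od (aeval x (f i)) \ Bad → v ∉ od (aeval x (f j)) := by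
    intro i j hij v hv hv'
    obtain ⟨hv1, hv2⟩ := Finset.mem_sdiff.1 hv
    obtain ⟨a, b, n, hn, hab⟩ := hD i j hij v (hDD v hv2 i j)
    exact not_both hab hn (hB i v (hBB v hv2 i)) (hB j v (hBB v hv2 j)) (hf i).1 (hf j).1
      (hodd i j hij) hv1 hv'
  have h4 : ∑ j, ∑ v ∈ od (aeval x (f j)) \ Bad, Real.log (Nv v) ≤
      ∑ v ∈ od (aeval x (∏ j, f j)), Real.log (Nv v) := by
    rw [← Finset.sum_biUnion]
    · refine Finset.sum_le_sum_of_subset_of_nonneg ?_ fun v _ _ => hlog v
      intro v hv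
      obtain ⟨j, -, hj⟩ := Finset.mem_biUnion.1 hv
      have hj1 := (Finset.mem_sdiff.1 hj).1
      rw [mem_od] at hj1 ⊢
      rw [map_prod, map_prod, ← Finset.mul_prod_erase Finset.univ _ (Finset.mem_univ j), mul_comm]
      rw [isSquare_mul_iff]
      · exact hj1
      · refine Finset.isSquare_prod _ fun i hi => ?_
        have hij : j ≠ i := fun h => (Finset.mem_erase.1 hi).1 h.symm
        have := hdisj j i hij v hj
        rw [mem_od, not_not] at this
        exact this
      · rw [Finset.prod_ne_zero_iff]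
        intro i _
        exact (Valuation.ne_zero_iff _).2 (hx i)
    · intro i _ j _ hij
      show Disjoint _ _
      rw [Finset.disjoint_left]
      intro v hv hv'
      exact hdisj i j hij v hv (Finset.mem_sdiff.1 hv').1
  calc ∑ j, ∑ v ∈ od (aeval x (f j)), Real.log (Nv v)
      ≤ ∑ j : Fin r, (∑ v ∈ od (aeval x (f j)) \ Bad, Real.log (Nv v) +
        ∑ v ∈ Bad, Real.log (Nv v)) := Finset.sum_le_sum fun j _ => h3 j
    _ = ∑ j, ∑ v ∈ od (aeval x (f j)) \ Bad, Real.log (Nv v) +
        r * ∑ v ∈ Bad, Real.log (Nv v) := by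
        rw [Finset.sum_add_distrib, Finset.sum_const, Finset.card_univ, Fintype.card_fin,
          nsmul_eq_mul]
    _ ≤ _ := by linarith

end Pool.Agent.N753.LS
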