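import Mathlib

/-!
# The parity of the discriminant of a basis at an unramified prime
-/

set_option autoImplicit false

namespace Pool.Agent.N753.LS

open NumberField IsDedekindDomain Finset

set_option linter.unusedSectionVars false

variable {K L : Type} [Field K] [NumberField K] [Field L] [NumberField L] [Algebra K L]

/-- `z` is integral at the primes above `v` -/
def Intv (v : HeightOneSpectrum (𝓞 K)) (z : L) : Prop :=
  ∃ s : 𝓞 K, s ∉ v.asIdeal ∧ ∃ a : 𝓞 L,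
    algebraMap K L (algebraMap (𝓞 K) K s) * z = algebraMap (𝓞 L) L a

theorem coeAlg (s : 𝓞 K) : algebraMap (𝓞 L) L (algebraMap (𝓞 K) (𝓞 L) s) =
    algebraMap K L (algebraMap (𝓞 K) K s) := by
  rw [← IsScalarTower.algebraMap_apply (𝓞 K) K L, IsScalarTower.algebraMap_apply (𝓞 K) (𝓞 L) L]

theorem intv_of_int (v : HeightOneSpectrum (𝓞 K)) (a : 𝓞 L) : Intv v (algebraMap (𝓞 L) L a) :=
  ⟨1, fun h => v.isPrime.ne_top ((Ideal.eq_top_iff_one _).2 h), a, by simp⟩

theorem intv_mul {v : HeightOneSpectrum (𝓞 K)} {y z : L} (hy : Intv v y) (hz : Intv v z) :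
    Intv v (y * z) := by
  obtain ⟨s, hs, a, ha⟩ := hy
  obtain ⟨t, ht, b, hb⟩ := hz
  refine ⟨s * t, fun h => (v.isPrime.mem_or_mem h).elim hs ht, a * b, ?_⟩
  rw [map_mul, map_mul, map_mul, ← ha, ← hb]
  ring

theorem intv_add {v : HeightOneSpectrum (𝓞 K)} {y z : L} (hy : Intv v y) (hz : Intv v z) :
    Intv v (y + z) := by
  obtain ⟨s, hs, a, ha⟩ := hy
  obtain ⟨t, ht, b, hb⟩ := hz
  refine ⟨s * t, fun h => (v.isPrime.mem_or_mem h).elim hs ht,
    algebraMap (𝓞 K) (𝓞 L) t * a + algebraMap (𝓞 K) (𝓞 L) s * b, ?_⟩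
  rw [map_add (algebraMap (𝓞 L) L), map_mul (algebraMap (𝓞 L) L), map_mul (algebraMap (𝓞 L) L),
    coeAlg, coeAlg, ← ha, ← hb, map_mul, map_mul]
  ring

theorem exists_mul {v : HeightOneSpectrum (𝓞 K)} {c : K} (hc : v.valuation K c ≤ 1) :
    ∃ s : 𝓞 K, s ∉ v.asIdeal ∧ ∃ r : 𝓞 K,
      algebraMap (𝓞 K) K s * c = algebraMap (𝓞 K) K r := by
  obtain ⟨s, a, h⟩ := v.exists_primeCompl_mul_eq_of_integer c hc
  exact ⟨a.1, a.2, s, by rw [mul_comm]; exact h⟩

theorem intv_of_val {v : HeightOneSpectrum (𝓞 K)} {c : K} (hc : v.valuation K c ≤ 1) :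
    Intv (L := L) v (algebraMap K L c) := by
  obtain ⟨s, hs, r, h⟩ := exists_mul hc
  refine ⟨s, hs, algebraMap (𝓞 K) (𝓞 L) r, ?_⟩
  rw [coeAlg, ← map_mul, h]

theorem val_trace {v : HeightOneSpectrum (𝓞 K)} {z : L} (hz : Intv v z) :
    v.valuation K (Algebra.trace K L z) ≤ 1 := by
  obtain ⟨s, hs, a, ha⟩ := hz
  have h1 : Algebra.trace K L (algebraMap (𝓞 L) L a) =
      algebraMap (𝓞 K) K s * Algebra.trace K L z := by
    rw [← ha, ← Algebra.smul_def, map_smul, smul_eq_mul]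
  have h2 : IsIntegral (𝓞 K) (Algebra.trace K L (algebraMap (𝓞 L) L a)) := by
    refine Algebra.isIntegral_trace ?_
    exact (RingOfIntegers.isIntegral_coe a).tower_top
  obtain ⟨r, hr⟩ := (IsIntegrallyClosed.isIntegral_iff (K := K)).1 h2
  have h3 : v.valuation K (algebraMap (𝓞 K) K s) = 1 :=
    (v.valuation_eq_one_iff_notMem (K := K)).2 hs
  have h4 : v.valuation K (algebraMap (𝓞 K) K r) ≤ 1 := v.valuation_le_one (K := K) r
  rw [hr, h1, map_mul, h3, one_mul] at h4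
  exact h4

/-- integrality from the trace form at a prime which does not divide the different -/
theorem intv_of_trace {v : HeightOneSpectrum (𝓞 K)} {n : 𝓞 K} (hn : n ∉ v.asIdeal)
    (hnd : algebraMap (𝓞 K) (𝓞 L) n ∈ differentIdeal (𝓞 K) (𝓞 L)) {z : L}
    (hz : ∀ a : 𝓞 L, v.valuation K (Algebra.trace K L (z * algebraMap (𝓞 L) L a)) ≤ 1) :
    Intv v z := by
  classical
  -- generators
  obtain ⟨G, hG⟩ := (Module.Finite.fg_top : (⊤ : Submodule (𝓞 K) (𝓞 L)).FG)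
  have h1 : ∀ a : 𝓞 L, ∃ s : 𝓞 K, s ∉ v.asIdeal ∧ ∃ r : 𝓞 K,
      algebraMap (𝓞 K) K s * Algebra.trace K L (z * algebraMap (𝓞 L) L a) =
        algebraMap (𝓞 K) K r := fun a => exists_mul (hz a)
  choose s hs r hr using h1
  obtain ⟨S, hS⟩ : ∃ S : 𝓞 K, S = ∏ a ∈ G, s a := ⟨_, rfl⟩
  have hSv : S ∉ v.asIdeal := by
    rw [hS]
    intro h
    obtain ⟨a, -, ha⟩ := (Ideal.IsPrime.prod_mem_iff (hp := v.isPrime)).1 h
    exact hs a ha
  have hSG : ∀ a : 𝓞 L, ∃ r : 𝓞 K, algebraMap (𝓞 K) K S *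
      Algebra.trace K L (z * algebraMap (𝓞 L) L a) = algebraMap (𝓞 K) K r := by
    intro a
    have ha : a ∈ Submodule.span (𝓞 K) (G : Set (𝓞 L)) := by rw [hG]; trivial
    induction ha using Submodule.span_induction with
    | mem x hx =>
      refine ⟨(∏ b ∈ G.erase x, s b) * r x, ?_⟩
      rw [map_mul (algebraMap (𝓞 K) K), ← hr x, hS, ← Finset.mul_prod_erase G s hx,
        map_mul (algebraMap (𝓞 K) K)]
      ring
    | zero => exact ⟨0, by simp⟩
    | add x y _ _ hx hy =>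
      obtain ⟨p, hp⟩ := hx
      obtain ⟨q, hq⟩ := hy
      refine ⟨p + q, ?_⟩
      rw [map_add (algebraMap (𝓞 K) K), ← hp, ← hq, map_add (algebraMap (𝓞 L) L), mul_add,
        map_add, mul_add]
    | smul c x _ hx =>
      obtain ⟨p, hp⟩ := hx
      refine ⟨c * p, ?_⟩
      have e : z * algebraMap (𝓞 L) L (c • x) =
          algebraMap (𝓞 K) K c • (z * algebraMap (𝓞 L) L x) := by
        rw [Algebra.smul_def c x, map_mul, coeAlg, Algebra.smul_def]
        ring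
      rw [e, map_smul, smul_eq_mul, map_mul (algebraMap (𝓞 K) K), ← hp]
      ring
  -- `S z` is in the dual
  have one_ne : (1 : FractionalIdeal (nonZeroDivisors (𝓞 L)) L) ≠ 0 := one_ne_zero' _
  have h2 : algebraMap K L (algebraMap (𝓞 K) K S) * z ∈
      (FractionalIdeal.dual (𝓞 K) K (1 : FractionalIdeal (nonZeroDivisors (𝓞 L)) L)) := by
    rw [FractionalIdeal.mem_dual one_ne]
    intro a ha
    rw [FractionalIdeal.mem_one_iff] at ha
    obtain ⟨a', rfl⟩ := ha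
    obtain ⟨r', hr'⟩ := hSG a'
    refine ⟨r', ?_⟩
    rw [← hr', Algebra.traceForm_apply, mul_assoc,
      ← Algebra.smul_def (A := L) (algebraMap (𝓞 K) K S), map_smul, smul_eq_mul]
  have h3 : (algebraMap (𝓞 L) L (algebraMap (𝓞 K) (𝓞 L) n)) *
      (algebraMap K L (algebraMap (𝓞 K) K S) * z) ∈
      (1 : FractionalIdeal (nonZeroDivisors (𝓞 L)) L) := by
    have h4 : (algebraMap (𝓞 L) L (algebraMap (𝓞 K) (𝓞 L) n)) ∈
        ((differentIdeal (𝓞 K) (𝓞 L) : Ideal (𝓞 L)) :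
          FractionalIdeal (nonZeroDivisors (𝓞 L)) L) := by
      rw [FractionalIdeal.mem_coeIdeal]
      exact ⟨_, hnd, rfl⟩
    have h5 := FractionalIdeal.mul_mem_mul h4 h2
    rw [coeIdeal_differentIdeal (𝓞 K) K L (𝓞 L), inv_mul_cancel₀
      (FractionalIdeal.dual_ne_zero _ _ one_ne)] at h5
    exact h5
  rw [FractionalIdeal.mem_one_iff] at h3
  obtain ⟨b, hb⟩ := h3
  refine ⟨n * S, fun h => (v.isPrime.mem_or_mem h).elim hn hSv, b, ?_⟩
  rw [hb, map_mul, map_mul, mul_assoc, coeAlg]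

end Pool.Agent.N753.LS
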