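import Mathlib
import Pool.Agent.N753.LS.Ram

/-!
# The parity of the discriminant of a basis at an unramified prime
-/

set_option autoImplicit false
set_option linter.unusedSectionVars false

namespace Pool.Agent.N753.LS

open NumberField IsDedekindDomain Finset Module

variable {K L : Type} [Field K] [NumberField K] [Field L] [NumberField L] [Algebra K L]
  {ι : Type} [Fintype ι] [DecidableEq ι]

theorem val_det_le (v : HeightOneSpectrum (𝓞 K)) (M : Matrix ι ι K)
    (h : ∀ i j, v.valuation K (M i j) ≤ 1) : v.valuation K M.det ≤ 1 := by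
  obtain ⟨M', hM'⟩ : ∃ M' : Matrix ι ι (v.valuation K).integer,
    M' = fun i j => ⟨M i j, h i j⟩ := ⟨_, rfl⟩
  have h1 : M = (Subring.subtype (v.valuation K).integer).mapMatrix M' := by
    ext i j
    rw [hM']
    rfl
  rw [h1, ← RingHom.map_det]
  exact M'.det.2

theorem val_discr_le {v : HeightOneSpectrum (𝓞 K)} {e : ι → L} (he : ∀ i, Intv v (e i)) :
    v.valuation K (Algebra.discr K e) ≤ 1 := by
  rw [Algebra.discr_def]
  refine val_det_le v _ fun i j => ?_
  rw [Algebra.traceMatrix_apply, Algebra.traceForm_apply]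
  exact val_trace (intv_mul (he i) (he j))

/-- an integral family with discriminant of largest valuation -/
theorem exists_max (v : HeightOneSpectrum (𝓞 K)) (b : Basis ι K L) :
    ∃ e : ι → L, (∀ i, Intv v (e i)) ∧ Algebra.discr K e ≠ 0 ∧
      ∀ e' : ι → L, (∀ i, Intv v (e' i)) → Algebra.discr K e' ≠ 0 →
        v.valuation K (Algebra.discr K e') ≤ v.valuation K (Algebra.discr K e) := by
  classical
  have hex : ∃ e : ι → L, (∀ i, Intv v (e i)) ∧ Algebra.discr K e ≠ 0 := by
    obtain ⟨y, hy, hy'⟩ := exists_integral_multiples (𝓞 K) K (Finset.univ.image b)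
    have hyK : algebraMap (𝓞 K) K y ≠ 0 := by
      rw [Ne, FaithfulSMul.algebraMap_eq_zero_iff]
      exact hy
    refine ⟨b.unitsSMul fun _ => Units.mk0 _ hyK, fun i => ?_,
      Algebra.discr_not_zero_of_basis K _⟩
    have h1 := hy' (b i) (Finset.mem_image_of_mem _ (Finset.mem_univ i))
    have h2 : IsIntegral ℤ (y • b i) := isIntegral_trans _ h1
    have h3 : (b.unitsSMul fun _ => Units.mk0 _ hyK) i = algebraMap (𝓞 L) L ⟨y • b i, h2⟩ := by
      rw [Basis.unitsSMul_apply, Units.smul_def, Units.val_mk0, algebraMap_smul]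
      rfl
    rw [h3]
    exact intv_of_int v _
  have hnat : ∃ k : ℕ, ∃ e : ι → L, (∀ i, Intv v (e i)) ∧
      v.valuation K (Algebra.discr K e) = WithZero.exp (-(k : ℤ)) := by
    obtain ⟨e, he, he0⟩ := hex
    have h0 : v.valuation K (Algebra.discr K e) ≠ 0 := (Valuation.ne_zero_iff _).2 he0
    have h1 := val_discr_le he
    obtain ⟨n, hn⟩ := WithZero.ne_zero_iff_exists.1 h0
    refine ⟨(-Multiplicative.toAdd n).toNat, e, he, ?_⟩
    have hn0 : Multiplicative.toAdd n ≤ 0 := by
      rw [← hn, ← WithZero.coe_one, WithZero.coe_le_coe] at h1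
      exact h1
    rw [← hn, Int.toNat_of_nonneg (by omega), neg_neg]
    rfl
  obtain ⟨e, he, hk⟩ := Nat.find_spec hnat
  refine ⟨e, he, ?_, ?_⟩
  · intro h0
    rw [h0, map_zero] at hk
    exact WithZero.exp_ne_zero hk.symm
  · intro e' he' he0'
    by_contra hlt
    rw [not_le, hk] at hlt
    have h0 : v.valuation K (Algebra.discr K e') ≠ 0 := (Valuation.ne_zero_iff _).2 he0'
    have h1 := val_discr_le he'
    obtain ⟨n, hn⟩ := WithZero.ne_zero_iff_exists.1 h0
    have hn0 : Multiplicative.toAdd n ≤ 0 := by
      rw [← hn, ← WithZero.coe_one, WithZero.coe_le_coe] at h1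
      exact h1
    have h2 : v.valuation K (Algebra.discr K e') =
        WithZero.exp (-((-Multiplicative.toAdd n).toNat : ℤ)) := by
      rw [← hn, Int.toNat_of_nonneg (by omega), neg_neg]
      rfl
    rw [h2, WithZero.exp_lt_exp] at hlt
    have h3 := Nat.find_min' hnat ⟨e', he', h2⟩
    omega

/-- **parity**: at a prime which does not divide the different the discriminant of every basis has
even valuation -/
theorem isSquare_discr {v : HeightOneSpectrum (𝓞 K)} {n : 𝓞 K} (hn : n ∉ v.asIdeal)
    (hnd : algebraMap (𝓞 K) (𝓞 L) n ∈ differentIdeal (𝓞 K) (𝓞 L)) (b : Basis ι K L) :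
    IsSquare (v.valuation K (Algebra.discr K b)) := by
  classical
  obtain ⟨e, he, he0, hmax⟩ := exists_max v b
  have hli : LinearIndependent K e := by
    by_contra hcon
    exact he0 (Algebra.discr_zero_of_not_linearIndependent K hcon)
  have hcard : Fintype.card ι = Module.finrank K L := (Module.finrank_eq_card_basis b).symm
  have : Nonempty ι := b.index_nonempty
  obtain ⟨B, hB⟩ : ∃ B : Basis ι K L, (B : ι → L) = e :=
    ⟨basisOfLinearIndependentOfCardEqFinrank hli hcard,
      coe_basisOfLinearIndependentOfCardEqFinrank hli hcard⟩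
  -- the coordinates of integral elements are integral
  have hcoord : ∀ z : L, Intv v z → ∀ i, v.valuation K (B.repr z i) ≤ 1 := by
    intro z hz i
    by_contra hlt
    rw [not_le] at hlt
    have h1 : Algebra.discr K (Function.update e i z) = (B.repr z i) ^ 2 * Algebra.discr K e := by
      have h2 := Algebra.discr_of_matrix_vecMul (A := K) (B : ι → L)
        (B.toMatrix (Function.update e i z))
      rw [Basis.toMatrix_map_vecMul, ← hB, Basis.toMatrix_update, Basis.toMatrix_self,
        ← Matrix.cramer_apply, Matrix.cramer_one] at h2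
      rw [← hB, h2]
      rfl
    have h0 : B.repr z i ≠ 0 := by
      intro h
      rw [h, map_zero] at hlt
      exact not_lt_zero' hlt
    have h2 := hmax (Function.update e i z) (by
      intro j
      by_cases hj : j = i
      · subst hj
        rw [Function.update_self]
        exact hz
      · rw [Function.update_of_ne hj]
        exact he j) (by
      rw [h1]
      exact mul_ne_zero (pow_ne_zero _ h0) he0)
    rw [h1, map_mul, map_pow] at h2
    have h3 : 0 < v.valuation K (Algebra.discr K e) := zero_lt_iff.2 ((Valuation.ne_zero_iff _).2 he0)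
    have h4 : 1 < v.valuation K (B.repr z i) ^ 2 := one_lt_pow₀ hlt two_ne_zero
    have h5 : 1 * v.valuation K (Algebra.discr K e) <
        v.valuation K (B.repr z i) ^ 2 * v.valuation K (Algebra.discr K e) :=
      mul_lt_mul_of_pos_right h4 h3
    rw [one_mul] at h5
    exact absurd h2 (not_le.2 h5)
  -- the dual basis
  have hnd' := traceForm_nondegenerate K L
  obtain ⟨D, hD⟩ : ∃ D : Basis ι K L, D = (Algebra.traceForm K L).dualBasis hnd' B := ⟨_, rfl⟩
  have hDB : ∀ i j, Algebra.trace K L (D i * B j) = if j = i then 1 else 0 := by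
    intro i j
    have := LinearMap.BilinForm.apply_dualBasis_left (B := Algebra.traceForm K L) hnd' B i j
    rw [Algebra.traceForm_apply, ← hD] at this
    exact this
  have hDint : ∀ i, Intv v (D i) := by
    intro i
    refine intv_of_trace hn hnd fun a => ?_
    have h1 : Algebra.trace K L (D i * algebraMap (𝓞 L) L a) = B.repr (algebraMap (𝓞 L) L a) i := by
      conv_lhs => rw [← B.sum_repr (algebraMap (𝓞 L) L a)]
      rw [Finset.mul_sum, map_sum, Finset.sum_eq_single i]
      · rw [mul_smul_comm, map_smul, hDB, if_pos rfl, smul_eq_mul, mul_one]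
      · intro j _ hj
        rw [mul_smul_comm, map_smul, hDB, if_neg hj, smul_zero]
      · intro h
        exact absurd (Finset.mem_univ i) h
    rw [h1]
    exact hcoord _ (intv_of_int v a) i
  -- the unit discriminant
  obtain ⟨c, hc⟩ : ∃ c : Matrix ι ι K, c = fun i j => B.repr (D i) j := ⟨_, rfl⟩
  have hcT : c * Algebra.traceMatrix K e = 1 := by
    ext i k
    rw [Matrix.mul_apply, Matrix.one_apply]
    have h1 : ∑ j, c i j * Algebra.traceMatrix K e j k = Algebra.trace K L (D i * B k) := by
      conv_rhs => rw [← B.sum_repr (D i), Finset.sum_mul, map_sum]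
      refine Finset.sum_congr rfl fun j _ => ?_
      rw [Algebra.traceMatrix_apply, Algebra.traceForm_apply, hc, smul_mul_assoc, map_smul,
        smul_eq_mul, hB]
    rw [h1, hDB]
    by_cases h : k = i
    · rw [if_pos h, if_pos h.symm]
    · rw [if_neg h, if_neg (Ne.symm h)]
  have hdet : c.det * Algebra.discr K e = 1 := by
    rw [Algebra.discr_def, ← Matrix.det_mul, hcT, Matrix.det_one]
  have hc1 : v.valuation K c.det ≤ 1 := by
    refine val_det_le v c fun i j => ?_
    rw [hc]
    exact hcoord _ (hDint i) j
  have he1 := val_discr_le he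
  have hunit : v.valuation K (Algebra.discr K e) = 1 := by
    have h1 := congrArg (v.valuation K) hdet
    rw [map_mul, map_one] at h1
    refine le_antisymm he1 ?_
    calc (1 : WithZero (Multiplicative ℤ)) = v.valuation K c.det *
          v.valuation K (Algebra.discr K e) := h1.symm
      _ ≤ 1 * v.valuation K (Algebra.discr K e) := mul_le_mul_left hc1 _
      _ = _ := one_mul _
  -- the conclusion
  have h2 := Algebra.discr_of_matrix_vecMul (A := K) (B : ι → L) (B.toMatrix b)
  rw [Basis.toMatrix_map_vecMul, hB] at h2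
  rw [h2, map_mul, hunit, mul_one, map_pow]
  exact IsSquare.sq _

end Pool.Agent.N753.LS
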