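import Mathlib
import Pool.Agent.N753.LS.Ram2

/-!
# A lower bound for the discriminant
-/

set_option autoImplicit false
set_option linter.unusedSectionVars false

namespace Pool.Agent.N753.LS

open NumberField IsDedekindDomain Finset Module

attribute [local instance] FractionRing.liftAlgebra FractionRing.isScalarTower_liftAlgebra

section

variable {K F : Type} [Field K] [NumberField K] [Field F] [NumberField F] [Algebra K F]
  {ι : Type} [Fintype ι] [DecidableEq ι]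

/-- a prime at which the discriminant of a basis has odd valuation ramifies -/
theorem exists_ram {v : HeightOneSpectrum (𝓞 K)} (b : Basis ι K F)
    (h : ¬ IsSquare (v.valuation K (Algebra.discr K b))) :
    ∃ Q : Ideal (𝓞 F), Q.IsPrime ∧ Q ∣ differentIdeal (𝓞 K) (𝓞 F) ∧
      Q.comap (algebraMap (𝓞 K) (𝓞 F)) = v.asIdeal := by
  have h1 : (differentIdeal (𝓞 K) (𝓞 F)).comap (algebraMap (𝓞 K) (𝓞 F)) ≤ v.asIdeal := by
    intro n hn
    by_contra hnv
    exact h (isSquare_discr hnv hn b)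
  have := v.isPrime
  obtain ⟨Q, hQ, hQp, hQv⟩ := Ideal.exists_ideal_over_prime_of_isIntegral v.asIdeal
    (differentIdeal (𝓞 K) (𝓞 F)) h1
  exact ⟨Q, hQp, Ideal.dvd_iff_le.2 hQ, hQv⟩

theorem norm_over {v : HeightOneSpectrum (𝓞 K)} {Q : Ideal (𝓞 F)}
    (h : Q.comap (algebraMap (𝓞 K) (𝓞 F)) = v.asIdeal) (hQ : Q ≠ ⊥) :
    Ideal.absNorm v.asIdeal ≤ Ideal.absNorm Q := by
  have hfin : Finite (𝓞 F ⧸ Q) := Ideal.finiteQuotientOfFreeOfNeBot Q hQ
  rw [Ideal.absNorm_apply, Ideal.absNorm_apply, Submodule.cardQuot_apply, Submodule.cardQuot_apply]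
  exact Nat.card_le_card_of_injective
    (Ideal.quotientMap Q (algebraMap (𝓞 K) (𝓞 F)) h.ge) (Ideal.quotientMap_injective' h.le)

end

section

variable {K F L : Type} [Field K] [NumberField K] [Field F] [NumberField F] [Field L] [NumberField L]
  [Algebra K F] [Algebra F L] [Algebra K L] [IsScalarTower K F L]
  {ι : Type} [Fintype ι] [DecidableEq ι]

/-- the part of the different above a ramified prime -/
theorem exists_J {v : HeightOneSpectrum (𝓞 K)} (b : Basis ι K F)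
    (h : ¬ IsSquare (v.valuation K (Algebra.discr K b))) :
    ∃ J : Ideal (𝓞 L), J ∣ differentIdeal (𝓞 K) (𝓞 L) ∧
      v.asIdeal.map (algebraMap (𝓞 K) (𝓞 L)) ≤ J ∧ J ≠ ⊥ ∧
      (Module.finrank F L : ℝ) * Real.log (Ideal.absNorm v.asIdeal) ≤
        Real.log (Ideal.absNorm J) := by
  obtain ⟨Q, hQp, hQd, hQv⟩ := exists_ram b h
  have hQ0 : Q ≠ ⊥ := by
    rintro rfl
    apply v.ne_bot
    rw [← hQv, ← RingHom.ker_eq_comap_bot, RingHom.ker_eq_bot_iff_eq_zero]
    intro x hx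
    rwa [FaithfulSMul.algebraMap_eq_zero_iff] at hx
  have hfr : Module.finrank (𝓞 F) (𝓞 L) = Module.finrank F L :=
    (IsFractionRing.finrank_eq (𝓞 F) F (𝓞 L) L).symm
  have hN := Ideal.absNorm_algebraMap (𝓞 F) (𝓞 L) Q
  rw [hfr] at hN
  have hQN : Ideal.absNorm Q ≠ 0 := Ideal.absNorm_eq_zero_iff.not.2 hQ0
  refine ⟨Q.map (algebraMap (𝓞 F) (𝓞 L)), ?_, ?_, ?_, ?_⟩
  · rw [differentIdeal_eq_differentIdeal_mul_differentIdeal (𝓞 K) (𝓞 F) (𝓞 L)]
    refine Dvd.dvd.mul_left ?_ _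
    obtain ⟨R, hR⟩ := hQd
    rw [hR, Ideal.map_mul]
    exact Dvd.intro _ rfl
  · rw [IsScalarTower.algebraMap_eq (𝓞 K) (𝓞 F) (𝓞 L), ← Ideal.map_map]
    refine Ideal.map_mono ?_
    rw [Ideal.map_le_iff_le_comap]
    exact hQv.ge
  · intro h0
    rw [h0, Ideal.absNorm_bot] at hN
    exact pow_ne_zero _ hQN hN.symm
  · rw [hN]
    push_cast
    rw [Real.log_pow]
    refine mul_le_mul_of_nonneg_left ?_ (Nat.cast_nonneg _)
    refine Real.log_le_log ?_ ?_
    · have : Ideal.absNorm v.asIdeal ≠ 0 := Ideal.absNorm_eq_zero_iff.not.2 v.ne_bot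
      exact_mod_cast Nat.pos_of_ne_zero this
    · exact_mod_cast norm_over hQv hQ0

end

section

variable {K L : Type} [Field K] [NumberField K] [Field L] [NumberField L] [Algebra K L]

theorem log_disc : Real.log |(discr L : ℝ)| =
    Real.log (Ideal.absNorm (differentIdeal (𝓞 K) (𝓞 L))) +
      (Module.finrank K L : ℝ) * Real.log |(discr K : ℝ)| := by
  have h1 := NumberField.natAbs_discr_eq_absNorm_differentIdeal_mul_natAbs_discr_pow K (𝓞 K) L (𝓞 L)
  have hdiff0 : Ideal.absNorm (differentIdeal (𝓞 K) (𝓞 L)) ≠ 0 := by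
    intro h
    rw [h, zero_mul] at h1
    exact NumberField.discr_ne_zero L (Int.natAbs_eq_zero.1 h1)
  have h2 : |(discr L : ℝ)| = (Ideal.absNorm (differentIdeal (𝓞 K) (𝓞 L)) : ℝ) *
      |(discr K : ℝ)| ^ Module.finrank K L := by
    have h3 := congrArg (fun n : ℕ => (n : ℝ)) h1
    simp only [Nat.cast_mul, Nat.cast_pow, Nat.cast_natAbs, Int.cast_abs] at h3
    exact h3
  rw [h2, Real.log_mul, Real.log_pow]
  · exact_mod_cast hdiff0
  · refine pow_ne_zero _ ?_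
    rw [abs_ne_zero]
    exact_mod_cast NumberField.discr_ne_zero K

theorem differentIdeal_norm_ne : Ideal.absNorm (differentIdeal (𝓞 K) (𝓞 L)) ≠ 0 := by
  have h1 := NumberField.natAbs_discr_eq_absNorm_differentIdeal_mul_natAbs_discr_pow K (𝓞 K) L (𝓞 L)
  intro h
  rw [h, zero_mul] at h1
  exact NumberField.discr_ne_zero L (Int.natAbs_eq_zero.1 h1)

/-- **lower bound for the discriminant** -/
theorem disc_lower (V : Finset (HeightOneSpectrum (𝓞 K)))
    (w : HeightOneSpectrum (𝓞 K) → ℝ)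
    (hJ : ∀ v ∈ V, ∃ J : Ideal (𝓞 L), J ∣ differentIdeal (𝓞 K) (𝓞 L) ∧
      v.asIdeal.map (algebraMap (𝓞 K) (𝓞 L)) ≤ J ∧ J ≠ ⊥ ∧ w v ≤ Real.log (Ideal.absNorm J)) :
    ∑ v ∈ V, w v + (Module.finrank K L : ℝ) * Real.log |(discr K : ℝ)| ≤
      Real.log |(discr L : ℝ)| := by
  classical
  rw [log_disc (K := K) (L := L)]
  refine add_le_add ?_ le_rfl
  choose! J hJ1 hJ2 hJ3 hJ4 using hJ
  have hdvd : (∏ v ∈ V, J v) ∣ differentIdeal (𝓞 K) (𝓞 L) := by
    refine Finset.prod_dvd_of_coprime ?_ hJ1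
    intro v hv v' hv' hne
    show IsCoprime (J v) (J v')
    have m1 : v.asIdeal.IsMaximal := v.isMaximal
    have m2 : v'.asIdeal.IsMaximal := v'.isMaximal
    have hne' : v.asIdeal ≠ v'.asIdeal := fun h => hne (HeightOneSpectrum.ext h)
    have h1 : v.asIdeal ⊔ v'.asIdeal = ⊤ := Ideal.isCoprime_iff_sup_eq.1
      (Ideal.isCoprime_of_isMaximal hne')
    rw [Ideal.isCoprime_iff_sup_eq, eq_top_iff]
    have h2 := congrArg (Ideal.map (algebraMap (𝓞 K) (𝓞 L))) h1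
    rw [Ideal.map_sup, Ideal.map_top] at h2
    rw [← h2]
    exact sup_le_sup (hJ2 v hv) (hJ2 v' hv')
  have h1 := Ideal.absNorm_dvd_absNorm_of_le (Ideal.dvd_iff_le.1 hdvd)
  have h2 := Nat.le_of_dvd (Nat.pos_of_ne_zero (differentIdeal_norm_ne (K := K) (L := L))) h1
  have h3 : ((Ideal.absNorm (∏ v ∈ V, J v) : ℕ) : ℝ) ≤
      (Ideal.absNorm (differentIdeal (𝓞 K) (𝓞 L)) : ℝ) := by exact_mod_cast h2
  have hne : ∀ v ∈ V, ((Ideal.absNorm (J v) : ℕ) : ℝ) ≠ 0 := by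
    intro v hv
    rw [Nat.cast_ne_zero]
    exact Ideal.absNorm_eq_zero_iff.not.2 (hJ3 v hv)
  rw [map_prod] at h3
  push_cast at h3
  have h4 : 0 < ∏ v ∈ V, ((Ideal.absNorm (J v) : ℕ) : ℝ) :=
    Finset.prod_pos fun v hv => lt_of_le_of_ne (Nat.cast_nonneg _) (hne v hv).symm
  have h5 := Real.log_le_log h4 h3
  rw [Real.log_prod hne] at h5
  exact (Finset.sum_le_sum hJ4).trans h5

end

end Pool.Agent.N753.LS
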