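import Mathlib
import Pool.Agent.N753.LS.Parts
import Pool.Agent.N753.LS.Comb
import Pool.Agent.N753.LS.Fib
import Pool.Agent.N753.LS.Ram3

/-!
# The discriminants of the points above the tuples outside the exceptional set
-/

set_option autoImplicit false
set_option linter.unusedSectionVars false

namespace Pool.Agent.N753.LS

open NumberField IsDedekindDomain Finset Pool.Agent.H691R3 Pool.Agent.TH876.Loc Polynomial Height
  Module

variable {K : Type} [Field K] [NumberField K]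

/-- up to a constant and the square of a polynomial, the polynomial `D` is a product of `r` pairwise
coprime polynomials without multiple roots, not constant, at most one of them of odd degree -/
def OddParts (D : K[X]) (r : ℕ) : Prop :=
  ∃ (c : K) (h : K[X]) (g : Fin r → K[X]), D = C c * h ^ 2 * ∏ j, g j ∧
    (∀ j, Squarefree (g j) ∧ 1 ≤ (g j).natDegree) ∧
    ∀ j k, j ≠ k → IsCoprime (g j) (g k) ∧ (Even (g j).natDegree ∨ Even (g k).natDegree)

/-- integral polynomials for the parts -/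
theorem exists_parts {D : K[X]} {r : ℕ} (hr : 1 ≤ r) (h : OddParts D r) :
    ∃ (f : Fin r → (𝓞 K)[X]) (W : Finset (Pr K)), (∀ j, Nice (f j)) ∧ Nice (∏ j, f j) ∧
      (∀ i j, i ≠ j → IsCoprime ((f i).map (algebraMap (𝓞 K) K))
        ((f j).map (algebraMap (𝓞 K) K))) ∧
      (∀ i j, i ≠ j → Even (f i).natDegree ∨ Even (f j).natDegree) ∧
      ∀ x : K, D.eval x ≠ 0 → (∀ j, aeval x (f j) ≠ 0) ∧
        ∀ v ∈ od (aeval x (∏ j, f j)), v ∉ W → ¬ IsSquare (v.valuation K (D.eval x)) := by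
  classical
  obtain ⟨c, h, g, hD, hg, hgg⟩ := h
  have h1 := fun j => clear_sq (g j)
  choose f a ha hfa using h1
  have hunit : ∀ j, IsUnit (C (a j ^ 2) : K[X]) := fun j => by
    rw [isUnit_C]
    exact (pow_ne_zero 2 (ha j)).isUnit
  have hinj := FaithfulSMul.algebraMap_injective (𝓞 K) K
  have hdeg : ∀ j, (f j).natDegree = (g j).natDegree := by
    intro j
    rw [← natDegree_map_eq_of_injective hinj, hfa j, natDegree_C_mul (pow_ne_zero 2 (ha j))]
  have hsq : ∀ j, Squarefree ((f j).map (algebraMap (𝓞 K) K)) := by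
    intro j
    rw [hfa j]
    exact ((associated_unit_mul_left (g j) _ (hunit j)).squarefree_iff).2 (hg j).1
  have hcop : ∀ i j, i ≠ j → IsCoprime ((f i).map (algebraMap (𝓞 K) K))
      ((f j).map (algebraMap (𝓞 K) K)) := by
    intro i j hij
    rw [hfa i, hfa j, isCoprime_mul_unit_left_left (hunit i), isCoprime_mul_unit_left_right
      (hunit j)]
    exact (hgg i j hij).1
  have hnice : ∀ j, Nice (f j) := fun j => ⟨by rw [hdeg j]; exact (hg j).2, hsq j⟩
  have hf0 : ∀ j, f j ≠ 0 := by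
    intro j h0
    have := (hnice j).1
    rw [h0, natDegree_zero] at this
    omega
  refine ⟨f, od c, hnice, ⟨?_, ?_⟩, hcop, fun i j hij => ?_, fun x hx => ?_⟩
  · rw [natDegree_prod _ _ fun j _ => hf0 j]
    refine (hnice ⟨0, hr⟩).1.trans ?_
    exact Finset.single_le_sum (f := fun j => (f j).natDegree) (fun _ _ => Nat.zero_le _)
      (Finset.mem_univ _)
  · rw [Polynomial.map_prod]
    exact Finset.squarefree_prod_of_pairwise_isCoprime (fun i _ j _ hij => (hcop i j hij).isRelPrime)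
      fun j _ => hsq j
  · rw [hdeg i, hdeg j]
    exact (hgg i j hij).2
  · have hx' : c * h.eval x ^ 2 * ∏ j, (g j).eval x ≠ 0 := by
      rw [hD, eval_mul, eval_mul, eval_C, eval_pow, eval_prod] at hx
      exact hx
    have hc0 : c ≠ 0 := fun h0 => hx' (by rw [h0]; ring)
    have hh0 : h.eval x ≠ 0 := fun h0 => hx' (by rw [h0]; ring)
    have hg0 : ∏ j, (g j).eval x ≠ 0 := fun h0 => hx' (by rw [h0]; ring)
    have hval : ∀ j, aeval x (f j) = a j ^ 2 * (g j).eval x := by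
      intro j
      rw [← eval_map_algebraMap, hfa j, eval_mul, eval_C]
    refine ⟨fun j => ?_, fun v hv hvW => ?_⟩
    · rw [hval j]
      exact mul_ne_zero (pow_ne_zero 2 (ha j)) (Finset.prod_ne_zero_iff.1 hg0 j (Finset.mem_univ j))
    · rw [mem_od] at hv hvW
      rw [not_not] at hvW
      have e1 : aeval x (∏ j, f j) = (∏ j, a j) ^ 2 * ∏ j, (g j).eval x := by
        rw [map_prod, Finset.prod_congr rfl fun j _ => hval j, Finset.prod_mul_distrib,
          Finset.prod_pow]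
      have e2 : D.eval x = c * (h.eval x ^ 2 * ∏ j, (g j).eval x) := by
        rw [hD, eval_mul, eval_mul, eval_C, eval_pow, eval_prod]
        ring
      have ha0 : ∏ j, a j ≠ 0 := Finset.prod_ne_zero_iff.2 fun j _ => ha j
      have hv' : ∀ z : K, z ≠ 0 → v.valuation K z ≠ 0 := fun z hz => (Valuation.ne_zero_iff _).2 hz
      rw [e1, map_mul, map_pow, isSquare_mul_iff (IsSquare.sq _) (pow_ne_zero 2 (hv' _ ha0))] at hv
      rw [e2, map_mul, isSquare_mul_iff hvW (hv' _ hc0), map_mul, map_pow,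
        isSquare_mul_iff (IsSquare.sq _) (pow_ne_zero 2 (hv' _ hh0))]
      exact hv

open Classical in
/-- the bound for the sums over the odd primes of one curve -/
theorem sum_T {m : ℕ} {ε : ℝ} {E : Set (Fin m → K)}
    (hE : ∀ f : (𝓞 K)[X], Nice f → ∃ h0 : ℝ, ∀ x : Fin m → K, x ∉ E → ∀ i,
        h0 ≤ logHeight₁ (x i) → aeval (x i) f ≠ 0 ∧
          (2 - ε) * logHeight₁ (x i) ≤ ∑ v ∈ od (aeval (x i) f), Real.log (Nv v))
    (hε0 : 0 < ε) (hε1 : ε ≤ 1) {r : ℕ} (f : Fin r → (𝓞 K)[X]) (hf : ∀ j, Nice (f j))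
    (hcop : ∀ i j, i ≠ j → IsCoprime ((f i).map (algebraMap (𝓞 K) K))
      ((f j).map (algebraMap (𝓞 K) K)))
    (hodd : ∀ i j, i ≠ j → Even (f i).natDegree ∨ Even (f j).natDegree) (W : Finset (Pr K)) :
    ∃ c : ℝ, 0 ≤ c ∧ ∀ x : Fin m → K, x ∉ E → ∀ i, (∀ j, aeval (x i) (f j) ≠ 0) →
      r * (2 - ε) * logHeight₁ (x i) ≤
        ∑ v ∈ od (aeval (x i) (∏ j, f j)) \ W, Real.log (Nv v) + c := by
  obtain ⟨M, hM⟩ := parts_sum f hf hcop hodd
  have h1 := fun j => hE (f j) (hf j)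
  choose h0 hh0 using h1
  obtain ⟨H0, hH0⟩ : ∃ H0 : ℝ, H0 = ∑ j, max (h0 j) 0 := ⟨_, rfl⟩
  have hH00 : 0 ≤ H0 := by
    rw [hH0]
    exact Finset.sum_nonneg fun j _ => le_max_right _ _
  have hH0j : ∀ j, h0 j ≤ H0 := by
    intro j
    rw [hH0]
    exact (le_max_left _ _).trans (Finset.single_le_sum (f := fun j => max (h0 j) 0)
      (fun _ _ => le_max_right _ _) (Finset.mem_univ j))
  have hlog : ∀ v : Pr K, 0 ≤ Real.log (Nv v) := fun v => (log_Nv_pos v).le
  have hW0 : 0 ≤ ∑ v ∈ W, Real.log (Nv v) := Finset.sum_nonneg fun v _ => hlog v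
  refine ⟨r * 2 * H0 + ∑ v ∈ W, Real.log (Nv v) + |M|, by positivity, fun x hx i hxi => ?_⟩
  have hT0 : 0 ≤ ∑ v ∈ od (aeval (x i) (∏ j, f j)) \ W, Real.log (Nv v) :=
    Finset.sum_nonneg fun v _ => hlog v
  by_cases hcase : H0 ≤ logHeight₁ (x i)
  · have h2 := hM (x i) hxi
    have h3 : (r : ℝ) * ((2 - ε) * logHeight₁ (x i)) ≤
        ∑ j, ∑ v ∈ od (aeval (x i) (f j)), Real.log (Nv v) := by
      calc (r : ℝ) * ((2 - ε) * logHeight₁ (x i)) =
            ∑ _j : Fin r, (2 - ε) * logHeight₁ (x i) := by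
            rw [Finset.sum_const, Finset.card_univ, Fintype.card_fin, nsmul_eq_mul]
        _ ≤ _ := Finset.sum_le_sum fun j _ => (hh0 j x hx i ((hH0j j).trans hcase)).2
    have h4 : ∑ v ∈ od (aeval (x i) (∏ j, f j)), Real.log (Nv v) ≤
        ∑ v ∈ od (aeval (x i) (∏ j, f j)) \ W, Real.log (Nv v) + ∑ v ∈ W, Real.log (Nv v) := by
      rw [← Finset.sum_inter_add_sum_sdiff (od (aeval (x i) (∏ j, f j))) W, add_comm]
      refine add_le_add le_rfl ?_
      exact Finset.sum_le_sum_of_subset_of_nonneg Finset.inter_subset_right fun v _ _ => hlog v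
    have h5 := le_abs_self M
    have h6 : 0 ≤ (r : ℝ) * 2 * H0 := by positivity
    linarith
  · rw [not_le] at hcase
    have h2 : (r : ℝ) * (2 - ε) * logHeight₁ (x i) ≤ r * 2 * H0 := by
      have h3 := zero_le_logHeight₁ (x i)
      have h4 : (2 - ε) * logHeight₁ (x i) ≤ 2 * H0 := by nlinarith
      have h5 : (0 : ℝ) ≤ r := Nat.cast_nonneg _
      nlinarith
    have h3 := abs_nonneg M
    linarith

open Classical in
/-- the bound for the overlaps of two curves -/
theorem sum_over {m : ℕ} {η : ℝ} {E : Set (Fin m → K)}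
    (hE : ∀ f g : (𝓞 K)[X], Nice f → Nice g → ∃ (Bad : Finset (Pr K)) (h0 : ℝ),
        ∀ x : Fin m → K, x ∉ E → ∀ i j, i ≠ j →
          h0 ≤ max (logHeight₁ (x i)) (logHeight₁ (x j)) → aeval (x i) f ≠ 0 →
            ∑ v ∈ (od (aeval (x i) f) ∩ od (aeval (x j) g)) \ Bad, Real.log (Nv v) ≤
              η * max (logHeight₁ (x i)) (logHeight₁ (x j)))
    (hη : 0 < η) {f g : (𝓞 K)[X]} (hf : Nice f) (hg : Nice g) :
    ∃ c : ℝ, 0 ≤ c ∧ ∀ x : Fin m → K, x ∉ E → ∀ i j, i ≠ j → aeval (x i) f ≠ 0 →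
      ∀ U V : Finset (Pr K), U ⊆ od (aeval (x i) f) → V ⊆ od (aeval (x j) g) →
      ∑ v ∈ U ∩ V, Real.log (Nv v) ≤ η * max (logHeight₁ (x i)) (logHeight₁ (x j)) + c := by
  obtain ⟨Bad, h0, h1⟩ := hE f g hf hg
  obtain ⟨C, hC, h2⟩ := height_aeval f
  have hlog : ∀ v : Pr K, 0 ≤ Real.log (Nv v) := fun v => (log_Nv_pos v).le
  have hB0 : 0 ≤ ∑ v ∈ Bad, Real.log (Nv v) := Finset.sum_nonneg fun v _ => hlog v
  obtain ⟨H0, hH0⟩ : ∃ H0 : ℝ, H0 = max h0 0 := ⟨_, rfl⟩
  have hH00 : 0 ≤ H0 := by rw [hH0]; exact le_max_right _ _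
  have hH01 : h0 ≤ H0 := by rw [hH0]; exact le_max_left _ _
  refine ⟨∑ v ∈ Bad, Real.log (Nv v) + 2 * (C * (1 + H0)), by positivity, ?_⟩
  intro x hx i j hij hxf U V hU hV
  have h3 : ∑ v ∈ U ∩ V, Real.log (Nv v) ≤
      ∑ v ∈ od (aeval (x i) f) ∩ od (aeval (x j) g), Real.log (Nv v) :=
    Finset.sum_le_sum_of_subset_of_nonneg (Finset.inter_subset_inter hU hV) fun v _ _ => hlog v
  have hmax0 : 0 ≤ max (logHeight₁ (x i)) (logHeight₁ (x j)) :=
    (zero_le_logHeight₁ (x i)).trans (le_max_left _ _)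
  have hη' : 0 ≤ η * max (logHeight₁ (x i)) (logHeight₁ (x j)) := by positivity
  by_cases hcase : H0 ≤ max (logHeight₁ (x i)) (logHeight₁ (x j))
  · have h4 := h1 x hx i j hij (hH01.trans hcase) hxf
    have h5 : ∑ v ∈ od (aeval (x i) f) ∩ od (aeval (x j) g), Real.log (Nv v) ≤
        ∑ v ∈ (od (aeval (x i) f) ∩ od (aeval (x j) g)) \ Bad, Real.log (Nv v) +
          ∑ v ∈ Bad, Real.log (Nv v) := by
      rw [← Finset.sum_inter_add_sum_sdiff (od (aeval (x i) f) ∩ od (aeval (x j) g)) Bad, add_comm]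
      refine add_le_add le_rfl ?_
      exact Finset.sum_le_sum_of_subset_of_nonneg Finset.inter_subset_right fun v _ _ => hlog v
    have h6 : 0 ≤ 2 * (C * (1 + H0)) := by positivity
    linarith
  · rw [not_le] at hcase
    have h4 := sum_od_le hxf
    have h5 := h2 (x i)
    have h6 : C * (1 + logHeight₁ (x i)) ≤ C * (1 + H0) := by
      refine mul_le_mul_of_nonneg_left ?_ hC
      have := (le_max_left (logHeight₁ (x i)) (logHeight₁ (x j))).trans hcase.le
      linarith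
    have h7 : ∑ v ∈ od (aeval (x i) f) ∩ od (aeval (x j) g), Real.log (Nv v) ≤
        ∑ v ∈ od (aeval (x i) f), Real.log (Nv v) :=
      Finset.sum_le_sum_of_subset_of_nonneg Finset.inter_subset_left fun v _ _ => hlog v
    linarith

end Pool.Agent.N753.LS
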