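import Mathlib
import Pool.Agent.N753.LS.Fin1

/-!
# The discriminants of the points above the tuples outside the exceptional set
-/

set_option autoImplicit false
set_option linter.unusedSectionVars false

namespace Pool.Agent.N753.LS

open NumberField IsDedekindDomain Finset Pool.Agent.H691R3 Pool.Agent.TH876.Loc Polynomial Height
  Module

variable {K : Type} [Field K] [NumberField K]

open Classical in
/-- the discriminant of a field containing given fields which ramify at given primes -/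
theorem disc_many {L : Type} [Field L] [NumberField L] [Algebra K L] {m : ℕ} {N : Fin m → ℕ}
    (F : Fin m → IntermediateField K L) (hN : ∀ i, Module.finrank K (F i) = N i)
    (C : ∀ i, Basis (Fin (N i)) K (F i)) (T : Fin m → Finset (Pr K))
    (hT : ∀ i, ∀ v ∈ T i, ¬ IsSquare (v.valuation K (Algebra.discr K (C i))))
    (ι : Pr K → Fin m → Prop) (hι : ∀ v i, ι v i → v ∈ T i)
    (hι2 : ∀ v i j, ι v i → ι v j → i = j) :
    ∑ i, ∑ v ∈ (T i).filter (fun v => ι v i), 1 / (N i : ℝ) * Real.log (Nv v) +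
      Real.log |(discr K : ℝ)| ≤ Real.log |(discr L : ℝ)| / Module.finrank K L := by
  have hfd : FiniteDimensional K L := Module.Finite.of_restrictScalars_finite ℚ K L
  obtain ⟨d, hd⟩ : ∃ d : ℝ, d = (Module.finrank K L : ℝ) := ⟨_, rfl⟩
  have hd0 : 0 < d := by rw [hd]; exact_mod_cast Module.finrank_pos
  obtain ⟨w, hw⟩ : ∃ w : Pr K → ℝ, w = fun v => ∑ i, if ι v i then d / N i * Real.log (Nv v)
    else 0 := ⟨_, rfl⟩
  have hV := disc_lower (K := K) (L := L) (Finset.univ.biUnion fun i => (T i).filter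
    (fun v => ι v i)) w (by
    intro v hv
    obtain ⟨i, -, hi⟩ := Finset.mem_biUnion.1 hv
    obtain ⟨hvT, hvi⟩ := Finset.mem_filter.1 hi
    have : NumberField (F i) := inferInstance
    obtain ⟨J, hJ1, hJ2, hJ3, hJ4⟩ := exists_J (L := L) (C i) (hT i v hvT)
    refine ⟨J, hJ1, hJ2, hJ3, le_trans (le_of_eq ?_) hJ4⟩
    have h1 : w v = d / N i * Real.log (Nv v) := by
      rw [hw]
      beta_reduce
      rw [Finset.sum_eq_single i]
      · rw [if_pos hvi]
      · intro j _ hj
        rw [if_neg]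
        intro h
        exact hj (hι2 v j i h hvi)
      · intro h
        exact absurd (Finset.mem_univ i) h
    have h2 : d = N i * (Module.finrank (F i) L : ℝ) := by
      rw [hd, ← hN i]
      exact_mod_cast (Module.finrank_mul_finrank K (F i) L).symm
    have h3 : (N i : ℝ) ≠ 0 := by
      intro h0
      rw [h0, zero_mul] at h2
      exact hd0.ne' h2
    rw [h1, h2, mul_div_assoc, mul_comm (N i : ℝ), div_mul_cancel₀ _ h3]
    rfl)
  rw [le_div_iff₀ (by rw [← hd]; exact hd0), ← hd]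
  rw [← hd] at hV
  refine le_trans (le_of_eq ?_) hV
  rw [Finset.sum_biUnion]
  · rw [add_mul, Finset.sum_mul, mul_comm (Real.log |(discr K : ℝ)|)]
    congr 1
    refine Finset.sum_congr rfl fun i _ => ?_
    rw [Finset.sum_mul]
    refine Finset.sum_congr rfl fun v hv => ?_
    obtain ⟨-, hvi⟩ := Finset.mem_filter.1 hv
    rw [hw]
    beta_reduce
    rw [Finset.sum_eq_single i]
    · rw [if_pos hvi]
      ring
    · intro j _ hj
      rw [if_neg]
      intro h
      exact hj (hι2 v j i h hvi)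
    · intro h
      exact absurd (Finset.mem_univ i) h
  · intro i _ j _ hij
    show Disjoint _ _
    rw [Finset.disjoint_left]
    intro v hv hv'
    exact hij (hι2 v i j (Finset.mem_filter.1 hv).2 (Finset.mem_filter.1 hv').2)

variable (K) in
open Classical in
/-- **the main theorem** -/
theorem main {m : ℕ} (hm : 0 < m) {ε : ℝ} (hε : 0 < ε) :
    ∃ E : Set (Fin m → K), (∃ ν C : ℝ, 0 < ν ∧ ∀ H : ℝ, 0 ≤ H →
      ((E ∩ {x | htm x ≤ H}).ncard : ℝ) ≤ C * Real.exp ((2 * m - ν) * H)) ∧
      ∀ (A : Fin m → Type) [∀ i, CommRing (A i)] [∀ i, Algebra K (A i)] [∀ i, Algebra K[X] (A i)]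
        [∀ i, IsScalarTower K K[X] (A i)] (N : Fin m → ℕ) (b : ∀ i, Basis (Fin (N i)) K[X] (A i))
        (r : Fin m → ℕ), (∀ i, 1 ≤ r i) → (∀ i, OddParts (Algebra.discr K[X] (b i)) (r i)) →
        ∃ c : ℝ, ∀ x : Fin m → K, x ∉ E → ∀ (L : Type) [Field L] [NumberField L] [Algebra K L]
          (φ : ∀ i, A i →ₐ[K] L),
          (∀ i, φ i (algebraMap K[X] (A i) X) = algebraMap K L (x i)) →
          (∀ i, Module.finrank K (IntermediateField.adjoin K (Set.range (φ i))) = N i) →
          ∑ i, r i * (2 - ε) / N i * logHeight₁ (x i) ≤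
            Real.log |(discr L : ℝ)| / Module.finrank K L - Real.log |(discr K : ℝ)| + c := by
  have hmR : (1 : ℝ) ≤ m := by exact_mod_cast hm
  obtain ⟨e0, he0⟩ : ∃ e0 : ℝ, e0 = min ε 1 := ⟨_, rfl⟩
  have he00 : 0 < e0 := by rw [he0]; exact lt_min hε one_pos
  have he01 : e0 ≤ 1 := by rw [he0]; exact min_le_right _ _
  have he02 : e0 ≤ ε := by rw [he0]; exact min_le_left _ _
  obtain ⟨η, hη⟩ : ∃ η : ℝ, η = e0 / (4 * m) := ⟨_, rfl⟩
  have hη0 : 0 < η := by rw [hη]; positivity
  have hη1 : η ≤ 1 := by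
    rw [hη, div_le_one (by positivity)]
    linarith
  have hηm : 2 * m * η = e0 / 2 := by
    rw [hη]
    field_simp
    norm_num
  obtain ⟨E, hE1, hE2, hE3⟩ := exists_E K hm (ε := e0 / 2) (by positivity) (by linarith) hη0 hη1
  refine ⟨E, hE1, ?_⟩
  intro A _ _ _ _ N b r hr hD
  have hparts := fun i => exists_parts (hr i) (hD i)
  choose f W hf hfp hcop hodd hx using hparts
  have hT := fun i => sum_T hE2 (by positivity) (by linarith) (f i) (hf i) (hcop i) (hodd i) (W i)
  choose c1 hc1 hT using hT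
  have hO := fun i j => sum_over hE3 hη0 (hfp i) (hfp j)
  choose c2 hc2 hO using hO
  obtain ⟨c3, hc3⟩ : ∃ c3 : ℝ, c3 = ∑ i, ∑ j, c2 i j := ⟨_, rfl⟩
  have hc30 : 0 ≤ c3 := by
    rw [hc3]
    exact Finset.sum_nonneg fun i _ => Finset.sum_nonneg fun j _ => hc2 i j
  have hc3' : ∀ i j, c2 i j ≤ c3 := by
    intro i j
    rw [hc3]
    refine le_trans ?_ (Finset.single_le_sum (f := fun i => ∑ j, c2 i j)
      (fun i _ => Finset.sum_nonneg fun j _ => hc2 i j) (Finset.mem_univ i))
    exact Finset.single_le_sum (f := fun j => c2 i j) (fun j _ => hc2 i j) (Finset.mem_univ j)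
  refine ⟨∑ i, c1 i + m ^ 2 * c3, ?_⟩
  intro x hxE L _ _ _ φ hφ hdeg
  have hfd : FiniteDimensional K L := Module.Finite.of_restrictScalars_finite ℚ K L
  -- the residue fields
  have hres : ∀ i, ∃ C : Basis (Fin (N i)) K (res (φ i)), ∀ j, C j = toRes (φ i) (b i j) := by
    intro i
    refine exists_C (b i) (toRes (φ i)) (x := x i) ?_ (toRes_surj (φ i)) (hdeg i)
    exact Subtype.ext (hφ i)
  choose C hC using hres
  have hdisc : ∀ i, Algebra.discr K (C i) = (Algebra.discr K[X] (b i)).eval (x i) := by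
    intro i
    exact discr_eval (b i) (toRes (φ i)) (Subtype.ext (hφ i)) (C i) (hC i)
  have hD0 : ∀ i, (Algebra.discr K[X] (b i)).eval (x i) ≠ 0 := by
    intro i
    rw [← hdisc i]
    exact Algebra.discr_not_zero_of_basis K (C i)
  have hN1 : ∀ i, (1 : ℝ) ≤ N i := by
    intro i
    rw [← hdeg i]
    exact_mod_cast Module.finrank_pos
  -- the ramified primes
  obtain ⟨T, hTd⟩ : ∃ T : Fin m → Finset (Pr K),
    T = fun i => od (aeval (x i) (∏ j, f i j)) \ W i := ⟨_, rfl⟩
  have hTm : ∀ i, T i = od (aeval (x i) (∏ j, f i j)) \ W i := fun i => by rw [hTd]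
  have hfx : ∀ i, aeval (x i) (∏ j, f i j) ≠ 0 := by
    intro i
    rw [map_prod]
    exact Finset.prod_ne_zero_iff.2 fun j _ => (hx i (x i) (hD0 i)).1 j
  obtain ⟨ι, hι1, hι2, -, hι3⟩ := comb (V0 := Pr K) (fun i => (N i : ℝ)) hN1
    (fun i => logHeight₁ (x i)) (fun i => zero_le_logHeight₁ _) T (fun v => Real.log (Nv v))
    (fun v => (log_Nv_pos v).le) (η := η) (c := c3) hη0.le hc30 (by
      intro i j hij
      refine (hO i j x hxE i j hij (hfx i) (T i) (T j) ?_ ?_).trans ?_
      · rw [hTm]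
        exact Finset.sdiff_subset
      · rw [hTm]
        exact Finset.sdiff_subset
      · linarith [hc3' i j])
  have hmain := disc_many (fun i => res (φ i)) hdeg C T (by
    intro i v hv
    rw [hTm, Finset.mem_sdiff] at hv
    rw [hdisc i]
    exact (hx i (x i) (hD0 i)).2 v hv.1 hv.2) ι hι1 hι2
  have hlow : ∑ i, (r i * (2 - e0 / 2) / N i * logHeight₁ (x i) - c1 i) ≤
      ∑ i, 1 / (N i : ℝ) * ∑ v ∈ T i, Real.log (Nv v) := by
    refine Finset.sum_le_sum fun i _ => ?_
    have h1 := hT i x hxE i (hx i (x i) (hD0 i)).1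
    rw [← hTm] at h1
    have h2 : 0 < (N i : ℝ) := by linarith [hN1 i]
    have h3 : 1 / (N i : ℝ) ≤ 1 := by
      rw [div_le_one h2]
      exact hN1 i
    have h4 : 0 ≤ 1 / (N i : ℝ) := by positivity
    have h5 := mul_le_mul_of_nonneg_left h1 h4
    have h6 : 1 / (N i : ℝ) * c1 i ≤ c1 i := by nlinarith [hc1 i]
    calc r i * (2 - e0 / 2) / N i * logHeight₁ (x i) - c1 i =
          1 / (N i : ℝ) * (r i * (2 - e0 / 2) * logHeight₁ (x i)) - c1 i := by ring
      _ ≤ _ := by
          rw [mul_add] at h5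
          linarith
  have hterm : ∀ i, r i * (2 - ε) / N i * logHeight₁ (x i) ≤
      r i * (2 - e0 / 2) / N i * logHeight₁ (x i) - 2 * m * η * (logHeight₁ (x i) / N i) := by
    intro i
    have h2 : 0 < (N i : ℝ) := by linarith [hN1 i]
    have h3 : 0 ≤ logHeight₁ (x i) / N i := div_nonneg (zero_le_logHeight₁ _) h2.le
    have h4 : (1 : ℝ) ≤ r i := by exact_mod_cast hr i
    rw [hηm]
    have h5 : (r i : ℝ) * (2 - ε) ≤ r i * (2 - e0 / 2) - e0 / 2 := by nlinarith
    have h6 := mul_le_mul_of_nonneg_right h5 h3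
    calc r i * (2 - ε) / N i * logHeight₁ (x i) =
          (r i : ℝ) * (2 - ε) * (logHeight₁ (x i) / N i) := by ring
      _ ≤ _ := h6
      _ = _ := by ring
  calc ∑ i, r i * (2 - ε) / N i * logHeight₁ (x i) ≤
        ∑ i, (r i * (2 - e0 / 2) / N i * logHeight₁ (x i) -
          2 * m * η * (logHeight₁ (x i) / N i)) := Finset.sum_le_sum fun i _ => hterm i
    _ = ∑ i, (r i * (2 - e0 / 2) / N i * logHeight₁ (x i) - c1 i) + ∑ i, c1 i -
          2 * m * η * ∑ i, logHeight₁ (x i) / N i := by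
        rw [Finset.sum_sub_distrib, Finset.sum_sub_distrib, Finset.mul_sum]
        ring
    _ ≤ _ := by linarith

end Pool.Agent.N753.LS
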